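import Mathlib

/-!
# Linear functionals on `W(k')` over `W(k)`
-/

namespace Pool.Agent.H13.CA

/-- coordinate functionals of a topological basis -/
theorem exists_coord_fun {A V : Type*} [CommRing A] [AddCommGroup V] [Module A V] (p : A)
    [IsAdicComplete (Ideal.span {p}) A] (htf : ∀ v : V, p • v = 0 → v = 0) {T : Type*} (b : T → V)
    (hb1 : ∀ v : V, ∃ (c : T →₀ A) (v' : V), v = Finsupp.linearCombination A b c + p • v')
    (hb2 : ∀ (c : T →₀ A) (v' : V), Finsupp.linearCombination A b c = p • v' →
      ∀ t, ∃ a', c t = p * a') (t : T) :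
    ∃ l : V →ₗ[A] A, ∀ (n : ℕ) (c : T →₀ A) (v v' : V),
      v = Finsupp.linearCombination A b c + p ^ n • v' → ∃ a', l v - c t = p ^ n * a' := by
  classical
  have hD : ∀ n : ℕ, ∀ v : V, ∃ (c : T →₀ A) (v' : V),
      v = Finsupp.linearCombination A b c + p ^ n • v' := by
    intro n
    induction n with
    | zero =>
      intro v
      exact ⟨0, v, by rw [map_zero, pow_zero, one_smul, zero_add]⟩
    | succ n ih =>
      intro v
      obtain ⟨c, v', h⟩ := ih v
      obtain ⟨d, v'', h'⟩ := hb1 v'
      refine ⟨c + p ^ n • d, v'', ?_⟩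
      rw [map_add, map_smul, h, h', smul_add, ← mul_smul, ← pow_succ, add_assoc]
  have hU : ∀ n : ℕ, ∀ (c : T →₀ A) (v' : V), Finsupp.linearCombination A b c = p ^ n • v' →
      ∀ t, ∃ a', c t = p ^ n * a' := by
    intro n
    induction n with
    | zero =>
      intro c v' _ t
      exact ⟨c t, by rw [pow_zero, one_mul]⟩
    | succ n ih =>
      intro c v' h t
      have h1 := hb2 c (p ^ n • v') (by rw [h, pow_succ', mul_smul])
      choose a ha using h1
      let d : T →₀ A := Finsupp.onFinset c.support
        (fun t => if c t = 0 then 0 else a t) (by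
          intro t ht
          rw [Finsupp.mem_support_iff]
          intro h0
          exact ht (if_pos h0))
      have hd : c = p • d := by
        ext t
        rw [Finsupp.smul_apply, smul_eq_mul]
        change c t = p * (if c t = 0 then 0 else a t)
        by_cases h0 : c t = 0
        · rw [if_pos h0, mul_zero, h0]
        · rw [if_neg h0]
          exact ha t
      have h2 : p • (Finsupp.linearCombination A b d - p ^ n • v') = 0 := by
        rw [smul_sub, ← map_smul, ← hd, h, ← mul_smul, ← pow_succ', sub_self]
      have h3 := sub_eq_zero.1 (htf _ h2)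
      obtain ⟨a', ha'⟩ := ih d v' h3 t
      refine ⟨a', ?_⟩
      rw [hd, Finsupp.smul_apply, ha', smul_eq_mul, ← mul_assoc, ← pow_succ']
  have hU2 : ∀ n : ℕ, ∀ (c d : T →₀ A) (v v' v'' : V),
      v = Finsupp.linearCombination A b c + p ^ n • v' →
      v = Finsupp.linearCombination A b d + p ^ n • v'' → ∀ t, ∃ a', c t - d t = p ^ n * a' := by
    intro n c d v v' v'' h h' t
    have h1 : Finsupp.linearCombination A b (c - d) = p ^ n • (v'' - v') := by
      rw [map_sub, smul_sub, sub_eq_sub_iff_add_eq_add, ← h, add_comm, ← h']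
    obtain ⟨a', ha'⟩ := hU n (c - d) _ h1 t
    exact ⟨a', by rw [← ha', Finsupp.sub_apply]⟩
  choose c v' hc using hD
  have hsep : ∀ a : A, (∀ n : ℕ, ∃ a', a = p ^ n * a') → a = 0 := by
    intro a ha
    refine IsHausdorff.haus (I := Ideal.span {p}) inferInstance a fun n => ?_
    obtain ⟨a', ha'⟩ := ha n
    rw [smul_eq_mul, Ideal.mul_top, SModEq.zero, Ideal.span_singleton_pow,
      Ideal.mem_span_singleton]
    exact ⟨a', ha'⟩
  have hlim : ∀ v : V, ∃ a : A, ∀ n, ∃ a', a - c n v t = p ^ n * a' := by
    intro v
    obtain ⟨L, hL⟩ := IsPrecomplete.prec (I := Ideal.span {p}) (M := A) inferInstance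
      (f := fun n => c n v t) (by
        intro i j hij
        rw [smul_eq_mul, Ideal.mul_top, SModEq.sub_mem, Ideal.span_singleton_pow,
          Ideal.mem_span_singleton]
        have h1 := hc j v
        obtain ⟨s, rfl⟩ := Nat.exists_eq_add_of_le hij
        rw [pow_add, mul_smul] at h1
        obtain ⟨a', ha'⟩ := hU2 i _ _ v _ _ (hc i v) h1 t
        exact ⟨a', ha'⟩)
    refine ⟨L, fun n => ?_⟩
    have h1 := hL n
    rw [smul_eq_mul, Ideal.mul_top, SModEq.sub_mem, Ideal.span_singleton_pow,
      Ideal.mem_span_singleton] at h1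
    obtain ⟨a', ha'⟩ := h1
    exact ⟨-a', by rw [mul_neg, ← ha', neg_sub]⟩
  choose l hl using hlim
  have key : ∀ (n : ℕ) (d : T →₀ A) (v v'' : V),
      v = Finsupp.linearCombination A b d + p ^ n • v'' → ∃ a', l v - d t = p ^ n * a' := by
    intro n d v v'' h
    obtain ⟨a', ha'⟩ := hl v n
    obtain ⟨a'', ha''⟩ := hU2 n _ _ v _ _ (hc n v) h t
    exact ⟨a' + a'', by rw [mul_add, ← ha', ← ha'']; ring⟩
  refine ⟨{ toFun := l, map_add' := ?_, map_smul' := ?_ }, key⟩
  · intro v w
    rw [← sub_eq_zero]
    apply hsep
    intro n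
    obtain ⟨a1, h1⟩ := hl v n
    obtain ⟨a2, h2⟩ := hl w n
    obtain ⟨a3, h3⟩ := key n (c n v + c n w) (v + w) (v' n v + v' n w) (by
      rw [map_add, smul_add]
      conv_lhs => rw [hc n v, hc n w]
      abel)
    refine ⟨a3 - a1 - a2, ?_⟩
    rw [mul_sub, mul_sub, ← h1, ← h2, ← h3, Finsupp.add_apply]
    ring
  · intro a v
    rw [← sub_eq_zero]
    apply hsep
    intro n
    obtain ⟨a1, h1⟩ := hl v n
    obtain ⟨a3, h3⟩ := key n (a • c n v) (a • v) (a • v' n v) (by
      rw [map_smul]
      conv_lhs => rw [hc n v]
      rw [smul_add, smul_comm])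
    refine ⟨a3 - a * a1, ?_⟩
    have h4 : p ^ n * (a3 - a * a1) = p ^ n * a3 - a * (p ^ n * a1) := by ring
    rw [h4, ← h1, ← h3, Finsupp.smul_apply, smul_eq_mul, RingHom.id_apply, smul_eq_mul]
    ring

theorem witt_ker (p : ℕ) [Fact p.Prime] {K : Type*} [Field K] [CharP K p] [PerfectRing K p]
    (x : WittVector p K) :
    WittVector.constantCoeff x = 0 ↔ ∃ y, x = (p : WittVector p K) * y := by
  rw [← RingHom.mem_ker, WittVector.ker_constantCoeff, Ideal.mem_span_singleton]
  rfl

/-- a linear functional `l` on `W(k')` over `W(k)` with `l 1 = 1` -/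
theorem exists_fun_witt (p : ℕ) [Fact p.Prime] (k k' : Type*) [Field k] [Field k'] [Algebra k k']
    [CharP k p] [CharP k' p] [PerfectRing k p] [PerfectRing k' p] :
    ∃ l : WittVector p k' →+ WittVector p k,
      (∀ a x, l (WittVector.map (algebraMap k k') a * x) = a * l x) ∧ l 1 = 1 := by
  classical
  let _ : Algebra (WittVector p k) (WittVector p k') :=
    (WittVector.map (algebraMap k k')).toAlgebra
  have hsm : ∀ (a : WittVector p k) (x : WittVector p k'),
      a • x = WittVector.map (algebraMap k k') a * x := fun a x => rfl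
  have hpz : (p : WittVector p k) • (1 : WittVector p k') = (p : WittVector p k') := by
    rw [hsm, map_natCast, mul_one]
  have hpsm : ∀ x : WittVector p k', (p : WittVector p k) • x = (p : WittVector p k') * x := by
    intro x
    rw [hsm, map_natCast]
  have hcc : ∀ a : WittVector p k, WittVector.constantCoeff (WittVector.map (algebraMap k k') a) =
      algebraMap k k' (WittVector.constantCoeff a) := by
    intro a
    rw [WittVector.constantCoeff_apply, WittVector.map_coeff, WittVector.constantCoeff_apply]
  set B := Module.Basis.ofVectorSpace k k' with hB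
  set b : _ → WittVector p k' := fun t => WittVector.teichmuller p (B t) with hb
  have hbc : ∀ t, WittVector.constantCoeff (b t) = B t := by
    intro t
    rw [hb, WittVector.constantCoeff_apply, WittVector.teichmuller_coeff_zero]
  have hlc : ∀ c : (Module.Basis.ofVectorSpaceIndex k k') →₀ WittVector p k,
      WittVector.constantCoeff (Finsupp.linearCombination (WittVector p k) b c) =
        Finsupp.linearCombination k B (c.mapRange WittVector.constantCoeff (map_zero _)) := by
    intro c
    rw [Finsupp.linearCombination_apply, Finsupp.linearCombination_apply, Finsupp.sum,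
      map_sum, Finsupp.sum_mapRange_index (fun i => by rw [zero_smul]), Finsupp.sum]
    refine Finset.sum_congr rfl fun t _ => ?_
    rw [hsm, map_mul, hcc, hbc, Algebra.smul_def]
  have hb1 : ∀ v : WittVector p k', ∃ (c : (Module.Basis.ofVectorSpaceIndex k k') →₀ WittVector p k)
      (v' : WittVector p k'), v = Finsupp.linearCombination (WittVector p k) b c +
        (p : WittVector p k) • v' := by
    intro v
    set c : (Module.Basis.ofVectorSpaceIndex k k') →₀ WittVector p k :=
      (B.repr (WittVector.constantCoeff v)).mapRange (WittVector.teichmuller p)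
        (WittVector.teichmuller_zero p) with hcd
    have h1 : WittVector.constantCoeff (v - Finsupp.linearCombination (WittVector p k) b c) = 0 := by
      rw [map_sub, hlc, sub_eq_zero]
      have h2 : c.mapRange WittVector.constantCoeff (map_zero _) =
          B.repr (WittVector.constantCoeff v) := by
        ext t
        rw [Finsupp.mapRange_apply, hcd, Finsupp.mapRange_apply, WittVector.constantCoeff_apply,
          WittVector.teichmuller_coeff_zero]
      rw [h2, B.linearCombination_repr]
    obtain ⟨y, hy⟩ := (witt_ker p _).1 h1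
    exact ⟨c, y, by rw [hpsm, ← hy]; ring⟩
  have hb2 : ∀ (c : (Module.Basis.ofVectorSpaceIndex k k') →₀ WittVector p k)
      (v' : WittVector p k'), Finsupp.linearCombination (WittVector p k) b c =
        (p : WittVector p k) • v' → ∀ t, ∃ a', c t = (p : WittVector p k) * a' := by
    intro c v' h t
    rw [← witt_ker]
    have h1 := hlc c
    rw [h, hpsm, map_mul, map_natCast, CharP.cast_eq_zero, zero_mul] at h1
    have h2 := B.linearIndependent
    rw [linearIndependent_iff] at h2
    have h3 := h2 _ h1.symm
    have h4 := DFunLike.congr_fun h3 t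
    rw [Finsupp.mapRange_apply] at h4
    exact h4
  -- a coordinate of `1`
  have h1 : B.repr 1 ≠ 0 := by
    intro h0
    have := B.repr.injective (h0.trans (map_zero _).symm)
    exact one_ne_zero this
  obtain ⟨t, ht⟩ := DFunLike.ne_iff.1 h1
  obtain ⟨l, hl⟩ := exists_coord_fun (A := WittVector p k) (V := WittVector p k')
    (p : WittVector p k) (by
      intro v hv
      rw [hpsm] at hv
      rcases mul_eq_zero.1 hv with h | h
      · exact absurd h (WittVector.p_nonzero p k')
      · exact h) b hb1 hb2 t
  -- `l 1` is a unit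
  have hu : IsUnit (l 1) := by
    apply WittVector.isUnit_of_coeff_zero_ne_zero
    rw [← WittVector.constantCoeff_apply]
    obtain ⟨c, v', hc⟩ := hb1 1
    obtain ⟨a', ha'⟩ := hl 1 c 1 v' (by rw [pow_one]; exact hc)
    have h2 : WittVector.constantCoeff (l 1) = WittVector.constantCoeff (c t) := by
      rw [← sub_eq_zero, ← map_sub, ha', pow_one, map_mul, map_natCast, CharP.cast_eq_zero,
        zero_mul]
    rw [h2]
    have h3 := congrArg WittVector.constantCoeff hc
    rw [map_one, map_add, hlc, hpsm, map_mul, map_natCast, CharP.cast_eq_zero, zero_mul,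
      add_zero] at h3
    have h4 : B.repr 1 = c.mapRange WittVector.constantCoeff (map_zero _) := by
      rw [h3, B.repr_linearCombination]
    rw [h4, Finsupp.mapRange_apply] at ht
    exact ht
  obtain ⟨u, hu'⟩ := hu
  refine ⟨((↑u⁻¹ : WittVector p k) • l).toAddMonoidHom, ?_, ?_⟩
  · intro a x
    change (↑u⁻¹ : WittVector p k) • l (a • x) = a * ((↑u⁻¹ : WittVector p k) • l x)
    rw [map_smul, smul_eq_mul, smul_eq_mul, smul_eq_mul]
    ring
  · change (↑u⁻¹ : WittVector p k) • l 1 = 1
    rw [← hu', smul_eq_mul, Units.inv_mul]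

end Pool.Agent.H13.CA
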