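import Pool.Agent.H13.CA.RC
import Pool.Agent.H13.CA.BA

/-!
# Base change `W⟦X_1, .., X_m⟧ → W'⟦X_1, .., X_m⟧`
-/

open PowerSeries

namespace Pool.Agent.H13.CA

open Pool.Agent.H40.CH3

section contract

variable {W W' σ : Type*} [CommRing W] [CommRing W']

/-- apply an additive map to the coefficients -/
def lamA (l : W' →+ W) (y : MvPowerSeries σ W') : MvPowerSeries σ W :=
  fun d => l (MvPowerSeries.coeff d y)

theorem coeff_lamA (l : W' →+ W) (y : MvPowerSeries σ W') (d : σ →₀ ℕ) :
    MvPowerSeries.coeff d (lamA l y) = l (MvPowerSeries.coeff d y) := rfl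

theorem lamA_mul {φ : W →+* W'} {l : W' →+ W} (hl : ∀ a x, l (φ a * x) = a * l x)
    (x : MvPowerSeries σ W) (y : MvPowerSeries σ W') :
    lamA l (MvPowerSeries.map φ x * y) = x * lamA l y := by
  classical
  ext d
  rw [coeff_lamA, MvPowerSeries.coeff_mul, MvPowerSeries.coeff_mul, map_sum]
  refine Finset.sum_congr rfl fun i _ => ?_
  rw [coeff_lamA, MvPowerSeries.coeff_map, hl]

theorem lamA_one {l : W' →+ W} (h1 : l 1 = 1) :
    lamA l (1 : MvPowerSeries σ W') = (1 : MvPowerSeries σ W) := by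
  classical
  ext d
  rw [coeff_lamA, MvPowerSeries.coeff_one, MvPowerSeries.coeff_one]
  split_ifs
  · exact h1
  · exact map_zero l

theorem lamA_add {l : W' →+ W} (x y : MvPowerSeries σ W') :
    lamA l (x + y) = lamA l x + lamA l y := by
  ext d
  rw [coeff_lamA, map_add, map_add, map_add, coeff_lamA, coeff_lamA]

/-- extended ideals contract to the original ideals -/
theorem mem_of_map {φ : W →+* W'} {l : W' →+ W} (hl : ∀ a x, l (φ a * x) = a * l x)
    (h1 : l 1 = 1) {J : Ideal (MvPowerSeries σ W)} {x : MvPowerSeries σ W}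
    (hx : MvPowerSeries.map φ x ∈ J.map (MvPowerSeries.map (σ := σ) φ)) : x ∈ J := by
  have key : ∀ y ∈ J.map (MvPowerSeries.map (σ := σ) φ), ∀ r, lamA l (r * y) ∈ J := by
    intro y hy
    refine Submodule.span_induction (p := fun y _ => ∀ r, lamA l (r * y) ∈ J) ?_ ?_ ?_ ?_ hy
    · rintro _ ⟨x, hx, rfl⟩ r
      rw [mul_comm, lamA_mul hl]
      exact J.mul_mem_right _ hx
    · intro r
      rw [mul_zero]
      have : lamA l (0 : MvPowerSeries σ W') = 0 := by
        ext d
        rw [coeff_lamA, map_zero, map_zero, map_zero]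
      rw [this]
      exact zero_mem _
    · intro y z _ _ hy hz r
      rw [mul_add, lamA_add]
      exact add_mem (hy r) (hz r)
    · intro s y _ hy r
      rw [smul_eq_mul, ← mul_assoc]
      exact hy _
  have h2 := key _ hx 1
  rw [mul_comm, lamA_mul hl, lamA_one h1, mul_one] at h2
  exact h2

end contract

section base

variable {W W' k k' : Type*} [CommRing W] [IsDomain W] [CommRing W'] [IsDomain W'] [Field k]
  [Field k'] {π : W →+* k} {π' : W' →+* k'} {p m : ℕ} [Fact p.Prime] {φ : W →+* W'} {ψ : k →+* k'}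

theorem resd_base (hc : ∀ a, π' (φ a) = ψ (π a)) (x : MvPowerSeries (Fin m) W) :
    resd π' m (MvPowerSeries.map φ x) = ψ (resd π m x) := by
  change π' (MvPowerSeries.constantCoeff (MvPowerSeries.map φ x)) =
    ψ (π (MvPowerSeries.constantCoeff x))
  rw [MvPowerSeries.constantCoeff_map, hc]

/-- base change of automorphisms -/
theorem exists_baseAut [IsNoetherianRing W'] [IsAdicComplete (RingHom.ker π') W']
    (hW : IsWitt p (m + 1) π) (hc : ∀ a, π' (φ a) = ψ (π a))
    (g : MvPowerSeries (Fin m) W ≃ₐ[W] MvPowerSeries (Fin m) W) :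
    ∃ c : MvPowerSeries (Fin m) W' ≃ₐ[W'] MvPowerSeries (Fin m) W',
      ∀ x, c (MvPowerSeries.map φ x) = MvPowerSeries.map φ (g x) := by
  have hac : IsAdicComplete (Pool.Agent.H86.LT.mP m (RingHom.ker π'))
      (MvPowerSeries (Fin m) W') := Pool.Agent.H86.LT.ac_mP _
  have hmem : ∀ (g : MvPowerSeries (Fin m) W ≃ₐ[W] MvPowerSeries (Fin m) W) (i : Fin m),
      MvPowerSeries.map φ (g (MvPowerSeries.X i)) ∈
        Pool.Agent.H86.LT.mP m (RingHom.ker π') := by
    intro g i
    rw [Pool.Agent.H86.LT.mem_mP, RingHom.mem_ker]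
    have h1 := resd_base (m := m) hc (g (MvPowerSeries.X i))
    rw [resd_aut hW g] at h1
    change resd π' m _ = 0
    rw [h1]
    change ψ (π (MvPowerSeries.constantCoeff (MvPowerSeries.X i))) = 0
    rw [MvPowerSeries.constantCoeff_X, map_zero, map_zero]
  have key : ∀ g : MvPowerSeries (Fin m) W ≃ₐ[W] MvPowerSeries (Fin m) W,
      ∃ Φ : MvPowerSeries (Fin m) W' →+* MvPowerSeries (Fin m) W',
        (∀ a, Φ (MvPowerSeries.C a) = MvPowerSeries.C a) ∧
        ∀ x, Φ (MvPowerSeries.map φ x) = MvPowerSeries.map φ (g x) := by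
    intro g
    obtain ⟨Φ, h1, h2⟩ := Pool.Agent.H86.LT.ev_adic
      (I := Pool.Agent.H86.LT.mP m (RingHom.ker π'))
      (MvPowerSeries.C (σ := Fin m) (R := W'))
      (fun i : Fin m => MvPowerSeries.map φ (g (MvPowerSeries.X i))) (hmem g)
    refine ⟨Φ, h1, ?_⟩
    have h3 : Φ.comp (MvPowerSeries.map (σ := Fin m) φ) =
        (MvPowerSeries.map (σ := Fin m) φ).comp
          (g : MvPowerSeries (Fin m) W →+* MvPowerSeries (Fin m) W) := by
      refine Pool.Agent.H84.CA.mv_hom_ext (Pool.Agent.H86.LT.mP m (RingHom.ker π')) _ _ ?_ ?_ ?_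
      · intro a
        change Φ (MvPowerSeries.map φ (MvPowerSeries.C a)) =
          MvPowerSeries.map φ (g (MvPowerSeries.C a))
        have h4 : g (MvPowerSeries.C a) = MvPowerSeries.C a := g.commutes a
        rw [h4, MvPowerSeries.map_C, h1]
      · intro i
        change Φ (MvPowerSeries.map φ (MvPowerSeries.X i)) =
          MvPowerSeries.map φ (g (MvPowerSeries.X i))
        rw [MvPowerSeries.map_X, h2]
      · intro i
        change Φ (MvPowerSeries.map φ (MvPowerSeries.X i)) ∈ _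
        rw [MvPowerSeries.map_X, h2]
        exact hmem g i
    intro x
    exact RingHom.congr_fun h3 x
  obtain ⟨Φ, h1, h2⟩ := key g
  obtain ⟨Ψ, h3, h4⟩ := key g.symm
  have hX : ∀ i : Fin m, (MvPowerSeries.X i : MvPowerSeries (Fin m) W') =
      MvPowerSeries.map φ (MvPowerSeries.X i) := fun i => (MvPowerSeries.map_X φ i).symm
  have hXm : ∀ i : Fin m, (MvPowerSeries.X i : MvPowerSeries (Fin m) W') ∈
      Pool.Agent.H86.LT.mP m (RingHom.ker π') := by
    intro i
    rw [Pool.Agent.H86.LT.mem_mP, RingHom.mem_ker, MvPowerSeries.constantCoeff_X, map_zero]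
  have e1 : Φ.comp Ψ = RingHom.id _ := by
    refine Pool.Agent.H84.CA.mv_hom_ext (Pool.Agent.H86.LT.mP m (RingHom.ker π')) _ _ ?_ ?_ ?_
    · intro a
      change Φ (Ψ (MvPowerSeries.C a)) = MvPowerSeries.C a
      rw [h3, h1]
    · intro i
      change Φ (Ψ (MvPowerSeries.X i)) = MvPowerSeries.X i
      rw [hX, h4, h2, AlgEquiv.apply_symm_apply]
    · intro i
      change Φ (Ψ (MvPowerSeries.X i)) ∈ _
      have : Φ (Ψ (MvPowerSeries.X i)) = MvPowerSeries.X i := by
        rw [hX, h4, h2, AlgEquiv.apply_symm_apply]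
      rw [this]
      exact hXm i
  have e2 : Ψ.comp Φ = RingHom.id _ := by
    refine Pool.Agent.H84.CA.mv_hom_ext (Pool.Agent.H86.LT.mP m (RingHom.ker π')) _ _ ?_ ?_ ?_
    · intro a
      change Ψ (Φ (MvPowerSeries.C a)) = MvPowerSeries.C a
      rw [h1, h3]
    · intro i
      change Ψ (Φ (MvPowerSeries.X i)) = MvPowerSeries.X i
      rw [hX, h2, h4, AlgEquiv.symm_apply_apply]
    · intro i
      change Ψ (Φ (MvPowerSeries.X i)) ∈ _
      have : Ψ (Φ (MvPowerSeries.X i)) = MvPowerSeries.X i := by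
        rw [hX, h2, h4, AlgEquiv.symm_apply_apply]
      rw [this]
      exact hXm i
  let c : MvPowerSeries (Fin m) W' →ₐ[W'] MvPowerSeries (Fin m) W' :=
    { Φ with commutes' := fun a => h1 a }
  let d : MvPowerSeries (Fin m) W' →ₐ[W'] MvPowerSeries (Fin m) W' :=
    { Ψ with commutes' := fun a => h3 a }
  refine ⟨AlgEquiv.ofAlgHom c d (AlgHom.ext fun x => RingHom.congr_fun e1 x)
    (AlgHom.ext fun x => RingHom.congr_fun e2 x), h2⟩

/-- base change of liftings -/
theorem exists_baseLift [IsNoetherianRing W'] [IsAdicComplete (RingHom.ker π') W']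
    (hW : IsWitt p (m + 1) π) (hc : ∀ a, π' (φ a) = ψ (π a))
    {F : FormalGroup (MvPowerSeries (Fin m) W)} (a : Lift W F) :
    ∃ a' : Lift W' (F.map (MvPowerSeries.map (σ := Fin m) φ)),
      (∀ x, a'.g (MvPowerSeries.map φ x) = MvPowerSeries.map φ (a.g x)) ∧
        PowerSeries.map (resd π' m) a'.f = PowerSeries.map ψ (PowerSeries.map (resd π m) a.f) := by
  obtain ⟨c, hcc⟩ := exists_baseAut hW hc a.g
  have e1 : (F.map (a.g : MvPowerSeries (Fin m) W →+* MvPowerSeries (Fin m) W)).map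
      (MvPowerSeries.map (σ := Fin m) φ) = (F.map (MvPowerSeries.map (σ := Fin m) φ)).map
        (c : MvPowerSeries (Fin m) W' →+* MvPowerSeries (Fin m) W') := by
    rw [fmap_map, fmap_map]
    congr 1
    refine RingHom.ext fun x => ?_
    exact (hcc x).symm
  refine ⟨⟨c, PowerSeries.map (MvPowerSeries.map (σ := Fin m) φ) a.f,
    PowerSeries.map (MvPowerSeries.map (σ := Fin m) φ) a.f', ?_, map_hs a.zero' _, ?_, ?_⟩,
    hcc, ?_⟩
  · rw [← e1]
    exact a.hom.map _
  · rw [← map_subst' (hs_zero a.hom.1), a.left, map_X']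
  · rw [← map_subst' (hs_zero a.zero'), a.right, map_X']
  · ext n
    simp only [PowerSeries.coeff_map]
    exact resd_base hc _

theorem spc_base (hc : ∀ a, π' (φ a) = ψ (π a)) (F : FormalGroup (MvPowerSeries (Fin m) W)) :
    spc π' (F.map (MvPowerSeries.map (σ := Fin m) φ)) = (spc π F).map ψ := by
  unfold spc
  rw [fmap_map, fmap_map]
  congr 1
  exact RingHom.ext fun x => resd_base hc x

theorem isUnivW_base (hc : ∀ a, π' (φ a) = ψ (π a))
    {F : FormalGroup (MvPowerSeries (Fin m) W)} (hF : IsUnivW π p m F) :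
    IsUnivW π' p m (F.map (MvPowerSeries.map (σ := Fin m) φ)) := by
  refine ⟨IsComm.map' hF.comm _, ?_, ?_⟩
  · rw [spc_base hc]
    refine ⟨fun i hi => ?_, ?_⟩
    · rw [mulSer_map, coeff_map, hF.height.1 i hi, map_zero]
    · rw [mulSer_map, coeff_map]
      exact hF.height.2.map ψ
  · have h1 := congrArg (Ideal.map (MvPowerSeries.map (σ := Fin m) φ)) hF.gen
    rw [Ideal.map_span, Ideal.map_span, Set.image_union, Set.image_union, Set.image_singleton,
      map_natCast] at h1
    have h2 : (MvPowerSeries.map (σ := Fin m) φ) '' {x | ∃ i, i < m ∧ x = cw p F i} =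
        {x | ∃ i, i < m ∧ x = cw p (F.map (MvPowerSeries.map (σ := Fin m) φ)) i} := by
      ext x
      constructor
      · rintro ⟨y, ⟨i, hi, rfl⟩, rfl⟩
        exact ⟨i, hi, by rw [cw_map]⟩
      · rintro ⟨i, hi, rfl⟩
        exact ⟨_, ⟨i, hi, rfl⟩, by rw [cw_map]⟩
    have h3 : (MvPowerSeries.map (σ := Fin m) φ) '' Set.range MvPowerSeries.X =
        Set.range MvPowerSeries.X := by
      rw [← Set.range_comp]
      congr 1
      funext i
      exact MvPowerSeries.map_X φ i
    rw [h2, h3] at h1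
    exact h1

end base

end Pool.Agent.H13.CA
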