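import Pool.Agent.H13.CA.BB

/-!
# Chai's Hope over `W(k)⟦X_1, .., X_m⟧`, for radical ideals, over every perfect field over which all
automorphisms of the special fibre are defined
-/

open PowerSeries

namespace Pool.Agent.H13.CA

open Pool.Agent.H40.CH3

theorem ac_witt (p : ℕ) [Fact p.Prime] (k : Type*) [Field k] [CharP k p] [PerfectRing k p] :
    IsAdicComplete (RingHom.ker (WittVector.constantCoeff : WittVector p k →+* k))
      (WittVector p k) := by
  rw [WittVector.ker_constantCoeff]
  infer_instance

theorem ps_map_inj {R S : Type*} [CommRing R] [CommRing S] {φ : R →+* S}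
    (hφ : Function.Injective φ) {f g : R⟦X⟧}
    (h : PowerSeries.map φ f = PowerSeries.map φ g) : f = g := by
  ext i
  have h1 := congrArg (coeff i) h
  rw [coeff_map, coeff_map] at h1
  exact hφ h1

theorem autDef_of_isAlgClosed {k : Type*} [Field k] [IsAlgClosed k] (Γ : FormalGroup k) :
    AutDef Γ := by
  intro θ' hθ' _
  have hsurj : ∀ x : AlgebraicClosure k, ∃ y : k, algebraMap k (AlgebraicClosure k) y = x :=
    fun x => (IsAlgClosed.algebraMap_bijective_of_isIntegral
      (k := k) (K := AlgebraicClosure k)).2 x
  choose b hb using hsurj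
  have h3 : PowerSeries.map (algebraMap k (AlgebraicClosure k))
      (PowerSeries.mk fun i => b (coeff i θ')) = θ' := by
    ext i
    rw [PowerSeries.coeff_map, PowerSeries.coeff_mk, hb]
  refine ⟨PowerSeries.mk fun i => b (coeff i θ'), ?_, h3⟩
  apply Pool.Agent.H74.LA.isHom_of_map (algebraMap k (AlgebraicClosure k))
    (algebraMap k (AlgebraicClosure k)).injective
  rw [h3]
  exact hθ'

theorem witt_rad (p : ℕ) [Fact p.Prime] {m : ℕ} {k : Type*} [Field k] [CharP k p]
    [PerfectRing k p] {F : FormalGroup (MvPowerSeries (Fin m) (WittVector p k))}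
    (hF : IsUnivW WittVector.constantCoeff p m F)
    (hA : AutDef (spc WittVector.constantCoeff F))
    (P : Ideal (MvPowerSeries (Fin m) (WittVector p k))) (hP : P.IsRadical) (hPt : P ≠ ⊤)
    (N : ℕ)
    (hN : ∀ a : Lift (WittVector p k) F,
      (X : k⟦X⟧) ^ N ∣ PowerSeries.map (resd WittVector.constantCoeff m) a.f - X →
        P.map (a.g : MvPowerSeries (Fin m) (WittVector p k) →+*
          MvPowerSeries (Fin m) (WittVector p k)) ≤ P) :
    P = ⊥ ∨ ∃ j, j ≤ m ∧ P = IwW p F j := by
  classical
  have hW := isWitt_wittVector p (m + 1) k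
  have hac := ac_witt p k
  by_cases hp : (p : MvPowerSeries (Fin m) (WittVector p k)) ∈ P
  · right
    refine stable_p_mem_rad hW hF hA N P hP hPt hp fun θ hθ hu hd => ?_
    obtain ⟨a, ha⟩ := lift_existsW hW hF hθ hu
    exact ⟨a, ha, hN a (by rw [ha]; exact hd)⟩
  · left
    have hchar : CharP (AlgebraicClosure k) p :=
      charP_of_injective_algebraMap (algebraMap k (AlgebraicClosure k)).injective p
    have hperf : PerfectRing (AlgebraicClosure k) p := PerfectField.toPerfectRing p
    have hW' := isWitt_wittVector p (m + 1) (AlgebraicClosure k)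
    have hac' := ac_witt p (AlgebraicClosure k)
    set φ : WittVector p k →+* WittVector p (AlgebraicClosure k) :=
      WittVector.map (algebraMap k (AlgebraicClosure k)) with hφ
    have hc : ∀ a, WittVector.constantCoeff (φ a) =
        algebraMap k (AlgebraicClosure k) (WittVector.constantCoeff a) := by
      intro a
      rw [WittVector.constantCoeff_apply, WittVector.map_coeff, WittVector.constantCoeff_apply]
    obtain ⟨l, hl, hl1⟩ := exists_fun_witt p k (AlgebraicClosure k)
    have hF' := isUnivW_base (m := m) hc hF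
    have hsp := spc_base (m := m) hc F
    have hS' : Split p (m + 1) (spc WittVector.constantCoeff
        (F.map (MvPowerSeries.map (σ := Fin m) φ))) :=
      split_of_isAlgClosed p (Nat.succ_le_succ (Nat.zero_le m)) (IsComm.map' hF'.comm _)
        hF'.height
    set P' : Ideal (MvPowerSeries (Fin m) (WittVector p (AlgebraicClosure k))) :=
      psat p (P.map (MvPowerSeries.map (σ := Fin m) φ)).radical with hP'
    have hst : ∀ a' : Lift (WittVector p (AlgebraicClosure k))
        (F.map (MvPowerSeries.map (σ := Fin m) φ)),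
        (X : (AlgebraicClosure k)⟦X⟧) ^ N ∣
          PowerSeries.map (resd WittVector.constantCoeff m) a'.f - X →
        P'.map (a'.g : MvPowerSeries (Fin m) (WittVector p (AlgebraicClosure k)) →+*
          MvPowerSeries (Fin m) (WittVector p (AlgebraicClosure k))) ≤ P' := by
      intro a' ha'
      have h1 := a'.hom.map (resd WittVector.constantCoeff m)
      have h2 : (((F.map (MvPowerSeries.map (σ := Fin m) φ)).map
          (a'.g : MvPowerSeries (Fin m) (WittVector p (AlgebraicClosure k)) →+*
            MvPowerSeries (Fin m) (WittVector p (AlgebraicClosure k)))).map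
              (resd WittVector.constantCoeff m)) =
          spc WittVector.constantCoeff (F.map (MvPowerSeries.map (σ := Fin m) φ)) := by
        rw [fmap_map, resd_comp hW']
        rfl
      rw [h2] at h1
      change IsHom (spc WittVector.constantCoeff (F.map (MvPowerSeries.map (σ := Fin m) φ)))
        _ _ at h1
      rw [hsp] at h1
      obtain ⟨θ, hθ, hθ'⟩ := hA _ h1 (by
        rw [coeff_map]
        exact a'.isUnit.map _)
      have hu : IsUnit (coeff 1 θ) := by
        have h3 : IsUnit (coeff 1 (PowerSeries.map (resd WittVector.constantCoeff m) a'.f)) := by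
          rw [coeff_map]
          exact a'.isUnit.map _
        rw [← hθ', coeff_map] at h3
        rw [isUnit_iff_ne_zero] at h3 ⊢
        intro h0
        rw [h0, map_zero] at h3
        exact h3 rfl
      have hθN : (X : k⟦X⟧) ^ N ∣ θ - X := by
        rw [← hθ'] at ha'
        rw [X_pow_dvd_iff] at ha' ⊢
        intro i hi
        have h4 := ha' i hi
        rw [map_sub, coeff_map] at h4
        apply (algebraMap k (AlgebraicClosure k)).injective
        rw [map_zero, map_sub, map_sub, ← h4]
        congr 1
        rw [coeff_X, coeff_X]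
        split_ifs
        · exact map_one _
        · exact map_zero _
      obtain ⟨a, ha⟩ := lift_existsW hW hF hθ hu
      obtain ⟨b, hb1, hb2⟩ := exists_baseLift (m := m) (π' := WittVector.constantCoeff) hW hc a
      have hab : b = a' := by
        apply lift_uniqueW hW' hF'
        rw [hb2, ha, hθ']
      rw [hab] at hb1
      apply psat_stable
      rw [Ideal.map_le_iff_le_comap]
      rintro x ⟨n, hn⟩
      refine ⟨n, ?_⟩
      have h5 := Ideal.mem_map_of_mem
        (a'.g : MvPowerSeries (Fin m) (WittVector p (AlgebraicClosure k)) →+*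
          MvPowerSeries (Fin m) (WittVector p (AlgebraicClosure k))) hn
      rw [map_pow] at h5
      refine (?_ : (P.map (MvPowerSeries.map (σ := Fin m) φ)).map
        (a'.g : MvPowerSeries (Fin m) (WittVector p (AlgebraicClosure k)) →+*
          MvPowerSeries (Fin m) (WittVector p (AlgebraicClosure k))) ≤
            P.map (MvPowerSeries.map (σ := Fin m) φ)) h5
      rw [Ideal.map_le_iff_le_comap, Ideal.map_le_iff_le_comap]
      intro y hy
      rw [Ideal.mem_comap, Ideal.mem_comap]
      change a'.g (MvPowerSeries.map φ y) ∈ _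
      rw [hb1]
      exact Ideal.mem_map_of_mem _ (hN a (by rw [ha]; exact hθN) (Ideal.mem_map_of_mem _ hy))
    have hz := mixed_fibre_rad hW' hF' hS' P' (psat_rad (Ideal.radical_isRadical _)) (by
      intro h
      rw [Ideal.eq_top_iff_one] at h
      obtain ⟨c, n, hn⟩ := h
      rw [mul_one, ← pow_mul, ← map_natCast (MvPowerSeries.map (σ := Fin m) φ),
        ← map_pow] at hn
      exact hp (hP ⟨_, mem_of_map hl hl1 hn⟩)) N hst
    have hz' : P' = ⊥ := by
      refine hz.resolve_right ?_
      rintro ⟨j, _, hj⟩
      have h1 : (p : MvPowerSeries (Fin m) (WittVector p (AlgebraicClosure k))) ∈ P' := by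
        rw [hj]
        exact Ideal.subset_span (Or.inl rfl)
      obtain ⟨c, n, hn⟩ := h1
      rw [← pow_succ, ← pow_mul, ← map_natCast (MvPowerSeries.map (σ := Fin m) φ),
        ← map_pow] at hn
      exact hp (hP ⟨_, mem_of_map hl hl1 hn⟩)
    rw [eq_bot_iff]
    intro x hx
    have h1 : MvPowerSeries.map φ x ∈ P' :=
      le_psat p _ (Ideal.le_radical (Ideal.mem_map_of_mem _ hx))
    rw [hz', Submodule.mem_bot] at h1
    have h2 : MvPowerSeries.map φ x ∈
        (⊥ : Ideal (MvPowerSeries (Fin m) (WittVector p k))).map
          (MvPowerSeries.map (σ := Fin m) φ) := by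
      rw [h1]
      exact zero_mem _
    exact mem_of_map hl hl1 h2

/-- Chai's Hope for radical ideals and every perfect field over which all automorphisms are
defined -/
theorem chaiHope_rad (p : ℕ) [Fact p.Prime] {m : ℕ} {k : Type*} [Field k] [CharP k p]
    [PerfectRing k p] {F : FormalGroup (MvPowerSeries (Fin m) (WittVector p k))}
    (hF : IsUnivW WittVector.constantCoeff p m F)
    (hA : AutDef (spc WittVector.constantCoeff F)) :
    (∀ θ : k⟦X⟧, IsHom (spc WittVector.constantCoeff F) (spc WittVector.constantCoeff F) θ →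
      IsUnit (coeff 1 θ) → ∃! a : Lift (WittVector p k) F,
        PowerSeries.map (resd WittVector.constantCoeff m) a.f = θ) ∧
    ∀ P : Ideal (MvPowerSeries (Fin m) (WittVector p k)), P.IsRadical → P ≠ ⊤ →
      ((∃ N : ℕ, ∀ a : Lift (WittVector p k) F,
        (X : k⟦X⟧) ^ N ∣ PowerSeries.map (resd WittVector.constantCoeff m) a.f - X →
          P.map (a.g : MvPowerSeries (Fin m) (WittVector p k) →+*
            MvPowerSeries (Fin m) (WittVector p k)) ≤ P) ↔
        P = ⊥ ∨ ∃ j, j ≤ m ∧ P = IwW p F j) := by
  have hW := isWitt_wittVector p (m + 1) k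
  have hac := ac_witt p k
  refine ⟨fun θ hθ hu => ?_, fun P hP hPt => ⟨?_, ?_⟩⟩
  · obtain ⟨a, ha⟩ := lift_existsW hW hF hθ hu
    exact ⟨a, ha, fun b hb => lift_uniqueW hW hF (by
      change PowerSeries.map (resd WittVector.constantCoeff m) b.f = θ at hb
      rw [hb, ha])⟩
  · rintro ⟨N, hN⟩
    exact witt_rad p hF hA P hP hPt N hN
  · rintro (rfl | ⟨j, hj, rfl⟩)
    · refine ⟨0, fun a _ => ?_⟩
      rw [Ideal.map_bot]
    · exact ⟨0, fun a _ => IwW_stable hW hF a hj⟩

end Pool.Agent.H13.CA
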