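import Pool.Agent.H13.CA.Grp

/-!
# Chai's Hope for all heights (closed fibre): common definitions of the chapters

Everything lives over power series rings over fields.  `n = m + 1`, `R_n = MvPowerSeries (Fin m) k`.
-/

open MvPowerSeries

namespace Pool.Agent.H13.CA

/-- the iterates `f ∘ .. ∘ f` -/
noncomputable def iter {R : Type*} [CommRing R] (f : PowerSeries R) : ℕ → PowerSeries R
  | 0 => PowerSeries.X
  | n + 1 => PowerSeries.subst (iter f n) f

/-- a subgroup `U` of the group of liftings is ample if for some `N ≥ 1` the `N`-th iterate of every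
automorphism of the special fibre is the reduction of an element of `U` -/
def Ample {k : Type*} [Field k] {m : ℕ} {F : FormalGroup (MvPowerSeries (Fin m) k)}
    (U : Subgroup (Lift k F)) : Prop :=
  ∃ N, 1 ≤ N ∧ ∀ θ : PowerSeries k, IsHom (special F) (special F) θ →
    IsUnit (PowerSeries.coeff 1 θ) → ∃ a ∈ U, red a.f = iter θ N

/-- old name of `Ample` -/
abbrev BigSub {k : Type*} [Field k] {m : ℕ} {F : FormalGroup (MvPowerSeries (Fin m) k)}
    (U : Subgroup (Lift k F)) : Prop := Ample U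

/-- Chai's Hope for height `m + 1`. -/
def ChaiA (k : Type*) [Field k] (p m : ℕ) : Prop :=
  ∀ F : FormalGroup (MvPowerSeries (Fin m) k), IsLT k p m F →
    ∀ P : Ideal (MvPowerSeries (Fin m) k), P.IsPrime →
      ∀ U : Subgroup (Lift k F), Ample U →
        (∀ a ∈ U, P.map (a.g : MvPowerSeries (Fin m) k →+* MvPowerSeries (Fin m) k) ≤ P) →
          ∃ j, j ≤ m ∧ P = Istd k m j

/-- old name of `ChaiA` -/
abbrev ChaiAt (k : Type*) [Field k] (p m : ℕ) : Prop := ChaiA k p m

/-- the projection `k⟦u_1, .., u_(s+1)⟧ → k⟦u⟧`, `u_i ↦ 0` for `i ≤ s`, `u_(s+1) ↦ u` -/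
structure IsProj (k : Type*) [Field k] (s : ℕ)
    (π : MvPowerSeries (Fin (s + 1)) k →ₐ[k] PowerSeries k) : Prop where
  low : ∀ i : Fin s, π (X i.castSucc) = 0
  high : π (X (Fin.last s)) = PowerSeries.X
  ker : ∀ f, π f = 0 ↔ f ∈ Istd k (s + 1) s
  surj : Function.Surjective π

/-- the inclusion `k⟦u_1, .., u_(s+1)⟧ = k⟦u⟧⟦u_1, .., u_s⟧ → L⟦u_1, .., u_s⟧`, `k⟦u⟧ ⊆ L`, and its
contraction property -/
structure IsBig (k : Type*) [Field k] (s : ℕ)
    (π : MvPowerSeries (Fin (s + 1)) k →ₐ[k] PowerSeries k) (L : Type*) [Field L]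
    [Algebra k L] [Algebra (PowerSeries k) L]
    (ι : MvPowerSeries (Fin (s + 1)) k →ₐ[k] MvPowerSeries (Fin s) L) : Prop where
  low : ∀ i : Fin s, ι (X i.castSucc) = X i
  res : ∀ f, constantCoeff (ι f) = algebraMap (PowerSeries k) L (π f)
  sec : ∃ sec : PowerSeries k →ₐ[k] MvPowerSeries (Fin (s + 1)) k,
    (∀ a, π (sec a) = a) ∧ ∀ a, ι (sec a) = C (algebraMap (PowerSeries k) L a)
  contr : ∀ P : Ideal (MvPowerSeries (Fin (s + 1)) k), P.IsPrime → P ≤ Istd k (s + 1) s →
    (P.map (ι : MvPowerSeries (Fin (s + 1)) k →+* MvPowerSeries (Fin s) L)).comap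
      (ι : MvPowerSeries (Fin (s + 1)) k →+* MvPowerSeries (Fin s) L) = P

end Pool.Agent.H13.CA
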