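import Pool.Agent.H13.CA.Com
import Pool.Agent.H84.CA.Big
import Pool.Agent.H77.CA.Pow

/-!
# CHAPTER BIG (architect helper77): `R_n → L⟦u_1, .., u_s⟧`

Contraction: `x ∈ P L⟦u⟧ ∩ R_n` gives for every `N` an `a ∈ k⟦u⟧ \ 0` with `a x ∈ P + Q ^ N`
(`L` over `k((u))` is faithfully flat), then Krull's intersection theorem in the noetherian local
domain `(R_n / P)_Q`, `Q = Istd k (s + 1) s`.
-/

open MvPowerSeries

namespace Pool.Agent.H13.CA

theorem big_proj (k : Type*) [Field k] (s : ℕ) :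
    ∃ π : MvPowerSeries (Fin (s + 1)) k →ₐ[k] PowerSeries k, IsProj k s π :=
  Pool.Agent.H84.CA.big_proj' k s

theorem big {k : Type*} [Field k] {s : ℕ}
    {π : MvPowerSeries (Fin (s + 1)) k →ₐ[k] PowerSeries k} (hπ : IsProj k s π)
    (L : Type*) [Field L] [Algebra k L] [Algebra (PowerSeries k) L]
    [IsScalarTower k (PowerSeries k) L]
    (hinj : Function.Injective (algebraMap (PowerSeries k) L)) :
    ∃ ι : MvPowerSeries (Fin (s + 1)) k →ₐ[k] MvPowerSeries (Fin s) L, IsBig k s π L ι :=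
  Pool.Agent.H84.CA.big' hπ hinj

/-- the standard ideals are prime -/
theorem Istd_prime (k : Type*) [Field k] (m j : ℕ) : (Istd k m j).IsPrime :=
  Pool.Agent.H77.CA.Istd_prime k m j

theorem Istd_maximal (k : Type*) [Field k] (m : ℕ) : (Istd k m m).IsMaximal :=
  Pool.Agent.H77.CA.Istd_maximal k m

/-- two `k`-algebra homomorphisms `k⟦X_1, .., X_s⟧ → L⟦X_1, .., X_t⟧` with values of `X_i` in the
maximal ideal which agree on the variables are equal -/
theorem algHom_ext_mv {k L : Type*} [Field k] [Field L] [Algebra k L] {s t : ℕ}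
    {c c' : MvPowerSeries (Fin s) k →ₐ[k] MvPowerSeries (Fin t) L}
    (hc : ∀ i, constantCoeff (c (X i)) = 0) (h : ∀ i, c (X i) = c' (X i)) : c = c' :=
  Pool.Agent.H84.CA.algHom_ext_mv' hc h

/-- existence of such homomorphisms -/
theorem algHom_exists_mv {k L : Type*} [Field k] [Field L] [Algebra k L] {s t : ℕ}
    (w : Fin s → MvPowerSeries (Fin t) L) (hw : ∀ i, constantCoeff (w i) = 0) :
    ∃ c : MvPowerSeries (Fin s) k →ₐ[k] MvPowerSeries (Fin t) L, ∀ i, c (X i) = w i :=
  Pool.Agent.H84.CA.algHom_exists_mv' w hw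

end Pool.Agent.H13.CA
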