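import Pool.Agent.H13.CA.Com
import Pool.Agent.H61.CA.Dsc

/-!
# CHAPTER DESC: invariants and descent of stable ideals (proofs in H61/CA/Dsc.lean)

`w i = c (X i)` generate the maximal ideal of `L⟦X_1, .., X_s⟧`, every `α ∈ 𝒢` fixes the `w i` and acts
on the residue field `L` with invariants `k`.
`desc_inv`: an element fixed by `𝒢` is in the image of `c` (its leading form in the `w i` has
coefficients in `k`, subtract, limit).  `desc`: leading forms of elements of `J` form a `𝒢`-stable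
subspace of `L[w]_d`, so it is spanned by vectors over `k` (reduced echelon form); correct the next
coefficient modulo leading forms, limit (`J` is closed).
-/

open MvPowerSeries

namespace Pool.Agent.H13.CA

variable {k L : Type*} [Field k] [Field L] [Algebra k L] {s : ℕ}
    {c : MvPowerSeries (Fin s) k →ₐ[k] MvPowerSeries (Fin s) L}

theorem desc_inj (hc0 : ∀ i, constantCoeff (c (X i)) = 0)
    (hc : Ideal.span (Set.range fun i => c (X i)) = Ideal.span (Set.range X)) :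
    Function.Injective c :=
  Pool.Agent.H61.CA.desc_inj' hc0 hc

theorem desc_inv (hc0 : ∀ i, constantCoeff (c (X i)) = 0)
    (hc : Ideal.span (Set.range fun i => c (X i)) = Ideal.span (Set.range X))
    (𝒢 : Set (MvPowerSeries (Fin s) L ≃ₐ[k] MvPowerSeries (Fin s) L))
    (hinv : ∀ α ∈ 𝒢, ∀ f, α (c f) = c f)
    (hres : ∀ α ∈ 𝒢, ∃ τ : L ≃ₐ[k] L, ∀ x, constantCoeff (α x) = τ (constantCoeff x))
    (hfix : ∀ x : L, (∀ α ∈ 𝒢, constantCoeff (α (C x)) = x) → ∃ a : k, algebraMap k L a = x)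
    (x : MvPowerSeries (Fin s) L) (hx : ∀ α ∈ 𝒢, α x = x) : ∃ y, c y = x :=
  Pool.Agent.H61.CA.desc_inv' hc0 hc 𝒢 hinv hres hfix x hx

theorem desc (hc0 : ∀ i, constantCoeff (c (X i)) = 0)
    (hc : Ideal.span (Set.range fun i => c (X i)) = Ideal.span (Set.range X))
    (𝒢 : Set (MvPowerSeries (Fin s) L ≃ₐ[k] MvPowerSeries (Fin s) L))
    (hinv : ∀ α ∈ 𝒢, ∀ f, α (c f) = c f)
    (hres : ∀ α ∈ 𝒢, ∃ τ : L ≃ₐ[k] L, ∀ x, constantCoeff (α x) = τ (constantCoeff x))
    (hfix : ∀ x : L, (∀ α ∈ 𝒢, constantCoeff (α (C x)) = x) → ∃ a : k, algebraMap k L a = x)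
    (J : Ideal (MvPowerSeries (Fin s) L))
    (hJ : ∀ α ∈ 𝒢, ∀ x ∈ J, α x ∈ J) :
    (J.comap (c : MvPowerSeries (Fin s) k →+* MvPowerSeries (Fin s) L)).map
      (c : MvPowerSeries (Fin s) k →+* MvPowerSeries (Fin s) L) = J :=
  Pool.Agent.H61.CA.desc' hc0 hc 𝒢 hinv hres hfix J hJ

end Pool.Agent.H13.CA
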