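import Pool.Agent.H13.CA.Com
import Pool.Agent.H84.CA.Hens

/-!
# CHAPTER HENS (architect helper84): unique extension of automorphisms to `L⟦u_1, .., u_s⟧`,
`L` separable algebraic over `K = k((u))` (formally etale lifting)
-/

open MvPowerSeries

namespace Pool.Agent.H13.CA

theorem hens {k : Type*} [Field k] {s : ℕ}
    {π : MvPowerSeries (Fin (s + 1)) k →ₐ[k] PowerSeries k} (hπ : IsProj k s π)
    {K L : Type*} [Field K] [Field L] [Algebra k K] [Algebra k L]
    [Algebra (PowerSeries k) K] [IsFractionRing (PowerSeries k) K]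
    [Algebra K L] [Algebra (PowerSeries k) L]
    [IsScalarTower k (PowerSeries k) K] [IsScalarTower k K L]
    [IsScalarTower (PowerSeries k) K L] [Algebra.IsSeparable K L]
    {ι : MvPowerSeries (Fin (s + 1)) k →ₐ[k] MvPowerSeries (Fin s) L} (hι : IsBig k s π L ι)
    (g : MvPowerSeries (Fin (s + 1)) k ≃ₐ[k] MvPowerSeries (Fin (s + 1)) k)
    (hg : (Istd k (s + 1) s).map (g : MvPowerSeries (Fin (s + 1)) k →+* _) = Istd k (s + 1) s)
    (τ : L ≃ₐ[k] L)
    (hτ : ∀ f, τ (algebraMap (PowerSeries k) L (π f)) =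
      algebraMap (PowerSeries k) L (π (g f))) :
    ∃ α : MvPowerSeries (Fin s) L ≃ₐ[k] MvPowerSeries (Fin s) L,
      (∀ f, α (ι f) = ι (g f)) ∧ ∀ x, constantCoeff (α x) = τ (constantCoeff x) :=
  Pool.Agent.H84.CA.hens' K hπ hι g τ hτ

end Pool.Agent.H13.CA
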