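import Pool.Agent.H13.CA.LAZ
import Pool.Agent.H74.MO.Main

/-!
# CHAPTER MON (architect helper44): full monodromy over `K = k((u))`

`F` over `k⟦u⟧`, `[p]_F = W (x ^ q)`, `q = p ^ h`, `W = u y + .. + (unit) y ^ p + ..`, `[p]_Γ = x ^ q`.
`β (W y) = β^(q) y`, `β_1 ^ (q - 1) = u`, `v (β_(p^j)) = 1 / (q^j (q - 1))` (Newton polygon), so the
Galois orbit of `β mod x ^ (p^j + 1)` has `≥ (q - 1) q^j` elements = number of automorphisms of `Γ`
mod `x ^ (p^j + 1)`; compactness of the Galois group.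
-/

open MvPowerSeries

namespace Pool.Agent.H13.CA

theorem mon {k : Type*} [Field k] [IsAlgClosed k] (p : ℕ) [Fact p.Prime] [CharP k p] {h : ℕ}
    (hh : 1 ≤ h) {F : FormalGroup (PowerSeries k)} (hF : F.IsComm)
    (h1 : ∀ i, i < p ^ h → PowerSeries.coeff i (mulSer F p) = 0)
    (h2 : PowerSeries.coeff (p ^ h) (mulSer F p) = PowerSeries.X)
    (h3 : ∀ i, i < p ^ (h + 1) → (PowerSeries.X : PowerSeries k) ∣
      PowerSeries.coeff i (mulSer F p))
    (h4 : IsUnit (PowerSeries.coeff (p ^ (h + 1)) (mulSer F p)))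
    {K L : Type*} [Field K] [Field L] [Algebra k K] [Algebra k L]
    [Algebra (PowerSeries k) K] [IsFractionRing (PowerSeries k) K]
    [Algebra K L] [Algebra (PowerSeries k) L]
    [IsScalarTower k (PowerSeries k) K] [IsScalarTower k K L]
    [IsScalarTower (PowerSeries k) K L] [IsSepClosure K L]
    {Γ : FormalGroup k} (hΓ : Γ.IsComm) (hΓ' : mulSer Γ p = PowerSeries.X ^ p ^ h)
    {β : PowerSeries L}
    (hβ : IsHom (F.map (algebraMap (PowerSeries k) L)) (Γ.map (algebraMap k L)) β)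
    (hu : IsUnit (PowerSeries.coeff 1 β)) {θ : PowerSeries k} (hθ : IsHom Γ Γ θ)
    (hu' : IsUnit (PowerSeries.coeff 1 θ)) :
    ∃ σ : L ≃ₐ[K] L, PowerSeries.map (σ : L →+* L) β =
      PowerSeries.subst β (PowerSeries.map (algebraMap k L) θ) :=
  H74.MO.mon p hh hF h1 h2 h3 h4 hΓ' hβ hu hθ hu'

end Pool.Agent.H13.CA
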