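import Pool.Agent.H13.CA.Inv
import Pool.Agent.H13.CA.Desc
import Pool.Agent.H13.CA.Hens
import Pool.Agent.H13.CA.Mon
import Pool.Agent.H61.CA.C10

/-!
# CHAPTER CORE (architect helper61): stable primes inside `I_(n-1)`, `n = s + 2`

`O = L⟦u_1, .., u_s⟧`, `G = F.map ι`, `β : special G → Γ`, `Γ` over `k` with `[p] = x ^ q`, `q = p^(s+1)`
(`laz_form`); `B : G → G'` with `G'` in normal form, `red B = β` (lift `β`, then `nf_exists`).
`𝒢` = all `α = hens (a.g, τ)`, `a ∈ V`, `τ(β) ∘ (f_a mod) = β` (exists for every `a` by `mon`,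
`hom_const`).  `α G' = G'` (`nf_unique`, `nf_map`).  `L^𝒢 = k` (`inv_const`, minimal polynomials).
`w j` = coefficient of `x ^ (p^j)` in `[p]_(G')`; `(w_1, .., w_j) = (u_1, .., u_j)`; `c : X_j ↦ w_j`;
`G' = c_* F'` (`desc_inv`), `IsLT k p s F'`.  `Q₀ = c⁻¹ (P O)` is stable under every `Lift k F'`
(`mon`, `hens (1, σ)`, `nf_unique`).  `ChaiA k p s` for the minimal primes of `Q₀`: `rad Q₀ = I_j`.
`desc`: `P O = c (Q₀) O`.  Contract: `P = I_j`.
-/

open MvPowerSeries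

namespace Pool.Agent.H13.CA

theorem core {k : Type*} [Field k] [IsAlgClosed k] (p : ℕ) [Fact p.Prime] [CharP k p]
    {s : ℕ} {F : FormalGroup (MvPowerSeries (Fin (s + 1)) k)}
    (hF : IsLT k p (s + 1) F) (hs : ChaiA k p s)
    (P : Ideal (MvPowerSeries (Fin (s + 1)) k)) (hP : P.IsPrime) (hle : P ≤ Istd k (s + 1) s)
    (V : Subgroup (Lift k F)) (hV : Ample V)
    (hst : ∀ a ∈ V, P.map (a.g : MvPowerSeries (Fin (s + 1)) k →+* _) ≤ P) :
    ∃ j, j ≤ s + 1 ∧ P = Istd k (s + 1) j :=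
  Pool.Agent.H61.CA.core' p hF hs P hP hle V hV hst

end Pool.Agent.H13.CA
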