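import Pool.Agent.H13.CA.Com
import Pool.Agent.H74.LA.Form
import Pool.Agent.H74.LA.Iso

/-!
# CHAPTER LAZ (architect helper74): Lazard's classification over separably closed fields

(helper6 has the cocycle lemma `lazard`.)  Hint: normalise `[p] = x ^ q` first (solve
`β (W y) = β^(q) y`); if `G ≡ H mod degree d` and `[p]_G = [p]_H`, the difference `a C_d` has `a = 0`
for `d` a power of `p` (coefficient of `x ^ d` in `[p]`), otherwise it is a coboundary.
-/

open MvPowerSeries

namespace Pool.Agent.H13.CA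

variable {L : Type*} [Field L] (p : ℕ) [Fact p.Prime] [CharP L p]

/-- Lazard, with prescribed linear coefficient `b`. -/
theorem lazard_iso [IsSepClosed L] {h : ℕ} (hh : 1 ≤ h) {G H : FormalGroup L} (hG : G.IsComm)
    (hH : H.IsComm) (hG' : HasHeight p h G) (hH' : HasHeight p h H) {b : L} (hb : b ≠ 0)
    (hb' : b * PowerSeries.coeff (p ^ h) (mulSer G p) =
      PowerSeries.coeff (p ^ h) (mulSer H p) * b ^ p ^ h) :
    ∃ β : PowerSeries L, IsHom G H β ∧ PowerSeries.coeff 1 β = b :=
  H74.LA.lazard_iso p hh hG hH hG' hH' hb hb'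

/-- a form over `k` with `[p] = x ^ q` -/
theorem laz_form [IsSepClosed L] {k : Type*} [Field k] [IsAlgClosed k] [CharP k p] [Algebra k L]
    {h : ℕ} (hh : 1 ≤ h) {G : FormalGroup L} (hG : G.IsComm) (hG' : HasHeight p h G) :
    ∃ (Γ : FormalGroup k) (β : PowerSeries L), Γ.IsComm ∧ mulSer Γ p = PowerSeries.X ^ p ^ h ∧
      IsHom G (Γ.map (algebraMap k L)) β ∧ IsUnit (PowerSeries.coeff 1 β) :=
  H74.LA.laz_form p hh hG hG'

/-- homomorphisms over `L` between groups over `k` with `[p] = x ^ q` are defined over `k`, with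
coefficients `a ^ q = a` -/
theorem hom_const {k : Type*} [Field k] [IsAlgClosed k] [CharP k p] [Algebra k L] {h : ℕ}
    (hh : 1 ≤ h) {G H : FormalGroup k} (hG' : mulSer G p = PowerSeries.X ^ p ^ h)
    (hH' : mulSer H p = PowerSeries.X ^ p ^ h) {θ : PowerSeries L}
    (hθ : IsHom (G.map (algebraMap k L)) (H.map (algebraMap k L)) θ) :
    ∃ θ₀ : PowerSeries k, IsHom G H θ₀ ∧ PowerSeries.map (algebraMap k L) θ₀ = θ ∧
      ∀ i, PowerSeries.coeff i θ₀ ^ p ^ h = PowerSeries.coeff i θ₀ :=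
  H74.LA.hom_const p hh hG' hH' hθ

end Pool.Agent.H13.CA
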