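import Pool.Agent.H13.CA.NF
import Pool.Agent.H2.CC.Ntv
import Pool.Agent.H13.CA.LAZ
import Pool.Agent.H13.CA.Big

/-!
# CHAPTER CURVE (architect helper22; growth / START: helper32, helper85; NORM: helper29;
RAM: helper2, theorem `ramR`)
-/

open MvPowerSeries

namespace Pool.Agent.H13.CA

/-- stable primes of coheight one -/
theorem curve {k : Type*} [Field k] [IsAlgClosed k] (p : ℕ) [Fact p.Prime] [CharP k p]
    {m : ℕ} {F : FormalGroup (MvPowerSeries (Fin m) k)} (hF : IsLT k p m F)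
    (P : Ideal (MvPowerSeries (Fin m) k)) (hP : P.IsPrime)
    (h1 : ∀ P' : Ideal (MvPowerSeries (Fin m) k), P'.IsPrime → P < P' → P' = Istd k m m)
    (V : Subgroup (Lift k F)) (hV : Ample V)
    (hst : ∀ a ∈ V, P.map (a.g : MvPowerSeries (Fin m) k →+* MvPowerSeries (Fin m) k) ≤ P) :
    ∃ j, j ≤ m ∧ P = Istd k m j :=
  Pool.Agent.H2.CC.curve_main p hF P hP h1 V hV hst

/-- no big subgroup acts trivially on `R_n / I_(n-1) = k⟦u_(n-1)⟧` -/
theorem nontriv {k : Type*} [Field k] [IsAlgClosed k] (p : ℕ) [Fact p.Prime] [CharP k p]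
    {s : ℕ} {F : FormalGroup (MvPowerSeries (Fin (s + 1)) k)} (hF : IsLT k p (s + 1) F)
    {π : MvPowerSeries (Fin (s + 1)) k →ₐ[k] PowerSeries k} (hπ : IsProj k s π)
    (V : Subgroup (Lift k F)) (hV : Ample V) :
    ∃ a ∈ V, ∃ x, π (a.g x) ≠ π x :=
  Pool.Agent.H2.CC.nontriv_main p hF hπ V hV

end Pool.Agent.H13.CA
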