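import Mathlib

/-!
# Chai's Hope for all heights: definitions

`R_n = k⟦u_1, .., u_m⟧`, `n = m + 1`; the variable `X i` (`i : Fin m`) is `u_(i+1)`.
-/

namespace Pool.Agent.H13.CA

variable {R : Type*} [CommRing R]

/-- `f : F → G` is a homomorphism of one-dimensional formal group laws:
`f (F (x, y)) = G (f x, f y)`, `f 0 = 0`. -/
def IsHom (F G : FormalGroup R) (f : PowerSeries R) : Prop :=
  PowerSeries.constantCoeff f = 0 ∧
    PowerSeries.subst F.toPowerSeries f =
      MvPowerSeries.subst ![PowerSeries.subst (MvPowerSeries.X 0 : MvPowerSeries (Fin 2) R) f,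
        PowerSeries.subst (MvPowerSeries.X 1 : MvPowerSeries (Fin 2) R) f] G.toPowerSeries

/-- The series `[n]_F (x)`: `[0]_F = 0`, `[n + 1]_F = F ([n]_F, x)`. -/
noncomputable def mulSer (F : FormalGroup R) : ℕ → PowerSeries R
  | 0 => 0
  | n + 1 => MvPowerSeries.subst ![mulSer F n, (PowerSeries.X : PowerSeries R)] F.toPowerSeries

/-- The height of a formal group law over a field of characteristic `p` (in terms of
`[p]_F = c x ^ (p ^ h) + ..`, `c` a unit). -/
def HasHeight (p h : ℕ) (F : FormalGroup R) : Prop :=
  (∀ i, i < p ^ h → PowerSeries.coeff i (mulSer F p) = 0) ∧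
    IsUnit (PowerSeries.coeff (p ^ h) (mulSer F p))

/-- The ideal `I_(j+1) = (u_1, .., u_j)` of `k⟦u_1, .., u_m⟧`. -/
noncomputable def Istd (k : Type*) [Field k] (m j : ℕ) : Ideal (MvPowerSeries (Fin m) k) :=
  Ideal.span {x | ∃ i : Fin m, i.val < j ∧ x = MvPowerSeries.X i}

/-- `F` over `k⟦u_1, .., u_m⟧` is a universal (equal characteristic) deformation of its special
fibre, a formal group law of height `m + 1`, and the `u_j` are its Hazewinkel type coordinates:
`[p]_F = u_j x ^ (p ^ j) + ..  mod (u_1, .., u_(j-1))` for `1 ≤ j ≤ m`, and the special fibre has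
height `m + 1`. -/
structure IsLT (k : Type*) [Field k] (p m : ℕ) (F : FormalGroup (MvPowerSeries (Fin m) k)) :
    Prop where
  comm : F.IsComm
  low : ∀ j, j ≤ m → ∀ i, i < p ^ (j + 1) → PowerSeries.coeff i (mulSer F p) ∈ Istd k m j
  mid : ∀ j : Fin m, PowerSeries.coeff (p ^ (j.val + 1)) (mulSer F p) - MvPowerSeries.X j ∈
    Istd k m j.val
  top : IsUnit (PowerSeries.coeff (p ^ (m + 1)) (mulSer F p))

/-- The special fibre of a formal group law over a power series ring. -/
noncomputable def special {L : Type*} [Field L] {σ : Type*} (G : FormalGroup (MvPowerSeries σ L)) :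
    FormalGroup L :=
  G.map (MvPowerSeries.constantCoeff (σ := σ) (R := L))

/-- Reduction of the coefficients of a series over a power series ring. -/
noncomputable def red {L : Type*} [Field L] {σ : Type*} (f : PowerSeries (MvPowerSeries σ L)) :
    PowerSeries L :=
  PowerSeries.map (MvPowerSeries.constantCoeff (σ := σ) (R := L)) f

/-- A pair `(g, f)`: an automorphism `g` of the `k`-algebra `A` and an isomorphism
`f : F → g_* F` of formal group laws, with its inverse `f'`. -/
structure Lift (k : Type*) [CommRing k] {A : Type*} [CommRing A] [Algebra k A]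
    (F : FormalGroup A) where
  g : A ≃ₐ[k] A
  f : PowerSeries A
  f' : PowerSeries A
  hom : IsHom F (F.map (g : A →+* A)) f
  zero' : PowerSeries.constantCoeff f' = 0
  left : PowerSeries.subst f f' = (PowerSeries.X : PowerSeries A)
  right : PowerSeries.subst f' f = (PowerSeries.X : PowerSeries A)

end Pool.Agent.H13.CA
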