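import Pool.Agent.H13.CA.Fin
import Pool.Agent.H84.CA.Ac
import Pool.Agent.H77.CA.Pow
import Pool.Agent.H49.CA.Minp
import Pool.Agent.H61.CA.Std

/-!
# Descent of the ground field

`k ⊆ k'`, `ι : k⟦X⟧ → k'⟦X⟧`, `P` an ideal of `k⟦X⟧`.  The ideal `bc P` of all `y` with `l y ∈ P` for all
`k`-linear `l : k' → k` (coefficientwise) contracts to `P`, and it is stable under the base change of
every automorphism which preserves `P`.
-/

open MvPowerSeries

namespace Pool.Agent.H13.CA

section lam

variable {k k' : Type*} [Field k] [Field k'] [Algebra k k'] {σ : Type*}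

/-- apply a linear functional to the coefficients -/
def lam (l : k' →ₗ[k] k) (y : MvPowerSeries σ k') : MvPowerSeries σ k := fun d => l (coeff d y)

theorem coeff_lam (l : k' →ₗ[k] k) (y : MvPowerSeries σ k') (d : σ →₀ ℕ) :
    coeff d (lam l y) = l (coeff d y) := rfl

theorem lam_add (l : k' →ₗ[k] k) (x y : MvPowerSeries σ k') :
    lam l (x + y) = lam l x + lam l y := by
  ext d
  rw [coeff_lam, map_add, map_add, map_add, coeff_lam, coeff_lam]

theorem lam_zero (l : k' →ₗ[k] k) : lam l (0 : MvPowerSeries σ k') = 0 := by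
  ext d
  rw [coeff_lam, map_zero, map_zero, map_zero]

theorem lam_sub (l : k' →ₗ[k] k) (x y : MvPowerSeries σ k') :
    lam l (x - y) = lam l x - lam l y := by
  ext d
  rw [coeff_lam, map_sub, map_sub, map_sub, coeff_lam, coeff_lam]

theorem lam_sum {ι : Type*} (l : k' →ₗ[k] k) (s : Finset ι) (f : ι → MvPowerSeries σ k') :
    lam l (∑ i ∈ s, f i) = ∑ i ∈ s, lam l (f i) := by
  ext d
  rw [coeff_lam, map_sum, map_sum, map_sum]
  rfl

/-- `ι` -/
noncomputable abbrev bci (k k' : Type*) [Field k] [Field k'] [Algebra k k'] (σ : Type*) :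
    MvPowerSeries σ k →+* MvPowerSeries σ k' := MvPowerSeries.map (algebraMap k k')

theorem lam_map_mul (l : k' →ₗ[k] k) (x : MvPowerSeries σ k) (y : MvPowerSeries σ k') :
    lam l (bci k k' σ x * y) = x * lam l y := by
  classical
  ext d
  rw [coeff_lam, coeff_mul, coeff_mul, map_sum]
  refine Finset.sum_congr rfl fun i _ => ?_
  rw [coeff_lam, MvPowerSeries.coeff_map, ← Algebra.smul_def, map_smul, smul_eq_mul]

theorem lam_C_mul (l : k' →ₗ[k] k) (c : k') (y : MvPowerSeries σ k') :
    lam l (C c * y) = lam (l ∘ₗ (LinearMap.mulLeft k c)) y := by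
  ext d
  rw [coeff_lam, coeff_lam, coeff_C_mul]
  rfl

theorem lam_C_mul_map (l : k' →ₗ[k] k) (c : k') (x : MvPowerSeries σ k) :
    lam l (C c * bci k k' σ x) = C (l c) * x := by
  ext d
  rw [coeff_lam, coeff_C_mul, MvPowerSeries.coeff_map, coeff_C_mul, mul_comm, ← Algebra.smul_def,
    map_smul, smul_eq_mul, mul_comm]

theorem lam_oI (l : k' →ₗ[k] k) {N : ℕ} {y : MvPowerSeries σ k'}
    (hy : y ∈ Pool.Agent.H84.CA.oI σ k' N) : lam l y ∈ Pool.Agent.H84.CA.oI σ k N := by
  intro d hd
  rw [coeff_lam, hy d hd, map_zero]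

/-- finite decomposition modulo series of order `≥ N` -/
theorem exists_dec [Finite σ] {τ : Type*} (B : Module.Basis τ k k') (y : MvPowerSeries σ k')
    (N : ℕ) : ∃ T : Finset τ, y - ∑ t ∈ T, C (B t) * bci k k' σ (lam (B.coord t) y) ∈
      Pool.Agent.H84.CA.oI σ k' N := by
  classical
  have := Fintype.ofFinite σ
  refine ⟨(truncTotal N y : MvPolynomial σ k').support.biUnion
    fun d => (B.repr (coeff d y)).support, ?_⟩
  intro d hd
  rw [map_sub, map_sum, sub_eq_zero]
  have h1 : ∀ t, coeff d (C (B t) * bci k k' σ (lam (B.coord t) y)) =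
      B.repr (coeff d y) t • B t := by
    intro t
    rw [coeff_C_mul, MvPowerSeries.coeff_map, coeff_lam, mul_comm, ← Algebra.smul_def]
    rfl
  simp only [h1]
  conv_lhs => rw [← B.linearCombination_repr (coeff d y)]
  rw [Finsupp.linearCombination_apply, Finsupp.sum]
  by_cases hc : coeff d y = 0
  · rw [hc]
    simp
  refine Finset.sum_subset ?_ ?_
  · intro t ht
    rw [Finset.mem_biUnion]
    refine ⟨d, ?_, ht⟩
    rw [MvPolynomial.mem_support_iff, coeff_truncTotal _ hd]
    exact hc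
  · intro t _ ht
    rw [Finsupp.notMem_support_iff.1 ht, zero_smul]

end lam

section closed

variable {k : Type*} [Field k] {σ : Type*} [Finite σ]

/-- ideals of `k⟦X⟧` are closed -/
theorem mem_of_closed (P : Ideal (MvPowerSeries σ k)) (x : MvPowerSeries σ k)
    (h : ∀ N, ∃ z ∈ P, x - z ∈ Pool.Agent.H84.CA.oI σ k N) : x ∈ P := by
  have hne : (Pool.Agent.H84.CA.vI σ k) ≠ ⊤ := by
    intro h0
    have h1 : (1 : MvPowerSeries σ k) ∈ Pool.Agent.H84.CA.vI σ k := by rw [h0]; trivial
    rw [Pool.Agent.H84.CA.vI_eq_ker, RingHom.mem_ker, map_one] at h1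
    exact one_ne_zero h1
  have h1 := Ideal.iInf_pow_smul_eq_bot_of_isLocalRing (R := MvPowerSeries σ k)
    (M := MvPowerSeries σ k ⧸ P) (Pool.Agent.H84.CA.vI σ k) hne
  have h2 : Ideal.Quotient.mk P x ∈ (⨅ i : ℕ, (Pool.Agent.H84.CA.vI σ k) ^ i •
      (⊤ : Submodule (MvPowerSeries σ k) (MvPowerSeries σ k ⧸ P))) := by
    rw [Submodule.mem_iInf]
    intro N
    obtain ⟨z, hz, hxz⟩ := h N
    have h3 : Ideal.Quotient.mk P x = (x - z) • (Ideal.Quotient.mk P 1) := by
      change _ = Ideal.Quotient.mk P ((x - z) * 1)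
      rw [mul_one, map_sub, Ideal.Quotient.eq_zero_iff_mem.2 hz, sub_zero]
    rw [h3]
    refine Submodule.smul_mem_smul ?_ trivial
    rw [Pool.Agent.H84.CA.vI_pow]
    exact hxz
  rw [h1, Submodule.mem_bot, Ideal.Quotient.eq_zero_iff_mem] at h2
  exact h2

end closed

section bc

variable {k k' : Type*} [Field k] [Field k'] [Algebra k k'] {σ : Type*} [Finite σ]

theorem lam_mul_mem {P : Ideal (MvPowerSeries σ k)} {y : MvPowerSeries σ k'}
    (hy : ∀ l : k' →ₗ[k] k, lam l y ∈ P) (r : MvPowerSeries σ k') (l : k' →ₗ[k] k) :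
    lam l (r * y) ∈ P := by
  classical
  refine mem_of_closed P _ fun N => ?_
  obtain ⟨T, hT⟩ := exists_dec (Module.Basis.ofVectorSpace k k') r N
  refine ⟨lam l ((∑ t ∈ T, C (Module.Basis.ofVectorSpace k k' t) *
    bci k k' σ (lam ((Module.Basis.ofVectorSpace k k').coord t) r)) * y), ?_, ?_⟩
  · rw [Finset.sum_mul, lam_sum]
    refine Ideal.sum_mem _ fun t _ => ?_
    rw [mul_assoc, lam_C_mul, lam_map_mul]
    exact Ideal.mul_mem_left _ _ (hy _)
  · rw [← lam_sub, ← sub_mul]
    apply lam_oI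
    have := Pool.Agent.H84.CA.oI_mul (a := N) (b := 0) hT
      (g := y) (fun d hd => absurd hd (Nat.not_lt_zero _))
    exact this

/-- the extension of an ideal -/
def bc (k' : Type*) [Field k'] [Algebra k k'] (P : Ideal (MvPowerSeries σ k)) :
    Ideal (MvPowerSeries σ k') where
  carrier := {y | ∀ l : k' →ₗ[k] k, lam l y ∈ P}
  add_mem' := by
    intro x y hx hy l
    rw [lam_add]
    exact add_mem (hx l) (hy l)
  zero_mem' := by
    intro l
    rw [lam_zero]
    exact zero_mem _
  smul_mem' := by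
    intro r y hy l
    exact lam_mul_mem hy r l

theorem mem_bc {P : Ideal (MvPowerSeries σ k)} {y : MvPowerSeries σ k'} :
    y ∈ bc k' P ↔ ∀ l : k' →ₗ[k] k, lam l y ∈ P := Iff.rfl

theorem exists_fun (k k' : Type*) [Field k] [Field k'] [Algebra k k'] :
    ∃ l : k' →ₗ[k] k, l 1 = 1 := by
  obtain ⟨l, hl⟩ := LinearMap.exists_leftInverse_of_injective (Algebra.linearMap k k')
    (LinearMap.ker_eq_bot.2 (algebraMap k k').injective)
  refine ⟨l, ?_⟩
  have := LinearMap.congr_fun hl 1
  simpa using this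

theorem map_mem_bc {P : Ideal (MvPowerSeries σ k)} {x : MvPowerSeries σ k} :
    bci k k' σ x ∈ bc k' P ↔ x ∈ P := by
  constructor
  · intro h
    obtain ⟨l, hl⟩ := exists_fun k k'
    have h1 := h l
    have h2 : lam l (bci k k' σ x) = x := by
      have := lam_C_mul_map l (1 : k') x
      rw [map_one, one_mul, hl, map_one, one_mul] at this
      exact this
    rwa [h2] at h1
  · intro h l
    have h2 : lam l (bci k k' σ x) = C (l 1) * x := by
      have := lam_C_mul_map l (1 : k') x
      rw [map_one, one_mul] at this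
      exact this
    rw [h2]
    exact Ideal.mul_mem_left _ _ h

theorem mul_mem_bc {P : Ideal (MvPowerSeries σ k)} (hP : P.IsPrime) {x : MvPowerSeries σ k}
    (hx : x ∉ P) {y : MvPowerSeries σ k'} (h : bci k k' σ x * y ∈ bc k' P) : y ∈ bc k' P := by
  intro l
  have h1 := h l
  rw [lam_map_mul] at h1
  exact (hP.mem_or_mem h1).resolve_left hx

/-- stability -/
theorem bc_stable {P : Ideal (MvPowerSeries σ k)} {g : MvPowerSeries σ k →+* MvPowerSeries σ k}
    (hg : P.map g ≤ P) {c : MvPowerSeries σ k' →+* MvPowerSeries σ k'}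
    (hc : ∀ x, c (bci k k' σ x) = bci k k' σ (g x)) (hC : ∀ a, c (C a) = C a)
    (hcont : ∀ N, ∀ y ∈ Pool.Agent.H84.CA.oI σ k' N, c y ∈ Pool.Agent.H84.CA.oI σ k' N) :
    (bc k' P).map c ≤ bc k' P := by
  classical
  rw [Ideal.map_le_iff_le_comap]
  intro y hy l
  refine mem_of_closed P _ fun N => ?_
  obtain ⟨T, hT⟩ := exists_dec (Module.Basis.ofVectorSpace k k') y N
  refine ⟨lam l (c (∑ t ∈ T, C (Module.Basis.ofVectorSpace k k' t) *
    bci k k' σ (lam ((Module.Basis.ofVectorSpace k k').coord t) y))), ?_, ?_⟩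
  · rw [map_sum, lam_sum]
    refine Ideal.sum_mem _ fun t _ => ?_
    rw [map_mul, hC, hc, lam_C_mul_map]
    exact Ideal.mul_mem_left _ _ (hg (Ideal.mem_map_of_mem _ (hy _)))
  · rw [← lam_sub, ← map_sub]
    exact lam_oI l (hcont N _ hT)

end bc

section lift

variable {k k' : Type*} [Field k] [Field k'] [Algebra k k'] {m : ℕ}

theorem cc_bci {σ : Type*} (x : MvPowerSeries σ k) :
    constantCoeff (bci k k' σ x) = algebraMap k k' (constantCoeff x) := by
  rw [← coeff_zero_eq_constantCoeff_apply, MvPowerSeries.coeff_map,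
    coeff_zero_eq_constantCoeff_apply]

/-- base change of automorphisms -/
theorem exists_bcAut (g : MvPowerSeries (Fin m) k ≃ₐ[k] MvPowerSeries (Fin m) k) :
    ∃ c : MvPowerSeries (Fin m) k' ≃ₐ[k'] MvPowerSeries (Fin m) k',
      ∀ x, c (bci k k' (Fin m) x) = bci k k' (Fin m) (g x) := by
  have key : ∀ g : MvPowerSeries (Fin m) k ≃ₐ[k] MvPowerSeries (Fin m) k,
      ∃ c : MvPowerSeries (Fin m) k' →ₐ[k'] MvPowerSeries (Fin m) k',
        ∀ x, c (bci k k' (Fin m) x) = bci k k' (Fin m) (g x) := by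
    intro g
    obtain ⟨c, hc⟩ := Pool.Agent.H77.CA.algHom_exists_mv (k := k') (L := k')
      (fun i => bci k k' (Fin m) (g (X i))) (fun i => by
        rw [cc_bci, cc_equiv, constantCoeff_X, map_zero])
    refine ⟨c, ?_⟩
    let i1 : MvPowerSeries (Fin m) k →ₐ[k] MvPowerSeries (Fin m) k' :=
      { bci k k' (Fin m) with
        commutes' := fun a => by
          change MvPowerSeries.map (algebraMap k k') (algebraMap k _ a) = _
          rw [MvPowerSeries.algebraMap_apply, MvPowerSeries.algebraMap_apply,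
            MvPowerSeries.map_C]
          rfl }
    have hi1 : ∀ x, i1 x = bci k k' (Fin m) x := fun x => rfl
    let c1 : MvPowerSeries (Fin m) k →ₐ[k] MvPowerSeries (Fin m) k' :=
      (c.restrictScalars k).comp i1
    let c2 : MvPowerSeries (Fin m) k →ₐ[k] MvPowerSeries (Fin m) k' := i1.comp g.toAlgHom
    have h12 : c1 = c2 := by
      refine Pool.Agent.H77.CA.algHom_ext_mv (c := c1) (c' := c2) ?_ ?_
      · intro i
        change constantCoeff (c (MvPowerSeries.map (algebraMap k k') (X i))) = 0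
        rw [MvPowerSeries.map_X, hc, cc_bci, cc_equiv, constantCoeff_X, map_zero]
      · intro i
        change c (MvPowerSeries.map (algebraMap k k') (X i)) = bci k k' (Fin m) (g (X i))
        rw [MvPowerSeries.map_X, hc]
    intro x
    exact AlgHom.congr_fun h12 x
  obtain ⟨c, hc⟩ := key g
  obtain ⟨d, hd⟩ := key g.symm
  have h1 : c.comp d = AlgHom.id k' _ := by
    refine Pool.Agent.H77.CA.algHom_ext_mv ?_ ?_
    · intro i
      change constantCoeff (c (d (X i))) = 0
      rw [← MvPowerSeries.map_X (algebraMap k k') i, hd, hc, AlgEquiv.apply_symm_apply,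
        MvPowerSeries.map_X, constantCoeff_X]
    · intro i
      change c (d (X i)) = X i
      rw [← MvPowerSeries.map_X (algebraMap k k') i, hd, hc, AlgEquiv.apply_symm_apply]
  have h2 : d.comp c = AlgHom.id k' _ := by
    refine Pool.Agent.H77.CA.algHom_ext_mv ?_ ?_
    · intro i
      change constantCoeff (d (c (X i))) = 0
      rw [← MvPowerSeries.map_X (algebraMap k k') i, hc, hd, AlgEquiv.symm_apply_apply,
        MvPowerSeries.map_X, constantCoeff_X]
    · intro i
      change d (c (X i)) = X i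
      rw [← MvPowerSeries.map_X (algebraMap k k') i, hc, hd, AlgEquiv.symm_apply_apply]
  exact ⟨AlgEquiv.ofAlgHom c d h1 h2, hc⟩

/-- base change of liftings -/
theorem exists_bcLift {F : FormalGroup (MvPowerSeries (Fin m) k)} (a : Lift k F) :
    ∃ a' : Lift k' (F.map (bci k k' (Fin m))),
      (∀ x, a'.g (bci k k' (Fin m) x) = bci k k' (Fin m) (a.g x)) ∧
        red a'.f = PowerSeries.map (algebraMap k k') (red a.f) := by
  obtain ⟨c, hc⟩ := exists_bcAut (k' := k') a.g
  have e1 : (F.map (a.g : MvPowerSeries (Fin m) k →+* MvPowerSeries (Fin m) k)).map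
      (bci k k' (Fin m)) = (F.map (bci k k' (Fin m))).map
        (c : MvPowerSeries (Fin m) k' →+* MvPowerSeries (Fin m) k') := by
    rw [fmap_map, fmap_map]
    congr 1
    refine RingHom.ext fun x => ?_
    exact (hc x).symm
  refine ⟨⟨c, PowerSeries.map (bci k k' (Fin m)) a.f, PowerSeries.map (bci k k' (Fin m)) a.f',
    ?_, map_hs a.zero' _, ?_, ?_⟩, hc, ?_⟩
  · rw [← e1]
    exact a.hom.map _
  · rw [← map_subst' (hs_zero a.hom.1), a.left, map_X']
  · rw [← map_subst' (hs_zero a.zero'), a.right, map_X']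
  · ext n
    simp only [red, PowerSeries.coeff_map]
    exact cc_bci _

end lift

end Pool.Agent.H13.CA
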