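import Mathlib

/-!
# Definitions for Chai's Hope

One-dimensional formal group laws are the `FormalGroup`s of Mathlib.
-/

namespace Pool.Agent.H13.FD

section general

variable {R : Type*} [CommRing R]

/-- `f : F → G` is an isomorphism of formal group laws: `f 0 = 0`, `f (F (x, y)) = G (f x, f y)`, and the
coefficient of `x` in `f` is a unit. -/
def IsIso (F G : FormalGroup R) (f : PowerSeries R) : Prop :=
  PowerSeries.constantCoeff f = 0 ∧
    PowerSeries.subst F.toPowerSeries f =
      MvPowerSeries.subst ![PowerSeries.subst (MvPowerSeries.X 0 : MvPowerSeries (Fin 2) R) f,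
        PowerSeries.subst (MvPowerSeries.X 1 : MvPowerSeries (Fin 2) R) f] G.toPowerSeries ∧
    IsUnit (PowerSeries.coeff 1 f)

/-- The series `[n]_F (x)`: `[0]_F = 0`, `[n + 1]_F = F ([n]_F, x)`. -/
noncomputable def mulBy (F : FormalGroup R) : ℕ → PowerSeries R
  | 0 => 0
  | n + 1 => MvPowerSeries.subst ![mulBy F n, (PowerSeries.X : PowerSeries R)] F.toPowerSeries

/-- The ideal `(p, w_1, .., w_j)`, where `w_i` is the coefficient of `x ^ (p ^ i)` in `[p]_F (x)`. -/
noncomputable def wIdeal (p : ℕ) (F : FormalGroup R) (j : ℕ) : Ideal R :=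
  Ideal.span ({(p : R)} ∪ {x | ∃ i, 1 ≤ i ∧ i ≤ j ∧ x = PowerSeries.coeff (p ^ i) (mulBy F p)})

end general

/-- All automorphisms of `G` over an algebraic closure of `k` are defined over `k`. -/
def AutDef {k : Type*} [Field k] (G : FormalGroup k) : Prop :=
  ∀ t : PowerSeries (AlgebraicClosure k),
    IsIso (G.map (algebraMap k (AlgebraicClosure k))) (G.map (algebraMap k (AlgebraicClosure k))) t →
      ∃ s : PowerSeries k, PowerSeries.map (algebraMap k (AlgebraicClosure k)) s = t

/-- The ring `W(k)⟦X_1, .., X_m⟧`. -/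
abbrev LT (p : ℕ) (k : Type*) (m : ℕ) : Type _ := MvPowerSeries (Fin m) (WittVector p k)

section witt

variable (p : ℕ) [Fact p.Prime] (k : Type*) [Field k] (m : ℕ)

/-- The residue map `W(k)⟦X_1, .., X_m⟧ → k`. -/
noncomputable def res : LT p k m →+* k :=
  (WittVector.constantCoeff : WittVector p k →+* k).comp
    (MvPowerSeries.constantCoeff (σ := Fin m) (R := WittVector p k))

variable {p k m}

/-- `F` over `W(k)⟦X_1, .., X_m⟧` is a universal deformation of its special fibre, of height `m + 1`: `F`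
is commutative, the special fibre has `[p] (x) = c x ^ (p ^ (m + 1)) + ..`, `c ≠ 0`, and `p` and the
coefficients `w_1, .., w_m` generate the maximal ideal `(p, X_1, .., X_m)`. -/
def IsUniversal (F : FormalGroup (LT p k m)) : Prop :=
  F.IsComm ∧
    (∀ i, i < p ^ (m + 1) → PowerSeries.coeff i (mulBy (F.map (res p k m)) p) = 0) ∧
    PowerSeries.coeff (p ^ (m + 1)) (mulBy (F.map (res p k m)) p) ≠ 0 ∧
    wIdeal p F m = Ideal.span ({(p : LT p k m)} ∪ Set.range MvPowerSeries.X)

/-- `(g, f)`: an automorphism `g` of the `W(k)`-algebra `W(k)⟦X_1, .., X_m⟧` and an isomorphism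
`f : F → g_* F`. -/
def IsLift (F : FormalGroup (LT p k m))
    (a : (LT p k m ≃ₐ[WittVector p k] LT p k m) × PowerSeries (LT p k m)) : Prop :=
  IsIso F (F.map (a.1 : LT p k m →+* LT p k m)) a.2

end witt

end Pool.Agent.H13.FD
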