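import Pool.Agent.H13.CA.BC
import Pool.Agent.H13.CA.FD

/-!
# Chai's Hope in terms of the definitions of `FD`
-/

open PowerSeries

namespace Pool.Agent.H13.CA

open Pool.Agent.H40.CH3

theorem isIso_iff {R : Type*} [CommRing R] {F G : FormalGroup R} {f : R⟦X⟧} :
    FD.IsIso F G f ↔ IsHom F G f ∧ IsUnit (coeff 1 f) := by
  unfold FD.IsIso IsHom
  rw [and_assoc]

theorem mulBy_eq {R : Type*} [CommRing R] (F : FormalGroup R) (n : ℕ) :
    FD.mulBy F n = mulSer F n := by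
  induction n with
  | zero => rfl
  | succ n ih =>
    change MvPowerSeries.subst ![FD.mulBy F n, (X : R⟦X⟧)] F.toPowerSeries =
      MvPowerSeries.subst ![mulSer F n, (X : R⟦X⟧)] F.toPowerSeries
    rw [ih]

theorem wIdeal_eq {R : Type*} [CommRing R] (p : ℕ) (F : FormalGroup R) (j : ℕ) :
    FD.wIdeal p F j = IwW p F j := by
  unfold FD.wIdeal IwW
  congr 2
  ext x
  constructor
  · rintro ⟨i, hi, hij, rfl⟩
    refine ⟨i - 1, by omega, ?_⟩
    rw [cw, mulBy_eq, Nat.sub_add_cancel hi]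
  · rintro ⟨i, hi, rfl⟩
    exact ⟨i + 1, by omega, by omega, by rw [cw, mulBy_eq]⟩

theorem autDef_iff {k : Type*} [Field k] {G : FormalGroup k} : FD.AutDef G ↔ AutDef G := by
  constructor
  · intro h t ht hu
    obtain ⟨s, hs⟩ := h t (isIso_iff.2 ⟨ht, hu⟩)
    refine ⟨s, ?_, hs⟩
    apply Pool.Agent.H74.LA.isHom_of_map (algebraMap k (AlgebraicClosure k))
      (algebraMap k (AlgebraicClosure k)).injective
    rw [hs]
    exact ht
  · intro h t ht
    obtain ⟨h1, h2⟩ := isIso_iff.1 ht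
    obtain ⟨s, _, hs⟩ := h t h1 h2
    exact ⟨s, hs⟩

variable {p : ℕ} [Fact p.Prime] {k : Type*} [Field k] {m : ℕ}

theorem res_eq : FD.res p k m = resd WittVector.constantCoeff m := rfl

theorem isUniversal_iff {F : FormalGroup (FD.LT p k m)} :
    FD.IsUniversal F ↔ IsUnivW WittVector.constantCoeff p m F := by
  constructor
  · rintro ⟨h1, h2, h3, h4⟩
    refine ⟨h1, ⟨?_, ?_⟩, ?_⟩
    · intro i hi
      rw [← mulBy_eq]
      exact h2 i hi
    · rw [← mulBy_eq, isUnit_iff_ne_zero]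
      exact h3
    · rw [wIdeal_eq] at h4
      exact h4
  · rintro ⟨h1, ⟨h2, h3⟩, h4⟩
    refine ⟨h1, ?_, ?_, ?_⟩
    · intro i hi
      rw [mulBy_eq]
      exact h2 i hi
    · rw [mulBy_eq, ← isUnit_iff_ne_zero]
      exact h3
    · rw [wIdeal_eq]
      exact h4

theorem isLift_iff {F : FormalGroup (FD.LT p k m)}
    {a : (FD.LT p k m ≃ₐ[WittVector p k] FD.LT p k m) × PowerSeries (FD.LT p k m)} :
    FD.IsLift F a ↔ IsLift F a := isIso_iff

theorem final_lifts [CharP k p] [PerfectRing k p] {F : FormalGroup (FD.LT p k m)}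
    (hF : FD.IsUniversal F) (hA : FD.AutDef (F.map (FD.res p k m))) (t : PowerSeries k)
    (ht : FD.IsIso (F.map (FD.res p k m)) (F.map (FD.res p k m)) t) :
    ∃! a : (FD.LT p k m ≃ₐ[WittVector p k] FD.LT p k m) × PowerSeries (FD.LT p k m),
      FD.IsLift F a ∧ PowerSeries.map (FD.res p k m) a.2 = t := by
  have h := (chaiHope_rad p (isUniversal_iff.1 hF) (autDef_iff.1 hA)).1
  obtain ⟨h1, h2⟩ := isIso_iff.1 ht
  obtain ⟨a, ha, hu⟩ := h t h1 h2
  refine ⟨(a.g, a.f), ⟨isLift_iff.2 a.isLift, ha⟩, ?_⟩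
  rintro ⟨g, f⟩ ⟨hb, hbr⟩
  obtain ⟨b, hb1, hb2⟩ := (isLift_iff.1 hb).exists_lift
  change b.g = g at hb1
  change b.f = f at hb2
  subst hb1
  subst hb2
  rw [hu b hbr]

theorem final_ideals [CharP k p] [PerfectRing k p] {F : FormalGroup (FD.LT p k m)}
    (hF : FD.IsUniversal F) (hA : FD.AutDef (F.map (FD.res p k m))) (I : Ideal (FD.LT p k m))
    (hI : I.IsRadical) (hIt : I ≠ ⊤) :
    (∃ N : ℕ, ∀ a : (FD.LT p k m ≃ₐ[WittVector p k] FD.LT p k m) × PowerSeries (FD.LT p k m),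
      FD.IsLift F a →
        (PowerSeries.X : PowerSeries k) ^ N ∣ PowerSeries.map (FD.res p k m) a.2 - PowerSeries.X →
          I.map (a.1 : FD.LT p k m →+* FD.LT p k m) ≤ I) ↔
      I = ⊥ ∨ ∃ j, j ≤ m ∧ I = FD.wIdeal p F j := by
  have h := (chaiHope_rad p (isUniversal_iff.1 hF) (autDef_iff.1 hA)).2 I hI hIt
  have e1 : (∃ j, j ≤ m ∧ I = FD.wIdeal p F j) ↔ ∃ j, j ≤ m ∧ I = IwW p F j := by
    refine exists_congr fun j => ?_
    rw [wIdeal_eq]
  rw [e1, ← h]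
  refine exists_congr fun N => ⟨fun h a ha => h (a.g, a.f) (isLift_iff.2 a.isLift) ha, ?_⟩
  rintro h ⟨g, f⟩ hb hN
  obtain ⟨b, hb1, hb2⟩ := (isLift_iff.1 hb).exists_lift
  change b.g = g at hb1
  change b.f = f at hb2
  subst hb1
  subst hb2
  exact h b hN

theorem final_exists [CharP k p] [PerfectRing k p] :
    ∃ F : FormalGroup (FD.LT p k m), FD.IsUniversal F ∧
      FD.mulBy (F.map (FD.res p k m)) p = (PowerSeries.X : PowerSeries k) ^ p ^ (m + 1) ∧
      (Nonempty (GaloisField p (m + 1) →+* k) → FD.AutDef (F.map (FD.res p k m))) := by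
  obtain ⟨F, hF, hp⟩ := univW_exists (m := m) (isWitt_wittVector p (m + 1) k)
  refine ⟨F, isUniversal_iff.2 hF, ?_, ?_⟩
  · rw [mulBy_eq]
    exact hp
  · rintro ⟨e⟩
    rw [autDef_iff]
    exact autDef_of p (Nat.succ_le_succ (Nat.zero_le m)) e hp

end Pool.Agent.H13.CA
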