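import Pool.Agent.H13.CA.Com
import Pool.Agent.H86.NF.Ht

/-!
# From `ChaiA` to the literal final statement
-/

open MvPowerSeries

namespace Pool.Agent.H13.CA

section
variable {R : Type*} [CommRing R]

theorem c1_subst {f g : PowerSeries R} (hf : PowerSeries.constantCoeff f = 0)
    (hg : PowerSeries.constantCoeff g = 0) :
    PowerSeries.coeff 1 (PowerSeries.subst f g) =
      PowerSeries.coeff 1 g * PowerSeries.coeff 1 f := by
  have h := (H86.NF.X_pow_dvd_cm_right (d := 1) (u := f) (h := g) hf (by
    rw [pow_one]; exact PowerSeries.X_dvd_iff.2 hg)).2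
  rw [pow_one] at h
  exact h

theorem cc_iter {f : PowerSeries R} (hf : PowerSeries.constantCoeff f = 0) (n : ℕ) :
    PowerSeries.constantCoeff (iter f n) = 0 := by
  induction n with
  | zero => simp [iter]
  | succ n ih => exact cc_subst ih hf

theorem isHom_iter {F : FormalGroup R} {f : PowerSeries R} (hf : IsHom F F f) (n : ℕ) :
    IsHom F F (iter f n) := by
  induction n with
  | zero => exact IsHom.refl F
  | succ n ih => exact ih.comp hf

theorem unit_iter {f : PowerSeries R} (hf : PowerSeries.constantCoeff f = 0)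
    (hu : IsUnit (PowerSeries.coeff 1 f)) (n : ℕ) : IsUnit (PowerSeries.coeff 1 (iter f n)) := by
  induction n with
  | zero => simp [iter]
  | succ n ih =>
    rw [iter, c1_subst (cc_iter hf n) hf]
    exact hu.mul ih

end

section
variable {k : Type*} [Field k] {m : ℕ} {F : FormalGroup (MvPowerSeries (Fin m) k)}

theorem Istd_le_ker (j : ℕ) {x : MvPowerSeries (Fin m) k} (hx : x ∈ Istd k m j) :
    constantCoeff x = 0 := by
  have h : Istd k m j ≤ RingHom.ker (constantCoeff (σ := Fin m) (R := k)) := by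
    refine Ideal.span_le.2 ?_
    rintro x ⟨i, _, rfl⟩
    simp
  exact h hx

theorem height_special {p : ℕ} (hF : IsLT k p m F) : HasHeight p (m + 1) (special F) := by
  constructor
  · intro i hi
    rw [special, mulSer_map, PowerSeries.coeff_map]
    exact Istd_le_ker m (hF.low m (le_refl m) i hi)
  · rw [special, mulSer_map, PowerSeries.coeff_map]
    exact hF.top.map _

/-- the stabiliser of an ideal -/
def stabL (P : Ideal (MvPowerSeries (Fin m) k)) : Subgroup (Lift k F) where
  carrier := {a | P.map (a.g : MvPowerSeries (Fin m) k →+* MvPowerSeries (Fin m) k) = P}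
  one_mem' := by
    change P.map (((1 : Lift k F).g : MvPowerSeries (Fin m) k ≃ₐ[k] MvPowerSeries (Fin m) k) :
      MvPowerSeries (Fin m) k →+* MvPowerSeries (Fin m) k) = P
    rw [Lift.one_g]
    exact Ideal.map_id P
  mul_mem' := by
    intro a b ha hb
    change P.map (a.g : MvPowerSeries (Fin m) k →+* MvPowerSeries (Fin m) k) = P at ha
    change P.map (b.g : MvPowerSeries (Fin m) k →+* MvPowerSeries (Fin m) k) = P at hb
    change P.map ((a * b).g : MvPowerSeries (Fin m) k →+* MvPowerSeries (Fin m) k) = P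
    have e : ((a * b).g : MvPowerSeries (Fin m) k →+* MvPowerSeries (Fin m) k) =
      (a.g : MvPowerSeries (Fin m) k →+* MvPowerSeries (Fin m) k).comp
        (b.g : MvPowerSeries (Fin m) k →+* MvPowerSeries (Fin m) k) := by
      rw [Lift.mul_g]; rfl
    rw [e, ← Ideal.map_map, hb, ha]
  inv_mem' := by
    intro a ha
    change P.map (a.g : MvPowerSeries (Fin m) k →+* MvPowerSeries (Fin m) k) = P at ha
    change P.map ((a⁻¹).g : MvPowerSeries (Fin m) k →+* MvPowerSeries (Fin m) k) = P
    conv_lhs => rw [← ha]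
    rw [Ideal.map_map]
    have e : ((a⁻¹).g : MvPowerSeries (Fin m) k →+* MvPowerSeries (Fin m) k).comp
        (a.g : MvPowerSeries (Fin m) k →+* MvPowerSeries (Fin m) k) = RingHom.id _ := by
      ext1 x
      rw [Lift.inv_g]
      exact a.g.symm_apply_apply x
    rw [e, Ideal.map_id]

theorem mem_stabL {P : Ideal (MvPowerSeries (Fin m) k)} {a : Lift k F} :
    a ∈ stabL P ↔ P.map (a.g : MvPowerSeries (Fin m) k →+* MvPowerSeries (Fin m) k) = P :=
  Iff.rfl

/-- in a Noetherian ring an automorphism with `φ P ≤ P` has `φ P = P` -/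
theorem map_eq_of_le {R : Type*} [CommRing R] [IsNoetherianRing R] (φ : R ≃+* R) (P : Ideal R)
    (h : P.map (φ : R →+* R) ≤ P) : P.map (φ : R →+* R) = P := by
  refine le_antisymm h ?_
  -- `P ≤ comap φ P ≤ comap φ^2 P ≤ ..`
  have hc : P ≤ P.comap (φ : R →+* R) := Ideal.map_le_iff_le_comap.1 h
  let c : ℕ → Ideal R := fun n => (fun J : Ideal R => J.comap (φ : R →+* R))^[n] P
  have hstep : ∀ n, c (n + 1) = (c n).comap (φ : R →+* R) := by
    intro n
    exact Function.iterate_succ_apply' _ n P
  have hmono : ∀ n, c n ≤ c (n + 1) := by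
    intro n
    induction n with
    | zero => exact hc
    | succ n ih =>
      rw [hstep n, hstep (n + 1)]
      exact Ideal.comap_mono ih
  obtain ⟨n, hn⟩ := monotone_stabilizes_iff_noetherian.2 (inferInstance : IsNoetherian R R)
    ⟨c, monotone_nat_of_le_succ hmono⟩
  have hn' : c n = c (n + 1) := hn (n + 1) (Nat.le_succ n)
  have hdown : ∀ j, c j = c (j + 1) → c 0 = c 1 := by
    intro j
    induction j with
    | zero => intro h; exact h
    | succ j ih =>
      intro h
      apply ih
      rw [hstep j, hstep (j + 1)] at h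
      have hs : Function.Surjective (φ : R →+* R) := φ.surjective
      exact Ideal.comap_injective_of_surjective _ hs h
  have h01 := hdown n hn'
  have h1 : P = P.comap (φ : R →+* R) := h01
  have h2 : (P.comap (φ : R →+* R)).map (φ : R →+* R) = P :=
    Ideal.map_comap_of_surjective _ φ.surjective P
  rw [← h1] at h2
  exact h2.ge

theorem chai_of {p : ℕ} (hF : IsLT k p m F)
    (hexp : ∀ Γ : FormalGroup k, HasHeight p (m + 1) Γ → ∀ N : ℕ, ∃ M, 1 ≤ M ∧
      ∀ θ : PowerSeries k, IsHom Γ Γ θ → IsUnit (PowerSeries.coeff 1 θ) →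
        (PowerSeries.X : PowerSeries k) ^ N ∣ iter θ M - PowerSeries.X)
    (hchai : ChaiA k p m) (N : ℕ) (P : Ideal (MvPowerSeries (Fin m) k)) (hP : P.IsPrime)
    (hst : ∀ θ : PowerSeries k, IsHom (special F) (special F) θ →
      IsUnit (PowerSeries.coeff 1 θ) → (PowerSeries.X : PowerSeries k) ^ N ∣ θ - PowerSeries.X →
        ∃ a : Lift k F, red a.f = θ ∧
          P.map (a.g : MvPowerSeries (Fin m) k →+* MvPowerSeries (Fin m) k) ≤ P) :
    ∃ j, j ≤ m ∧ P = Istd k m j := by
  refine hchai F hF P hP (stabL P) ?_ ?_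
  · obtain ⟨M, hM, h⟩ := hexp (special F) (height_special hF) N
    refine ⟨M, hM, ?_⟩
    intro θ hθ hu
    obtain ⟨a, ha, hP'⟩ := hst (iter θ M) (isHom_iter hθ M) (unit_iter hθ.1 hu M) (h θ hθ hu)
    exact ⟨a, mem_stabL.2 (map_eq_of_le a.g.toRingEquiv P hP'), ha⟩
  · intro a ha
    exact (mem_stabL.1 ha).le

end
end Pool.Agent.H13.CA
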