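import Pool.Agent.H13.CA.Univ
import Pool.Agent.H74.LA.Desc

/-!
# Automorphisms of a formal group law with `[p] = x ^ q` are defined over every field which contains
the field with `q` elements
-/

open MvPowerSeries

namespace Pool.Agent.H13.CA

/-- if `k` contains the field with `q = p ^ h` elements then so does every `a` with `a ^ q = a` in an
extension field -/
theorem mem_of_galois {k k' : Type*} [Field k] [Field k'] [Algebra k k'] (p : ℕ) [Fact p.Prime]
    {h : ℕ} (hh : 1 ≤ h) (e : GaloisField p h →+* k) {a : k'} (ha : a ^ p ^ h = a) :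
    ∃ b : k, algebraMap k k' b = a := by
  classical
  have hp : 1 < p := (Fact.out : p.Prime).one_lt
  have hq : 1 < p ^ h := Nat.one_lt_pow (by omega) hp
  have : Fintype (GaloisField p h) := Fintype.ofFinite _
  have hcard : Fintype.card (GaloisField p h) = p ^ h := by
    rw [← Nat.card_eq_fintype_card]
    exact GaloisField.card p h (by omega)
  set f : GaloisField p h →+* k' := (algebraMap k k').comp e with hf
  set S : Finset k' := Finset.univ.image f with hS
  have hScard : S.card = p ^ h := by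
    rw [hS, Finset.card_image_of_injective _ f.injective, Finset.card_univ, hcard]
  set g : Polynomial k' := Polynomial.X ^ p ^ h - Polynomial.X with hg
  have hg0 : g ≠ 0 := FiniteField.X_pow_card_sub_X_ne_zero k' hq
  have hdeg : g.natDegree = p ^ h := FiniteField.X_pow_card_sub_X_natDegree_eq k' hq
  have hroot : ∀ b : k', b ^ p ^ h = b → b ∈ g.roots.toFinset := by
    intro b hb
    rw [Multiset.mem_toFinset, Polynomial.mem_roots hg0, Polynomial.IsRoot.def, hg,
      Polynomial.eval_sub, Polynomial.eval_pow, Polynomial.eval_X, hb, sub_self]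
  have hsub : S ⊆ g.roots.toFinset := by
    intro b hb
    rw [hS, Finset.mem_image] at hb
    obtain ⟨c, _, rfl⟩ := hb
    apply hroot
    rw [← map_pow, ← hcard, FiniteField.pow_card]
  have hle : g.roots.toFinset.card ≤ S.card := by
    rw [hScard, ← hdeg]
    exact (Multiset.toFinset_card_le _).trans (Polynomial.card_roots' g)
  have heq : S = g.roots.toFinset := Finset.eq_of_subset_of_card_le hsub hle
  have h1 : a ∈ S := by
    rw [heq]
    exact hroot a ha
  rw [hS, Finset.mem_image] at h1
  obtain ⟨c, _, hc⟩ := h1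
  exact ⟨e c, hc⟩

/-- the same for a primitive root of unity of order `q - 1` in `k` -/
theorem mem_of_prim {k k' : Type*} [Field k] [Field k'] [Algebra k k'] {q : ℕ} (hq : 2 ≤ q)
    {ζ : k} (hζ : IsPrimitiveRoot ζ (q - 1)) {a : k'} (ha : a ^ q = a) :
    ∃ b : k, algebraMap k k' b = a := by
  by_cases h0 : a = 0
  · exact ⟨0, by rw [map_zero, h0]⟩
  have h1 : a ^ (q - 1) = 1 := by
    have h2 : a ^ (q - 1) * a = 1 * a := by
      rw [← pow_succ, Nat.sub_add_cancel (by omega), ha, one_mul]
    exact mul_right_cancel₀ h0 h2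
  have hζ' : IsPrimitiveRoot (algebraMap k k' ζ) (q - 1) :=
    hζ.map_of_injective (algebraMap k k').injective
  have : NeZero (q - 1) := ⟨by omega⟩
  obtain ⟨i, _, hi⟩ := hζ'.eq_pow_of_pow_eq_one h1
  exact ⟨ζ ^ i, by rw [map_pow, hi]⟩

theorem autDef_of_mem {k : Type*} [Field k] (p : ℕ) [Fact p.Prime] [CharP k p] {h : ℕ}
    (hmem : ∀ a : AlgebraicClosure k, a ^ p ^ h = a →
      ∃ b : k, algebraMap k (AlgebraicClosure k) b = a) {Γ : FormalGroup k}
    (hΓ : mulSer Γ p = (PowerSeries.X : PowerSeries k) ^ p ^ h) : AutDef Γ := by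
  intro θ' hθ' _
  have hchar : CharP (AlgebraicClosure k) p :=
    charP_of_injective_algebraMap (algebraMap k (AlgebraicClosure k)).injective p
  have h1 : mulSer (Γ.map (algebraMap k (AlgebraicClosure k))) p =
      (PowerSeries.X : PowerSeries (AlgebraicClosure k)) ^ p ^ h := by
    rw [mulSer_map, hΓ, map_pow, map_X']
  have h2 := Pool.Agent.H74.LA.hom_fix p h1 h1 hθ'
  choose b hb using fun i => hmem _ (h2 i)
  have h3 : PowerSeries.map (algebraMap k (AlgebraicClosure k)) (PowerSeries.mk b) = θ' := by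
    ext i
    rw [PowerSeries.coeff_map, PowerSeries.coeff_mk, hb]
  refine ⟨PowerSeries.mk b, ?_, h3⟩
  apply Pool.Agent.H74.LA.isHom_of_map (algebraMap k (AlgebraicClosure k))
    (algebraMap k (AlgebraicClosure k)).injective
  rw [h3]
  exact hθ'

theorem autDef_of_prim {k : Type*} [Field k] (p : ℕ) [Fact p.Prime] [CharP k p] {h : ℕ}
    (hh : 1 ≤ h) {ζ : k} (hζ : IsPrimitiveRoot ζ (p ^ h - 1)) {Γ : FormalGroup k}
    (hΓ : mulSer Γ p = (PowerSeries.X : PowerSeries k) ^ p ^ h) : AutDef Γ :=
  autDef_of_mem p (fun _ ha => mem_of_prim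
    (Nat.one_lt_pow (by omega) (Fact.out : p.Prime).one_lt) hζ ha) hΓ

theorem autDef_of {k : Type*} [Field k] (p : ℕ) [Fact p.Prime] [CharP k p] {h : ℕ} (hh : 1 ≤ h)
    (e : GaloisField p h →+* k) {Γ : FormalGroup k}
    (hΓ : mulSer Γ p = (PowerSeries.X : PowerSeries k) ^ p ^ h) : AutDef Γ :=
  autDef_of_mem p (fun _ ha => mem_of_galois p hh e ha) hΓ

end Pool.Agent.H13.CA
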