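import Pool.Agent.H13.CA.Com

/-!
# CHAPTER GRP, part 2 (helper25): iterates and ample subgroups
-/

open PowerSeries

namespace Pool.Agent.H13.CA

section iter

variable {R S : Type*} [CommRing R] [CommRing S]

theorem iter_zero (f : R⟦X⟧) : iter f 0 = (X : R⟦X⟧) := rfl

theorem iter_succ (f : R⟦X⟧) (n : ℕ) : iter f (n + 1) = PowerSeries.subst (iter f n) f := rfl

theorem iter_cc {f : R⟦X⟧} (hf : constantCoeff f = 0) (n : ℕ) : constantCoeff (iter f n) = 0 := by
  induction n with
  | zero => exact PowerSeries.constantCoeff_X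
  | succ n ih => exact cc_subst ih hf

theorem iter_one {f : R⟦X⟧} : iter f 1 = f := by
  rw [iter_succ, iter_zero]
  exact PowerSeries.X_subst f

/-- `f^(m+n) = f^n ∘ f^m` -/
theorem iter_add {f : R⟦X⟧} (hf : constantCoeff f = 0) (m n : ℕ) :
    iter f (m + n) = PowerSeries.subst (iter f m) (iter f n) := by
  induction n with
  | zero => rw [add_zero, iter_zero, PowerSeries.subst_X (hs_zero (iter_cc hf m))]
  | succ n ih =>
    rw [← add_assoc, iter_succ, ih, iter_succ, subst_subst' (iter_cc hf n) (iter_cc hf m)]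

theorem iter_succ' {f : R⟦X⟧} (hf : constantCoeff f = 0) (n : ℕ) :
    iter f (n + 1) = PowerSeries.subst f (iter f n) := by
  rw [add_comm n 1, iter_add hf, iter_one]

theorem iter_comm {f : R⟦X⟧} (hf : constantCoeff f = 0) (m n : ℕ) :
    PowerSeries.subst (iter f m) (iter f n) = PowerSeries.subst (iter f n) (iter f m) := by
  rw [← iter_add hf, add_comm, iter_add hf]

theorem iter_mul {f : R⟦X⟧} (hf : constantCoeff f = 0) (m n : ℕ) :
    iter f (m * n) = iter (iter f m) n := by
  induction n with
  | zero => rw [mul_zero]; rfl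
  | succ n ih => rw [mul_add, mul_one, add_comm (m * n) m, add_comm m, iter_succ, ← ih, iter_add hf]

theorem iter_hom {F : FormalGroup R} {f : R⟦X⟧} (h : IsHom F F f) (n : ℕ) :
    IsHom F F (iter f n) := by
  induction n with
  | zero => exact IsHom.refl F
  | succ n ih => exact ih.comp h

theorem coeff_one_iter {f : R⟦X⟧} (hf : constantCoeff f = 0) (n : ℕ) :
    coeff 1 (iter f n) = coeff 1 f ^ n := by
  induction n with
  | zero => rw [iter_zero, pow_zero, PowerSeries.coeff_one_X]
  | succ n ih => rw [iter_succ, coeff_one_subst (iter_cc hf n) hf, ih, pow_succ]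

theorem iter_unit {f : R⟦X⟧} (hf : constantCoeff f = 0) (hu : IsUnit (coeff 1 f)) (n : ℕ) :
    IsUnit (coeff 1 (iter f n)) := by
  rw [coeff_one_iter hf]
  exact hu.pow n

theorem map_iter {f : R⟦X⟧} (hf : constantCoeff f = 0) (φ : R →+* S) (n : ℕ) :
    PowerSeries.map φ (iter f n) = iter (PowerSeries.map φ f) n := by
  induction n with
  | zero => exact map_X' φ
  | succ n ih => rw [iter_succ, iter_succ, map_subst' (hs_zero (iter_cc hf n)), ih]

/-- iterates of commuting series -/
theorem iter_commute {f g : R⟦X⟧} (hf : constantCoeff f = 0) (hg : constantCoeff g = 0)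
    (h : PowerSeries.subst f g = PowerSeries.subst g f) (n : ℕ) :
    PowerSeries.subst (iter f n) g = PowerSeries.subst g (iter f n) := by
  induction n with
  | zero =>
    rw [iter_zero, PowerSeries.subst_X (hs_zero hg)]
    exact PowerSeries.X_subst g
  | succ n ih =>
    rw [iter_succ, ← subst_subst' hf (iter_cc hf n), h, subst_subst' hg (iter_cc hf n), ih,
      ← subst_subst' (iter_cc hf n) hg]

/-- iterates of a composite of commuting series -/
theorem iter_subst {f g : R⟦X⟧} (hf : constantCoeff f = 0) (hg : constantCoeff g = 0)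
    (h : PowerSeries.subst f g = PowerSeries.subst g f) (n : ℕ) :
    iter (PowerSeries.subst f g) n = PowerSeries.subst (iter f n) (iter g n) := by
  induction n with
  | zero => exact (PowerSeries.subst_X PowerSeries.HasSubst.X').symm
  | succ n ih =>
    rw [iter_succ, ih, subst_subst' hf (cc_subst (iter_cc hf n) (iter_cc hg n)),
      ← subst_subst' (iter_cc hg n) (iter_cc hf n), iter_commute hg hf h.symm n,
      subst_subst' hf (iter_cc hf n), ← iter_succ, iter_succ g n,
      subst_subst' (iter_cc hg n) (iter_cc hf (n + 1))]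

end iter

section lift

variable {k : Type*} [CommRing k] {A : Type*} [CommRing A] [Algebra k A] {F : FormalGroup A}

theorem Lift.pow_g (a : Lift k F) (n : ℕ) : (a ^ n).g = a.g ^ n := by
  induction n with
  | zero => rw [pow_zero, pow_zero, Lift.one_g]
  | succ n ih => rw [pow_succ, pow_succ, Lift.mul_g, ih]

end lift

section red

variable {k : Type*} [Field k]

theorem Lift.red_cc {σ : Type*} {F : FormalGroup (MvPowerSeries σ k)} (a : Lift k F) :
    constantCoeff (red a.f) = 0 := map_hs a.hom.1 _

theorem Lift.red_isUnit {σ : Type*} {F : FormalGroup (MvPowerSeries σ k)} (a : Lift k F) :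
    IsUnit (coeff 1 (red a.f)) := by
  unfold red
  rw [PowerSeries.coeff_map]
  exact a.isUnit.map _

theorem Lift.red_pow {σ : Type*} {F : FormalGroup (MvPowerSeries σ k)} (a : Lift k F) (n : ℕ) :
    red (a ^ n).f = iter (red a.f) n := by
  induction n with
  | zero => rw [pow_zero]; exact red_X
  | succ n ih => rw [pow_succ, Lift.red_mul, ih, iter_succ]

variable {m : ℕ} {F : FormalGroup (MvPowerSeries (Fin m) k)}

theorem Ample.of_pow {U U' : Subgroup (Lift k F)} (hU : Ample U) {d : ℕ} (hd : 1 ≤ d)
    (h : ∀ a ∈ U, a ^ d ∈ U') : Ample U' := by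
  obtain ⟨N, hN, hA⟩ := hU
  refine ⟨N * d, Nat.mul_pos hN hd, fun θ hθ hu => ?_⟩
  obtain ⟨a, ha, hr⟩ := hA θ hθ hu
  exact ⟨a ^ d, h a ha, by rw [Lift.red_pow, hr, iter_mul hθ.1]⟩

theorem Ample.mono {U U' : Subgroup (Lift k F)} (hU : Ample U) (h : U ≤ U') : Ample U' :=
  hU.of_pow le_rfl fun a ha => by rw [pow_one]; exact h ha

/-- a subgroup of finite index of an ample subgroup is ample -/
theorem Ample.inf_of_index {U V : Subgroup (Lift k F)} (hU : Ample U) (hV : V.relIndex U ≠ 0) :
    Ample (U ⊓ V) := by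
  refine hU.of_pow (d := (V.relIndex U).factorial) (Nat.factorial_pos _) fun a ha => ?_
  refine ⟨U.pow_mem ha _, ?_⟩
  obtain ⟨n, hn, hn', hn2⟩ := Subgroup.exists_pow_mem_of_relIndex_ne_zero hV ha
  obtain ⟨c, hc⟩ := Nat.dvd_factorial hn hn'
  rw [hc, pow_mul]
  exact V.pow_mem hn2.1 c

end red

end Pool.Agent.H13.CA
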