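import Pool.Agent.H13.CA.Main
import Pool.Agent.H13.CA.Dsc
import Pool.Agent.H13.CA.Grp2

/-!
# The closed fibre theorem over a general ground field

`k` is a field of characteristic `p` over which all automorphisms of the special fibre (over an
algebraically closed field `k'` containing `k`) are defined.
-/

open MvPowerSeries

namespace Pool.Agent.H13.CA

variable {k k' : Type*} [Field k] [Field k'] [Algebra k k'] {m : ℕ}

theorem special_bc (F : FormalGroup (MvPowerSeries (Fin m) k)) :
    special (F.map (bci k k' (Fin m))) = (special F).map (algebraMap k k') := by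
  unfold special
  rw [fmap_map, fmap_map]
  congr 1

theorem isLT_bc {p : ℕ} {F : FormalGroup (MvPowerSeries (Fin m) k)} (hF : IsLT k p m F) :
    IsLT k' p m (F.map (bci k k' (Fin m))) := by
  have h1 : ∀ i, PowerSeries.coeff i (mulSer (F.map (bci k k' (Fin m))) p) =
      bci k k' (Fin m) (PowerSeries.coeff i (mulSer F p)) := by
    intro i
    rw [mulSer_map, PowerSeries.coeff_map]
  refine ⟨IsComm.map' hF.comm _, ?_, ?_, ?_⟩
  · intro j hj i hi
    rw [h1]
    exact Pool.Agent.H61.CA.comap_Istd.2 (hF.low j hj i hi)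
  · intro j
    have h2 := Pool.Agent.H61.CA.comap_Istd (K := k').2 (hF.mid j)
    rw [map_sub, MvPowerSeries.map_X] at h2
    rw [h1]
    exact h2
  · rw [h1]
    exact hF.top.map _

theorem aut_oI {c : MvPowerSeries (Fin m) k' ≃ₐ[k'] MvPowerSeries (Fin m) k'} (N : ℕ)
    (y : MvPowerSeries (Fin m) k') (hy : y ∈ Pool.Agent.H84.CA.oI (Fin m) k' N) :
    c y ∈ Pool.Agent.H84.CA.oI (Fin m) k' N := by
  rw [← Pool.Agent.H84.CA.vI_pow] at hy ⊢
  have h1 : (Pool.Agent.H84.CA.vI (Fin m) k').map
      (c : MvPowerSeries (Fin m) k' →+* MvPowerSeries (Fin m) k') ≤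
        Pool.Agent.H84.CA.vI (Fin m) k' := by
    rw [Ideal.map_le_iff_le_comap]
    intro x hx
    rw [Ideal.mem_comap]
    rw [Pool.Agent.H84.CA.vI_eq_ker, RingHom.mem_ker] at hx ⊢
    rw [← hx]
    exact cc_equiv c x
  have h2 := Ideal.mem_map_of_mem
    (c : MvPowerSeries (Fin m) k' →+* MvPowerSeries (Fin m) k') hy
  rw [Ideal.map_pow] at h2
  exact Ideal.pow_right_mono h1 N h2

/-- Chai's Hope, closed fibre, over a general ground field -/
theorem chai_ground [IsAlgClosed k'] (p : ℕ) [Fact p.Prime] [CharP k p]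
    (F : FormalGroup (MvPowerSeries (Fin m) k)) (hF : IsLT k p m F)
    (hend : ∀ θ' : PowerSeries k', IsHom ((special F).map (algebraMap k k'))
      ((special F).map (algebraMap k k')) θ' → IsUnit (PowerSeries.coeff 1 θ') →
        ∃ θ : PowerSeries k, IsHom (special F) (special F) θ ∧
          PowerSeries.map (algebraMap k k') θ = θ') (N : ℕ)
    (P : Ideal (MvPowerSeries (Fin m) k)) (hP : P.IsPrime)
    (hst : ∀ θ : PowerSeries k, IsHom (special F) (special F) θ →
      IsUnit (PowerSeries.coeff 1 θ) → (PowerSeries.X : PowerSeries k) ^ N ∣ θ - PowerSeries.X →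
        ∃ a : Lift k F, red a.f = θ ∧
          P.map (a.g : MvPowerSeries (Fin m) k →+* MvPowerSeries (Fin m) k) ≤ P) :
    ∃ j, j ≤ m ∧ P = Istd k m j := by
  have hchar : CharP k' p := charP_of_injective_algebraMap (algebraMap k k').injective p
  set F' := F.map (bci k k' (Fin m)) with hF'
  have hLT : IsLT k' p m F' := isLT_bc hF
  have hsp : special F' = (special F).map (algebraMap k k') := special_bc F
  set I : Ideal (MvPowerSeries (Fin m) k') := bc k' P with hI
  have hItop : I ≠ ⊤ := by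
    intro h0
    apply hP.ne_top
    rw [Ideal.eq_top_iff_one]
    apply (map_mem_bc (k' := k')).1
    rw [← hI, h0]
    trivial
  have hU : Ample (stabL I : Subgroup (Lift k' F')) := by
    obtain ⟨M, hM, h⟩ := exponent p (Nat.succ_le_succ (Nat.zero_le m)) (height_special hF) N
    refine ⟨M, hM, ?_⟩
    intro θ' hθ' hu'
    rw [hsp] at hθ'
    obtain ⟨θ, hθ, rfl⟩ := hend θ' hθ' hu'
    have hu : IsUnit (PowerSeries.coeff 1 θ) := by
      rw [PowerSeries.coeff_map] at hu'
      rw [isUnit_iff_ne_zero] at hu' ⊢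
      intro h0
      rw [h0, map_zero] at hu'
      exact hu' rfl
    obtain ⟨a, ha, hPa⟩ := hst (iter θ M) (isHom_iter hθ M) (unit_iter hθ.1 hu M) (h θ hθ hu)
    obtain ⟨a', ha1, ha2⟩ := exists_bcLift (k' := k') a
    refine ⟨a', ?_, ?_⟩
    · rw [mem_stabL]
      apply map_eq_of_le a'.g.toRingEquiv I
      refine bc_stable hPa (c := (a'.g : MvPowerSeries (Fin m) k' →+* MvPowerSeries (Fin m) k'))
        ha1 ?_ ?_
      · intro b
        exact a'.g.commutes b
      · intro N y hy
        exact aut_oI N y hy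
    · rw [ha2, ha, map_iter hθ.1]
  obtain ⟨Q, hQ⟩ := Ideal.nonempty_minimalPrimes hItop
  obtain ⟨U', _, hU', hst'⟩ := Pool.Agent.H49.CA.ample_minp (stabL I) hU I
    (fun a ha => (mem_stabL.1 ha).le)
  obtain ⟨j, hj, hQj⟩ := chai_at k' p m F' hLT Q hQ.isPrime U' hU'
    (fun a ha => hst' a ha Q hQ)
  refine ⟨j, hj, ?_⟩
  ext x
  constructor
  · intro hx
    have h1 : bci k k' (Fin m) x ∈ Q := hQ.le (map_mem_bc.2 hx)
    rw [hQj] at h1
    exact Pool.Agent.H61.CA.comap_Istd.1 h1
  · intro hx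
    by_contra hxP
    have h1 : bci k k' (Fin m) x ∈ Q := by
      rw [hQj]
      exact Pool.Agent.H61.CA.comap_Istd.2 hx
    obtain ⟨y, hy, hxy⟩ := Ideal.exists_mul_mem_of_mem_minimalPrimes hQ h1
    exact hy (mul_mem_bc hP hxP hxy)

end Pool.Agent.H13.CA
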