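import Pool.Agent.H13.CA.Defs

/-!
# CHAPTER GRP (architect helper25): homomorphisms compose, the group of liftings

Identities, composition, transport along ring homomorphisms, inverse of a series with unit linear
coefficient, uniqueness of `f'`, and the group structure on `Lift k F`.
-/

open PowerSeries

namespace Pool.Agent.H13.CA

variable {R S : Type*} [CommRing R] [CommRing S]

/-! ### substitution -/

section subst

variable {σ τ : Type*}

theorem hasSubst_pair {a b : MvPowerSeries σ R} (ha : PowerSeries.HasSubst a)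
    (hb : PowerSeries.HasSubst b) : MvPowerSeries.HasSubst ![a, b] :=
  MvPowerSeries.hasSubst_of_constantCoeff_nilpotent fun s => by
    fin_cases s
    · exact ha
    · exact hb

/-- a substitution commutes with the substitution in a series of one variable -/
theorem mv_subst_subst {a : MvPowerSeries σ R} (ha : PowerSeries.HasSubst a)
    {b : σ → MvPowerSeries τ R} (hb : MvPowerSeries.HasSubst b) (f : R⟦X⟧) :
    MvPowerSeries.subst b (PowerSeries.subst a f) =
      PowerSeries.subst (MvPowerSeries.subst b a) f := by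
  rw [PowerSeries.subst_def, PowerSeries.subst_def]
  exact MvPowerSeries.subst_comp_subst_apply ha.const hb f

/-- a substitution in a series of two variables -/
theorem mv_subst_pair {a b : MvPowerSeries σ R} (ha : PowerSeries.HasSubst a)
    (hb : PowerSeries.HasSubst b) {c : σ → MvPowerSeries τ R} (hc : MvPowerSeries.HasSubst c)
    (F : MvPowerSeries (Fin 2) R) :
    MvPowerSeries.subst c (MvPowerSeries.subst ![a, b] F) =
      MvPowerSeries.subst ![MvPowerSeries.subst c a, MvPowerSeries.subst c b] F := by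
  rw [MvPowerSeries.subst_comp_subst_apply (hasSubst_pair ha hb) hc]
  congr 1
  funext s
  fin_cases s <;> rfl

/-- a substitution of one series of one variable in a series of two variables -/
theorem subst_pair {a b : R⟦X⟧} (ha : PowerSeries.HasSubst a)
    (hb : PowerSeries.HasSubst b) {c : MvPowerSeries τ R} (hc : PowerSeries.HasSubst c)
    (F : MvPowerSeries (Fin 2) R) :
    PowerSeries.subst c (MvPowerSeries.subst ![a, b] F : R⟦X⟧) =
      MvPowerSeries.subst ![PowerSeries.subst c a, PowerSeries.subst c b] F := by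
  rw [PowerSeries.subst_def, PowerSeries.subst_def, PowerSeries.subst_def]
  exact mv_subst_pair ha hb hc.const F

theorem map_pair {a b : MvPowerSeries σ R} (ha : PowerSeries.HasSubst a)
    (hb : PowerSeries.HasSubst b) (φ : R →+* S) (F : MvPowerSeries (Fin 2) R) :
    MvPowerSeries.map φ (MvPowerSeries.subst ![a, b] F) =
      MvPowerSeries.subst ![MvPowerSeries.map φ a, MvPowerSeries.map φ b]
        (MvPowerSeries.map φ F) := by
  rw [MvPowerSeries.map_subst (hasSubst_pair ha hb)]
  congr 1
  funext s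
  fin_cases s <;> rfl

theorem hs_zero {f : R⟦X⟧} (hf : constantCoeff f = 0) : PowerSeries.HasSubst f :=
  PowerSeries.HasSubst.of_constantCoeff_zero' hf

theorem hs_F (F : FormalGroup R) : PowerSeries.HasSubst F.toPowerSeries :=
  PowerSeries.HasSubst.of_constantCoeff_zero F.zero_constantCoeff

theorem hs_subst {a : MvPowerSeries σ R} (ha : PowerSeries.HasSubst a) {f : R⟦X⟧}
    (hf : constantCoeff f = 0) : PowerSeries.HasSubst (PowerSeries.subst a f) := by
  rw [← PowerSeries.coe_substAlgHom ha]
  exact PowerSeries.HasSubst.comp (hs_zero hf) ha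

theorem hs_F_subst (F : FormalGroup R) {a b : MvPowerSeries σ R} (ha : PowerSeries.HasSubst a)
    (hb : PowerSeries.HasSubst b) :
    PowerSeries.HasSubst (MvPowerSeries.subst ![a, b] F.toPowerSeries) :=
  MvPowerSeries.IsNilpotent_subst (hasSubst_pair ha hb)
    (by rw [F.zero_constantCoeff]; exact IsNilpotent.zero)

theorem cc_F_subst (F : FormalGroup R) {a b : MvPowerSeries σ R}
    (ha : MvPowerSeries.constantCoeff a = 0) (hb : MvPowerSeries.constantCoeff b = 0) :
    MvPowerSeries.constantCoeff (MvPowerSeries.subst ![a, b] F.toPowerSeries) = 0 := by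
  refine MvPowerSeries.constantCoeff_subst_eq_zero
    (hasSubst_pair (PowerSeries.HasSubst.of_constantCoeff_zero ha)
      (PowerSeries.HasSubst.of_constantCoeff_zero hb)) ?_ F.zero_constantCoeff
  intro i
  fin_cases i
  · exact ha
  · exact hb

theorem pair_X : (![MvPowerSeries.X 0, MvPowerSeries.X 1] : Fin 2 → MvPowerSeries (Fin 2) R) =
    MvPowerSeries.X := by
  funext s
  fin_cases s <;> rfl

theorem map_X' (φ : R →+* S) : PowerSeries.map φ (X : R⟦X⟧) = (X : S⟦X⟧) :=
  PowerSeries.map_X φ

theorem map_subst' {a : R⟦X⟧} (ha : PowerSeries.HasSubst a) (φ : R →+* S) (f : R⟦X⟧) :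
    PowerSeries.map φ (PowerSeries.subst a f) =
      PowerSeries.subst (PowerSeries.map φ a) (PowerSeries.map φ f) :=
  PowerSeries.map_subst ha f

theorem map_map' {T : Type*} [CommRing T] (φ : R →+* S) (ψ : S →+* T) (f : R⟦X⟧) :
    PowerSeries.map ψ (PowerSeries.map φ f) = PowerSeries.map (ψ.comp φ) f := by
  ext n
  simp

theorem map_hs {a : R⟦X⟧} (ha : constantCoeff a = 0) (φ : R →+* S) :
    constantCoeff (PowerSeries.map φ a) = 0 := by
  rw [← PowerSeries.coeff_zero_eq_constantCoeff_apply, PowerSeries.coeff_map,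
    PowerSeries.coeff_zero_eq_constantCoeff_apply, ha, map_zero]

theorem subst_subst' {a b : R⟦X⟧} (ha : constantCoeff a = 0) (hb : constantCoeff b = 0)
    (f : R⟦X⟧) : PowerSeries.subst b (PowerSeries.subst a f) =
      PowerSeries.subst (PowerSeries.subst b a : R⟦X⟧) f :=
  PowerSeries.subst_comp_subst_apply (hs_zero ha) (hs_zero hb) f

theorem cc_subst {a : R⟦X⟧} (ha : constantCoeff a = 0) {f : R⟦X⟧} (hf : constantCoeff f = 0) :
    constantCoeff (PowerSeries.subst a f : R⟦X⟧) = 0 :=
  PowerSeries.constantCoeff_subst_eq_zero ha f hf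

end subst

/-! ### homomorphisms -/

/-- `f (F (a, b)) = G (f a, f b)` -/
theorem IsHom.eval {F G : FormalGroup R} {f : R⟦X⟧} (h : IsHom F G f) {σ : Type*}
    {a b : MvPowerSeries σ R} (ha : PowerSeries.HasSubst a) (hb : PowerSeries.HasSubst b) :
    PowerSeries.subst (MvPowerSeries.subst ![a, b] F.toPowerSeries) f =
      MvPowerSeries.subst ![PowerSeries.subst a f, PowerSeries.subst b f] G.toPowerSeries := by
  have hab := hasSubst_pair ha hb
  have h1 := congrArg (MvPowerSeries.subst ![a, b]) h.2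
  rw [mv_subst_subst (hs_F F) hab, mv_subst_pair (hs_subst (PowerSeries.HasSubst.X 0) h.1)
    (hs_subst (PowerSeries.HasSubst.X 1) h.1) hab, mv_subst_subst (PowerSeries.HasSubst.X 0) hab,
    mv_subst_subst (PowerSeries.HasSubst.X 1) hab, MvPowerSeries.subst_X hab,
    MvPowerSeries.subst_X hab] at h1
  exact h1

theorem IsHom.refl (F : FormalGroup R) : IsHom F F (X : R⟦X⟧) := by
  refine ⟨PowerSeries.constantCoeff_X, ?_⟩
  rw [PowerSeries.subst_X (hs_F F), PowerSeries.subst_X (PowerSeries.HasSubst.X 0),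
    PowerSeries.subst_X (PowerSeries.HasSubst.X 1), pair_X, MvPowerSeries.subst_self]
  rfl

/-- composition: first `f : F → G`, then `g : G → H`; the composite is `g ∘ f = subst f g`. -/
theorem IsHom.comp {F G H : FormalGroup R} {f g : R⟦X⟧} (hf : IsHom F G f) (hg : IsHom G H g) :
    IsHom F H (PowerSeries.subst f g) := by
  refine ⟨cc_subst hf.1 hg.1, ?_⟩
  rw [PowerSeries.subst_comp_subst_apply (hs_zero hf.1) (hs_F F),
    PowerSeries.subst_comp_subst_apply (hs_zero hf.1) (PowerSeries.HasSubst.X 0),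
    PowerSeries.subst_comp_subst_apply (hs_zero hf.1) (PowerSeries.HasSubst.X 1), hf.2,
    hg.eval (hs_subst (PowerSeries.HasSubst.X 0) hf.1) (hs_subst (PowerSeries.HasSubst.X 1) hf.1)]

theorem IsHom.map {F G : FormalGroup R} {f : R⟦X⟧} (h : IsHom F G f) (φ : R →+* S) :
    IsHom (F.map φ) (G.map φ) (PowerSeries.map φ f) := by
  refine ⟨map_hs h.1 φ, ?_⟩
  have h1 := congrArg (MvPowerSeries.map φ) h.2
  rw [PowerSeries.map_subst (hs_F F), map_pair (hs_subst (PowerSeries.HasSubst.X 0) h.1)
    (hs_subst (PowerSeries.HasSubst.X 1) h.1), PowerSeries.map_subst (PowerSeries.HasSubst.X 0),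
    PowerSeries.map_subst (PowerSeries.HasSubst.X 1), MvPowerSeries.map_X,
    MvPowerSeries.map_X] at h1
  exact h1

theorem cc_mulSer (F : FormalGroup R) (n : ℕ) : constantCoeff (mulSer F n) = 0 := by
  induction n with
  | zero => exact map_zero _
  | succ n ih => exact cc_F_subst F ih PowerSeries.constantCoeff_X

/-- a homomorphism commutes with `[n]` -/
theorem IsHom.mulSer {F G : FormalGroup R} {f : R⟦X⟧} (h : IsHom F G f) (n : ℕ) :
    PowerSeries.subst (mulSer F n) f = PowerSeries.subst f (mulSer G n) := by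
  induction n with
  | zero =>
    change PowerSeries.subst (0 : R⟦X⟧) f = PowerSeries.subst f (0 : R⟦X⟧)
    rw [PowerSeries.subst_zero_of_constantCoeff_zero h.1, ← PowerSeries.coe_substAlgHom (hs_zero h.1),
      map_zero]
  | succ n ih =>
    change PowerSeries.subst (MvPowerSeries.subst ![CA.mulSer F n, (X : R⟦X⟧)] F.toPowerSeries) f =
      PowerSeries.subst f (MvPowerSeries.subst ![CA.mulSer G n, (X : R⟦X⟧)] G.toPowerSeries : R⟦X⟧)
    have e2 : PowerSeries.subst (X : R⟦X⟧) f = f := PowerSeries.X_subst f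
    rw [h.eval (hs_zero (cc_mulSer F n)) PowerSeries.HasSubst.X',
      subst_pair (hs_zero (cc_mulSer G n)) PowerSeries.HasSubst.X' (hs_zero h.1), ih,
      PowerSeries.subst_X (hs_zero h.1), e2]

theorem mulSer_map (F : FormalGroup R) (φ : R →+* S) (n : ℕ) :
    mulSer (F.map φ) n = PowerSeries.map φ (mulSer F n) := by
  induction n with
  | zero => exact (map_zero _).symm
  | succ n ih =>
    change MvPowerSeries.subst ![mulSer (F.map φ) n, (X : S⟦X⟧)] (F.map φ).toPowerSeries =
      MvPowerSeries.map φ (MvPowerSeries.subst ![mulSer F n, (X : R⟦X⟧)] F.toPowerSeries)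
    rw [map_pair (hs_zero (cc_mulSer F n)) PowerSeries.HasSubst.X', ih]
    exact congrArg (fun z => MvPowerSeries.subst ![_, z] _) (PowerSeries.map_X φ).symm

/-- the inverse series of a homomorphism is a homomorphism -/
theorem IsHom.symm {F G : FormalGroup R} {f f' : R⟦X⟧} (h : IsHom F G f)
    (h0 : constantCoeff f' = 0) (hl : PowerSeries.subst f f' = (X : R⟦X⟧))
    (hr : PowerSeries.subst f' f = (X : R⟦X⟧)) : IsHom G F f' := by
  refine ⟨h0, ?_⟩
  have key : ∀ {σ : Type} (a : MvPowerSeries σ R), PowerSeries.HasSubst a →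
      PowerSeries.subst (PowerSeries.subst a f') f = a := by
    intro σ a ha
    rw [← PowerSeries.subst_comp_subst_apply (hs_zero h0) ha, hr, PowerSeries.subst_X ha]
  have key' : ∀ {σ : Type} (a : MvPowerSeries σ R), PowerSeries.HasSubst a →
      PowerSeries.subst (PowerSeries.subst a f) f' = a := by
    intro σ a ha
    rw [← PowerSeries.subst_comp_subst_apply (hs_zero h.1) ha, hl, PowerSeries.subst_X ha]
  have hX0 := PowerSeries.HasSubst.X (S := R) (0 : Fin 2)
  have hX1 := PowerSeries.HasSubst.X (S := R) (1 : Fin 2)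
  have e := h.eval (hs_subst hX0 h0) (hs_subst hX1 h0)
  rw [key _ hX0, key _ hX1, pair_X, MvPowerSeries.subst_self] at e
  have e1 := congrArg (fun z => PowerSeries.subst z f') e
  simp only [id] at e1
  rw [key' _ (hs_F_subst F (hs_subst hX0 h0) (hs_subst hX1 h0))] at e1
  exact e1.symm

/-- a homomorphism with unit linear coefficient is an isomorphism -/
theorem IsHom.inv' {F G : FormalGroup R} {f : R⟦X⟧} (h : IsHom F G f) (hu : IsUnit (coeff 1 f)) :
    ∃ f' : R⟦X⟧, IsHom G F f' ∧ IsUnit (coeff 1 f') ∧ PowerSeries.subst f f' = (X : R⟦X⟧) ∧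
      PowerSeries.subst f' f = (X : R⟦X⟧) := by
  have hr := PowerSeries.subst_substInvOfIsUnit_right f h.1 hu
  have hl := PowerSeries.subst_substInvOfIsUnit_left f h.1 hu
  refine ⟨PowerSeries.substInvOfIsUnit f hu,
    h.symm (PowerSeries.constantCoeff_substInvOfIsUnit f hu) hl hr, ?_, hl, hr⟩
  rw [PowerSeries.coeff_one_substInvOfIsUnit]
  exact Units.isUnit _

/-- a homomorphism with unit linear coefficient is an isomorphism -/
theorem IsHom.inv {F G : FormalGroup R} {f : R⟦X⟧} (h : IsHom F G f) (hu : IsUnit (coeff 1 f)) :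
    ∃ f' : R⟦X⟧, IsHom G F f' ∧ PowerSeries.subst f f' = (X : R⟦X⟧) ∧
      PowerSeries.subst f' f = (X : R⟦X⟧) := by
  obtain ⟨f', h1, -, h2, h3⟩ := h.inv' hu
  exact ⟨f', h1, h2, h3⟩

/-! ### transport of structure -/

/-- `G (a, b) = f (F (f' a, f' b))` -/
private theorem conj_eval {F : FormalGroup R} {f f' : R⟦X⟧} (h0 : constantCoeff f' = 0)
    {σ : Type*} {a b : MvPowerSeries σ R} (ha : PowerSeries.HasSubst a)
    (hb : PowerSeries.HasSubst b) :
    MvPowerSeries.subst ![a, b] (PowerSeries.subst (MvPowerSeries.subst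
      ![PowerSeries.subst (MvPowerSeries.X 0 : MvPowerSeries (Fin 2) R) f',
        PowerSeries.subst (MvPowerSeries.X 1 : MvPowerSeries (Fin 2) R) f'] F.toPowerSeries) f) =
      PowerSeries.subst (MvPowerSeries.subst ![PowerSeries.subst a f', PowerSeries.subst b f']
        F.toPowerSeries) f := by
  have hab := hasSubst_pair ha hb
  have hX0 := PowerSeries.HasSubst.X (S := R) (0 : Fin 2)
  have hX1 := PowerSeries.HasSubst.X (S := R) (1 : Fin 2)
  rw [mv_subst_subst (hs_F_subst F (hs_subst hX0 h0) (hs_subst hX1 h0)) hab,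
    mv_subst_pair (hs_subst hX0 h0) (hs_subst hX1 h0) hab, mv_subst_subst hX0 hab,
    mv_subst_subst hX1 hab, MvPowerSeries.subst_X hab, MvPowerSeries.subst_X hab]
  rfl

private theorem conj_lin0 (G : MvPowerSeries (Fin 2) R) :
    PowerSeries.coeff 1 (MvPowerSeries.subst ![(X : R⟦X⟧), 0] G : R⟦X⟧) =
      MvPowerSeries.coeff (Finsupp.single 0 1) G := by
  rw [PowerSeries.coeff, MvPowerSeries.coeff_subst, finsum_eq_single _ (Finsupp.single 0 1)]
  · simp
  · intro d hd
    by_cases hd₁ : d 1 = 0
    · by_cases hd₀ : d 0 = 0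
      · simp [hd₀, hd₁]
      simp [hd₁, PowerSeries.coeff_X_pow]
      grind
    simp [hd₁]
  · exact MvPowerSeries.HasSubst.X_zero

private theorem conj_lin1 (G : MvPowerSeries (Fin 2) R) :
    PowerSeries.coeff 1 (MvPowerSeries.subst ![0, (X : R⟦X⟧)] G : R⟦X⟧) =
      MvPowerSeries.coeff (Finsupp.single 1 1) G := by
  rw [PowerSeries.coeff, MvPowerSeries.coeff_subst, finsum_eq_single _ (Finsupp.single 1 1)]
  · simp
  · intro d hd
    by_cases hd₁ : d 0 = 0
    · by_cases hd₀ : d 1 = 0
      · simp [hd₀, hd₁]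
      simp [hd₁, PowerSeries.coeff_X_pow]
      grind
    simp [hd₁]
  · exact MvPowerSeries.HasSubst.zero_X

/-- two inverse series -/
private theorem conj_main (F : FormalGroup R) {f f' : R⟦X⟧} (h : constantCoeff f = 0)
    (h0 : constantCoeff f' = 0) (hl : PowerSeries.subst f f' = (X : R⟦X⟧))
    (hr : PowerSeries.subst f' f = (X : R⟦X⟧)) :
    ∃ G : FormalGroup R, G.toPowerSeries = PowerSeries.subst (MvPowerSeries.subst
      ![PowerSeries.subst (MvPowerSeries.X 0 : MvPowerSeries (Fin 2) R) f',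
        PowerSeries.subst (MvPowerSeries.X 1 : MvPowerSeries (Fin 2) R) f'] F.toPowerSeries) f := by
  have key : ∀ {σ : Type} (a : MvPowerSeries σ R), PowerSeries.HasSubst a →
      PowerSeries.subst (PowerSeries.subst a f') f = a := by
    intro σ a ha
    rw [← PowerSeries.subst_comp_subst_apply (hs_zero h0) ha, hr, PowerSeries.subst_X ha]
  have key' : ∀ {σ : Type} (a : MvPowerSeries σ R), PowerSeries.HasSubst a →
      PowerSeries.subst (PowerSeries.subst a f) f' = a := by
    intro σ a ha
    rw [← PowerSeries.subst_comp_subst_apply (hs_zero h) ha, hl, PowerSeries.subst_X ha]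
  have hz : PowerSeries.subst (0 : R⟦X⟧) f' = (0 : R⟦X⟧) :=
    PowerSeries.subst_zero_of_constantCoeff_zero h0
  have hX0 := PowerSeries.HasSubst.X (S := R) (0 : Fin 2)
  have hX1 := PowerSeries.HasSubst.X (S := R) (1 : Fin 2)
  have hcc : MvPowerSeries.constantCoeff (PowerSeries.subst (MvPowerSeries.subst
      ![PowerSeries.subst (MvPowerSeries.X 0 : MvPowerSeries (Fin 2) R) f',
        PowerSeries.subst (MvPowerSeries.X 1 : MvPowerSeries (Fin 2) R) f']
          F.toPowerSeries) f) = 0 := by
    refine PowerSeries.constantCoeff_subst_eq_zero (cc_F_subst F ?_ ?_) f h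
    · exact PowerSeries.constantCoeff_subst_eq_zero (MvPowerSeries.constantCoeff_X _) f' h0
    · exact PowerSeries.constantCoeff_subst_eq_zero (MvPowerSeries.constantCoeff_X _) f' h0
  refine ⟨⟨_, hcc, ?_, ?_, ?_⟩, rfl⟩
  · rw [← conj_lin0, conj_eval h0 PowerSeries.HasSubst.X' PowerSeries.HasSubst.zero', hz,
      F.add_zero (hs_subst PowerSeries.HasSubst.X' h0), key _ PowerSeries.HasSubst.X']
    exact PowerSeries.coeff_one_X
  · rw [← conj_lin1, conj_eval h0 PowerSeries.HasSubst.zero' PowerSeries.HasSubst.X', hz,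
      F.zero_add (hs_subst PowerSeries.HasSubst.X' h0), key _ PowerSeries.HasSubst.X']
    exact PowerSeries.coeff_one_X
  · have hY : ∀ i : Fin 3, PowerSeries.HasSubst (MvPowerSeries.X i : MvPowerSeries (Fin 3) R) :=
      fun i => PowerSeries.HasSubst.X i
    have hG : ∀ (i j : Fin 3), PowerSeries.HasSubst (PowerSeries.subst (MvPowerSeries.subst
        ![PowerSeries.subst (MvPowerSeries.X i : MvPowerSeries (Fin 3) R) f',
          PowerSeries.subst (MvPowerSeries.X j : MvPowerSeries (Fin 3) R) f']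
            F.toPowerSeries) f) := fun i j =>
      hs_subst (hs_F_subst F (hs_subst (hY i) h0) (hs_subst (hY j) h0)) h
    rw [conj_eval h0 (hY 0) (hY 1), conj_eval h0 (hY 1) (hY 2), conj_eval h0 (hG 0 1) (hY 2),
      conj_eval h0 (hY 0) (hG 1 2), key' _ (hs_F_subst F (hs_subst (hY 0) h0) (hs_subst (hY 1) h0)),
      key' _ (hs_F_subst F (hs_subst (hY 1) h0) (hs_subst (hY 2) h0)),
      F.assoc' (hs_subst (hY 0) h0) (hs_subst (hY 1) h0) (hs_subst (hY 2) h0)]

/-- transport of structure along a series with unit linear coefficient -/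
theorem exists_conj (F : FormalGroup R) {f : R⟦X⟧} (h0 : constantCoeff f = 0)
    (hu : IsUnit (coeff 1 f)) : ∃ G : FormalGroup R, IsHom F G f ∧ (F.IsComm → G.IsComm) := by
  have hr := PowerSeries.subst_substInvOfIsUnit_right f h0 hu
  have hl := PowerSeries.subst_substInvOfIsUnit_left f h0 hu
  have hc := PowerSeries.constantCoeff_substInvOfIsUnit f hu
  obtain ⟨G, hG⟩ := conj_main F h0 hc hl hr
  have key' : ∀ {σ : Type} (a : MvPowerSeries σ R), PowerSeries.HasSubst a →
      PowerSeries.subst (PowerSeries.subst a f) (PowerSeries.substInvOfIsUnit f hu) = a := by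
    intro σ a ha
    rw [← PowerSeries.subst_comp_subst_apply (hs_zero h0) ha, hl, PowerSeries.subst_X ha]
  have hX0 := PowerSeries.HasSubst.X (S := R) (0 : Fin 2)
  have hX1 := PowerSeries.HasSubst.X (S := R) (1 : Fin 2)
  refine ⟨G, ⟨h0, ?_⟩, fun hF => ⟨?_⟩⟩
  · rw [hG, conj_eval hc (hs_subst hX0 h0) (hs_subst hX1 h0), key' _ hX0, key' _ hX1, pair_X,
      MvPowerSeries.subst_self]
    rfl
  · rw [hG, conj_eval hc hX1 hX0, F.comm' (hs_subst hX0 hc) (hs_subst hX1 hc)]

theorem IsHom.target_unique {F G G' : FormalGroup R} {f : R⟦X⟧} (h : IsHom F G f)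
    (h' : IsHom F G' f) (hu : IsUnit (coeff 1 f)) : G = G' := by
  have hr := PowerSeries.subst_substInvOfIsUnit_right f h.1 hu
  have hc := PowerSeries.constantCoeff_substInvOfIsUnit f hu
  have key : ∀ {σ : Type} (a : MvPowerSeries σ R), PowerSeries.HasSubst a →
      PowerSeries.subst (PowerSeries.subst a (PowerSeries.substInvOfIsUnit f hu)) f = a := by
    intro σ a ha
    rw [← PowerSeries.subst_comp_subst_apply (hs_zero hc) ha, hr, PowerSeries.subst_X ha]
  have hX0 := PowerSeries.HasSubst.X (S := R) (0 : Fin 2)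
  have hX1 := PowerSeries.HasSubst.X (S := R) (1 : Fin 2)
  have e := h.eval (hs_subst hX0 hc) (hs_subst hX1 hc)
  have e' := h'.eval (hs_subst hX0 hc) (hs_subst hX1 hc)
  rw [key _ hX0, key _ hX1, pair_X, MvPowerSeries.subst_self] at e e'
  exact FormalGroup.ext (e.symm.trans e')

theorem IsComm.map' {F : FormalGroup R} (h : F.IsComm) (φ : R →+* S) : (F.map φ).IsComm := by
  refine ⟨?_⟩
  have h1 := congrArg (MvPowerSeries.map φ) h.comm
  rw [map_pair (PowerSeries.HasSubst.X 1) (PowerSeries.HasSubst.X 0), MvPowerSeries.map_X,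
    MvPowerSeries.map_X] at h1
  exact h1

private theorem dvd_subst_left {s f : R⟦X⟧} {N : ℕ} (hs : (X : R⟦X⟧) ^ N ∣ s)
    (hs0 : constantCoeff s = 0) (hf : constantCoeff f = 0) :
    (X : R⟦X⟧) ^ N ∣ PowerSeries.subst s f := by
  obtain ⟨f₁, rfl⟩ := PowerSeries.X_dvd_iff.2 hf
  rw [PowerSeries.subst_mul (hs_zero hs0), PowerSeries.subst_X (hs_zero hs0)]
  exact Dvd.dvd.mul_right hs _

private theorem dvd_subst_right {s f : R⟦X⟧} {N : ℕ} (hs : (X : R⟦X⟧) ^ N ∣ s)
    (hf : constantCoeff f = 0) :
    (X : R⟦X⟧) ^ N ∣ PowerSeries.subst f s := by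
  obtain ⟨t, rfl⟩ := hs
  rw [PowerSeries.subst_mul (hs_zero hf), PowerSeries.subst_pow (hs_zero hf),
    PowerSeries.subst_X (hs_zero hf)]
  exact Dvd.dvd.mul_right (pow_dvd_pow_of_dvd (PowerSeries.X_dvd_iff.2 hf) N) _

private theorem span_le {F G : FormalGroup R} {f : R⟦X⟧} (h : IsHom F G f)
    (hu : IsUnit (coeff 1 f)) (n N : ℕ) :
    Ideal.span {x | ∃ i, i < N ∧ x = coeff i (mulSer G n)} ≤
      Ideal.span {x | ∃ i, i < N ∧ x = coeff i (mulSer F n)} := by
  set I := Ideal.span {x | ∃ i, i < N ∧ x = coeff i (mulSer F n)} with hI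
  obtain ⟨f', hf', hl, hr⟩ := h.inv hu
  have h1 : (X : (R ⧸ I)⟦X⟧) ^ N ∣ PowerSeries.map (Ideal.Quotient.mk I) (mulSer F n) := by
    rw [PowerSeries.X_pow_dvd_iff]
    intro i hi
    rw [PowerSeries.coeff_map, Ideal.Quotient.eq_zero_iff_mem]
    exact Ideal.subset_span ⟨i, hi, rfl⟩
  have h2 : (X : (R ⧸ I)⟦X⟧) ^ N ∣ PowerSeries.map (Ideal.Quotient.mk I) (mulSer G n) := by
    have e : mulSer G n = PowerSeries.subst f' (PowerSeries.subst (mulSer F n) f) := by
      rw [h.mulSer n, subst_subst' h.1 hf'.1, hr]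
      exact (PowerSeries.X_subst _).symm
    rw [e, map_subst' (hs_zero hf'.1), map_subst' (hs_zero (cc_mulSer F n))]
    exact dvd_subst_right (dvd_subst_left h1 (map_hs (cc_mulSer F n) _) (map_hs h.1 _))
      (map_hs hf'.1 _)
  rw [Ideal.span_le]
  rintro x ⟨i, hi, rfl⟩
  rw [PowerSeries.X_pow_dvd_iff] at h2
  have h3 := h2 i hi
  rw [PowerSeries.coeff_map, Ideal.Quotient.eq_zero_iff_mem] at h3
  exact h3

/-- the ideals generated by the first coefficients of `[n]` are isomorphism invariants -/
theorem span_coeff_mulSer {F G : FormalGroup R} {f : R⟦X⟧} (h : IsHom F G f)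
    (hu : IsUnit (coeff 1 f)) (n N : ℕ) :
    Ideal.span {x | ∃ i, i < N ∧ x = coeff i (mulSer F n)} =
      Ideal.span {x | ∃ i, i < N ∧ x = coeff i (mulSer G n)} := by
  obtain ⟨f', hf', hu', -, -⟩ := h.inv' hu
  exact le_antisymm (span_le hf' hu' n N) (span_le h hu n N)

/-! ### change of rings -/

theorem fmap_map {T : Type*} [CommRing T] (F : FormalGroup R) (φ : R →+* S) (ψ : S →+* T) :
    (F.map φ).map ψ = F.map (ψ.comp φ) := by
  apply FormalGroup.ext
  ext n
  simp

theorem fmap_id (F : FormalGroup R) (φ : R →+* R) (h : ∀ x, φ x = x) : F.map φ = F := by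
  apply FormalGroup.ext
  ext n
  simp [h]

theorem map_id' (φ : R →+* R) (h : ∀ x, φ x = x) (f : R⟦X⟧) : PowerSeries.map φ f = f := by
  ext n
  simp [h]

/-! ### the group of liftings -/

section lift

variable {k : Type*} [CommRing k] {A : Type*} [CommRing A] [Algebra k A] {F : FormalGroup A}

theorem Lift.f'_hom (a : Lift k F) : IsHom (F.map (a.g : A →+* A)) F a.f' :=
  a.hom.symm a.zero' a.left a.right

@[ext] theorem Lift.ext' {F : FormalGroup A} {a b : Lift k F} (h : a.g = b.g) (h' : a.f = b.f) :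
    a = b := by
  have h1 : a.f' = b.f' := by
    calc a.f' = PowerSeries.subst (X : A⟦X⟧) a.f' := (PowerSeries.X_subst _).symm
      _ = PowerSeries.subst (PowerSeries.subst b.f' a.f : A⟦X⟧) a.f' := by rw [h', b.right]
      _ = PowerSeries.subst b.f' (PowerSeries.subst a.f a.f') :=
        (subst_subst' a.hom.1 b.zero' a.f').symm
      _ = b.f' := by rw [a.left, PowerSeries.subst_X (hs_zero b.zero')]
  obtain ⟨g, f, f', _, _, _, _⟩ := a
  obtain ⟨g₂, f₂, f₂', _, _, _, _⟩ := b
  simp only at h h' h1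
  subst h h' h1
  rfl

/-- the product of two liftings -/
noncomputable def Lift.mul (a b : Lift k F) : Lift k F where
  g := a.g * b.g
  f := PowerSeries.subst a.f (PowerSeries.map (a.g : A →+* A) b.f)
  f' := PowerSeries.subst (PowerSeries.map (a.g : A →+* A) b.f') a.f'
  hom := by
    have h1 := a.hom.comp (b.hom.map (a.g : A →+* A))
    rw [fmap_map] at h1
    have e : (a.g : A →+* A).comp (b.g : A →+* A) = ((a.g * b.g : A ≃ₐ[k] A) : A →+* A) :=
      RingHom.ext fun _ => rfl
    rw [e] at h1
    exact h1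
  zero' := cc_subst (map_hs b.zero' _) a.zero'
  left := by
    rw [subst_subst' (map_hs b.zero' _) (cc_subst a.hom.1 (map_hs b.hom.1 _)),
      ← subst_subst' (map_hs b.hom.1 _) a.hom.1, ← map_subst' (hs_zero b.hom.1), b.left, map_X',
      PowerSeries.subst_X (hs_zero a.hom.1), a.left]
  right := by
    rw [subst_subst' a.hom.1 (cc_subst (map_hs b.zero' _) a.zero'),
      ← subst_subst' a.zero' (map_hs b.zero' _), a.right,
      PowerSeries.subst_X (hs_zero (map_hs b.zero' _)), ← map_subst' (hs_zero b.zero'), b.right,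
      map_X']

/-- the trivial lifting -/
noncomputable def Lift.one : Lift k F where
  g := 1
  f := X
  f' := X
  hom := by
    rw [fmap_id F _ (fun _ => rfl)]
    exact IsHom.refl F
  zero' := PowerSeries.constantCoeff_X
  left := PowerSeries.subst_X PowerSeries.HasSubst.X'
  right := PowerSeries.subst_X PowerSeries.HasSubst.X'

/-- the inverse lifting -/
noncomputable def Lift.invL (a : Lift k F) : Lift k F where
  g := a.g⁻¹
  f := PowerSeries.map ((a.g⁻¹ : A ≃ₐ[k] A) : A →+* A) a.f'
  f' := PowerSeries.map ((a.g⁻¹ : A ≃ₐ[k] A) : A →+* A) a.f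
  hom := by
    have h1 := a.f'_hom.map ((a.g⁻¹ : A ≃ₐ[k] A) : A →+* A)
    rw [fmap_map, fmap_id F _ (fun x => a.g.symm_apply_apply x)] at h1
    exact h1
  zero' := map_hs a.hom.1 _
  left := by rw [← map_subst' (hs_zero a.zero'), a.right, map_X']
  right := by rw [← map_subst' (hs_zero a.hom.1), a.left, map_X']

end lift

variable (k : Type*) [CommRing k] {A : Type*} [CommRing A] [Algebra k A]

/-- `(a * b).g = a.g ∘ b.g`, `(a * b).f = (a.g b.f) ∘ a.f`, `(a * b).f' = a.f' ∘ (a.g b.f')`. -/
noncomputable instance (F : FormalGroup A) : Group (Lift k F) :=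
  letI : Mul (Lift k F) := ⟨Lift.mul⟩
  letI : One (Lift k F) := ⟨Lift.one⟩
  letI : Inv (Lift k F) := ⟨Lift.invL⟩
  Group.ofLeftAxioms
    (by
      intro a b c
      refine Lift.ext' (mul_assoc a.g b.g c.g) ?_
      change PowerSeries.subst (PowerSeries.subst a.f (PowerSeries.map (a.g : A →+* A) b.f) : A⟦X⟧)
          (PowerSeries.map ((a.g * b.g : A ≃ₐ[k] A) : A →+* A) c.f) =
        PowerSeries.subst a.f (PowerSeries.map (a.g : A →+* A)
          (PowerSeries.subst b.f (PowerSeries.map (b.g : A →+* A) c.f)))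
      rw [map_subst' (hs_zero b.hom.1), map_map', subst_subst' (map_hs b.hom.1 _) a.hom.1]
      rfl)
    (by
      intro a
      refine Lift.ext' (one_mul a.g) ?_
      change PowerSeries.subst (X : A⟦X⟧)
        (PowerSeries.map ((1 : A ≃ₐ[k] A) : A →+* A) a.f) = a.f
      rw [map_id' _ (fun _ => rfl)]
      exact PowerSeries.X_subst a.f)
    (by
      intro a
      refine Lift.ext' (inv_mul_cancel a.g) ?_
      change PowerSeries.subst (PowerSeries.map ((a.g⁻¹ : A ≃ₐ[k] A) : A →+* A) a.f')
        (PowerSeries.map ((a.g⁻¹ : A ≃ₐ[k] A) : A →+* A) a.f) = (X : A⟦X⟧)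
      rw [← map_subst' (hs_zero a.zero'), a.right, map_X'])

variable {k}

theorem Lift.mul_g {F : FormalGroup A} (a b : Lift k F) : (a * b).g = a.g * b.g := rfl

theorem Lift.mul_f {F : FormalGroup A} (a b : Lift k F) :
    (a * b).f = PowerSeries.subst a.f (PowerSeries.map (a.g : A →+* A) b.f) := rfl

theorem Lift.one_g {F : FormalGroup A} : (1 : Lift k F).g = 1 := rfl

theorem Lift.one_f {F : FormalGroup A} : (1 : Lift k F).f = (X : A⟦X⟧) := rfl

theorem Lift.inv_g {F : FormalGroup A} (a : Lift k F) : (a⁻¹).g = a.g⁻¹ := rfl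

theorem Lift.inv_f {F : FormalGroup A} (a : Lift k F) :
    (a⁻¹).f = PowerSeries.map ((a.g⁻¹ : A ≃ₐ[k] A) : A →+* A) a.f' := rfl

/-- coefficient of index one of a composite -/
theorem coeff_one_subst {a f : R⟦X⟧} (ha : constantCoeff a = 0) (hf : constantCoeff f = 0) :
    coeff 1 (PowerSeries.subst a f : R⟦X⟧) = coeff 1 a * coeff 1 f := by
  obtain ⟨g, rfl⟩ := PowerSeries.X_dvd_iff.2 ha
  obtain ⟨g', rfl⟩ := PowerSeries.X_dvd_iff.2 hf
  rw [PowerSeries.subst_mul (hs_zero ha), PowerSeries.subst_X (hs_zero ha)]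
  have h2 : constantCoeff (PowerSeries.subst (X * g) g' : R⟦X⟧) = constantCoeff g' := by
    have h4 := PowerSeries.constantCoeff_subst (hs_zero ha) g'
    obtain ⟨g₂, h₂⟩ := PowerSeries.X_dvd_iff.2 (show constantCoeff (g' - C (constantCoeff g')) = 0
      by simp)
    have h3 : g' = C (constantCoeff g') + X * g₂ := by rw [← h₂]; ring
    have h5 : constantCoeff (PowerSeries.subst (X * g) (C (constantCoeff g') + X * g₂) : R⟦X⟧) =
        constantCoeff g' := by
      rw [PowerSeries.subst_add (hs_zero ha), PowerSeries.subst_mul (hs_zero ha),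
        PowerSeries.subst_X (hs_zero ha), map_add, map_mul, ha, zero_mul, add_zero]
      rw [← PowerSeries.coe_substAlgHom (hs_zero ha)]
      have h6 : (PowerSeries.substAlgHom (hs_zero ha)) (C (constantCoeff g')) =
          (C (constantCoeff g') : R⟦X⟧) := by
        exact (PowerSeries.substAlgHom (hs_zero ha)).commutes (constantCoeff g')
      rw [h6]
      simp
    rw [← h3] at h5
    exact h5
  rw [mul_assoc, PowerSeries.coeff_succ_X_mul, PowerSeries.coeff_succ_X_mul,
    PowerSeries.coeff_succ_X_mul, PowerSeries.coeff_zero_eq_constantCoeff_apply, map_mul, h2,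
    PowerSeries.coeff_zero_eq_constantCoeff_apply, PowerSeries.coeff_zero_eq_constantCoeff_apply]

theorem Lift.isUnit {F : FormalGroup A} (a : Lift k F) : IsUnit (coeff 1 a.f) := by
  have h := congrArg (coeff 1) a.left
  rw [coeff_one_subst a.hom.1 a.zero', PowerSeries.coeff_one_X] at h
  exact IsUnit.of_mul_eq_one _ h

/-- an isomorphism with its automorphism is a lifting -/
theorem Lift.exists_of {F : FormalGroup A} (g : A ≃ₐ[k] A) (f : A⟦X⟧)
    (h : IsHom F (F.map (g : A →+* A)) f) (hu : IsUnit (coeff 1 f)) :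
    ∃ a : Lift k F, a.g = g ∧ a.f = f := by
  obtain ⟨f', h1, h2, h3⟩ := h.inv hu
  exact ⟨⟨g, f, f', h, h1.1, h2, h3⟩, rfl, rfl⟩

/-! ### reduction -/

section red

variable {k : Type*} [Field k] {σ : Type*}

theorem cc_equiv (g : MvPowerSeries σ k ≃ₐ[k] MvPowerSeries σ k) (x : MvPowerSeries σ k) :
    MvPowerSeries.constantCoeff (g x) = MvPowerSeries.constantCoeff x := by
  set c := MvPowerSeries.constantCoeff x with hc
  have h1 : ¬ IsUnit (x - algebraMap k (MvPowerSeries σ k) c) := by
    rw [MvPowerSeries.isUnit_iff_constantCoeff, map_sub]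
    have h2 : MvPowerSeries.constantCoeff (algebraMap k (MvPowerSeries σ k) c) = c :=
      MvPowerSeries.constantCoeff_C c
    rw [h2, ← hc, sub_self]
    exact not_isUnit_zero
  have h3 : ¬ IsUnit (g x - algebraMap k (MvPowerSeries σ k) c) := by
    intro h4
    apply h1
    have h5 := h4.map (g.symm : MvPowerSeries σ k →+* MvPowerSeries σ k)
    have h6 : (g.symm : MvPowerSeries σ k →+* MvPowerSeries σ k)
        (g x - algebraMap k (MvPowerSeries σ k) c) = x - algebraMap k (MvPowerSeries σ k) c := by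
      rw [map_sub]
      congr 1
      · exact g.symm_apply_apply x
      · exact g.symm.commutes c
    rw [h6] at h5
    exact h5
  rw [MvPowerSeries.isUnit_iff_constantCoeff, map_sub] at h3
  have h2 : MvPowerSeries.constantCoeff (algebraMap k (MvPowerSeries σ k) c) = c :=
    MvPowerSeries.constantCoeff_C c
  rw [h2, isUnit_iff_ne_zero, not_not, sub_eq_zero] at h3
  exact h3

theorem cc_comp (g : MvPowerSeries σ k ≃ₐ[k] MvPowerSeries σ k) :
    (MvPowerSeries.constantCoeff (σ := σ) (R := k)).comp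
      (g : MvPowerSeries σ k →+* MvPowerSeries σ k) = MvPowerSeries.constantCoeff :=
  RingHom.ext fun x => cc_equiv g x

theorem red_map (g : MvPowerSeries σ k ≃ₐ[k] MvPowerSeries σ k)
    (f : (MvPowerSeries σ k)⟦X⟧) :
    red (PowerSeries.map (g : MvPowerSeries σ k →+* MvPowerSeries σ k) f) = red f := by
  unfold red
  rw [map_map', cc_comp]

theorem special_map (F : FormalGroup (MvPowerSeries σ k))
    (g : MvPowerSeries σ k ≃ₐ[k] MvPowerSeries σ k) :
    special (F.map (g : MvPowerSeries σ k →+* MvPowerSeries σ k)) = special F := by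
  unfold special
  rw [fmap_map, cc_comp]

theorem red_subst {a : (MvPowerSeries σ k)⟦X⟧} (ha : constantCoeff a = 0)
    (f : (MvPowerSeries σ k)⟦X⟧) :
    red (PowerSeries.subst a f) = PowerSeries.subst (red a) (red f) :=
  map_subst' (hs_zero ha) _ f

theorem red_X : red (X : (MvPowerSeries σ k)⟦X⟧) = (X : k⟦X⟧) := map_X' _

/-- the reduction of a lifting is an automorphism of the special fibre -/
theorem Lift.red_hom {F : FormalGroup (MvPowerSeries σ k)} (a : Lift k F) :
    IsHom (special F) (special F) (red a.f) := by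
  have h := a.hom.map (MvPowerSeries.constantCoeff (σ := σ) (R := k))
  have e : (F.map (a.g : MvPowerSeries σ k →+* MvPowerSeries σ k)).map
      (MvPowerSeries.constantCoeff (σ := σ) (R := k)) = special F := special_map F a.g
  rw [e] at h
  exact h

theorem Lift.red_mul {F : FormalGroup (MvPowerSeries σ k)} (a b : Lift k F) :
    red (a * b).f = PowerSeries.subst (red a.f) (red b.f) := by
  rw [Lift.mul_f, red_subst a.hom.1, red_map]

theorem Lift.red_one {F : FormalGroup (MvPowerSeries σ k)} :
    red (1 : Lift k F).f = (X : k⟦X⟧) := red_X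

/-- the reduction of a lifting -/
noncomputable def Lift.redA {F : FormalGroup (MvPowerSeries σ k)} (a : Lift k F) :
    Lift k (special F) where
  g := 1
  f := red a.f
  f' := red a.f'
  hom := by
    rw [fmap_id (special F) _ (fun _ => rfl)]
    exact a.red_hom
  zero' := map_hs a.zero' _
  left := by rw [← red_subst a.hom.1, a.left, red_X]
  right := by rw [← red_subst a.zero', a.right, red_X]

end red

/-- Reduction to the special fibre, a homomorphism for the group laws above: `(redL a).f = red a.f`. -/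
noncomputable def redL {k : Type*} [Field k] {m : ℕ} (F : FormalGroup (MvPowerSeries (Fin m) k)) :
    Lift k F →* Lift k (special F) where
  toFun a := a.redA
  map_one' := Lift.ext' rfl red_X
  map_mul' a b := by
    refine Lift.ext' (one_mul (1 : k ≃ₐ[k] k)).symm ?_
    change red (a * b).f = PowerSeries.subst (red a.f)
      (PowerSeries.map ((1 : k ≃ₐ[k] k) : k →+* k) (red b.f))
    rw [map_id' _ (fun _ => rfl), Lift.red_mul]

theorem redL_f {k : Type*} [Field k] {m : ℕ} {F : FormalGroup (MvPowerSeries (Fin m) k)}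
    (a : Lift k F) : (redL F a).f = red a.f := rfl

theorem redL_g {k : Type*} [Field k] {m : ℕ} {F : FormalGroup (MvPowerSeries (Fin m) k)}
    (a : Lift k F) : (redL F a).g = 1 := rfl

end Pool.Agent.H13.CA
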