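import Pool.Agent.H13.CA.Univ
import Pool.Agent.H49.LX.Lft

/-!
# The closed fibre theorem as an equivalence

For a universal deformation `F` every automorphism of the special fibre has exactly one lifting, and a
prime ideal is stable under the liftings of all automorphisms `≡ x mod x ^ N` for some `N` iff it is
one of the ideals `Iw p F j`.
-/

open MvPowerSeries

namespace Pool.Agent.H13.CA

variable {k : Type*} [Field k] {m : ℕ}

/-- good coordinates -/
theorem IsUniv.exists_coord (p : ℕ) [Fact p.Prime] [CharP k p]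
    {F : FormalGroup (MvPowerSeries (Fin m) k)} (hF : IsUniv k p m F) :
    ∃ e : MvPowerSeries (Fin m) k ≃ₐ[k] MvPowerSeries (Fin m) k,
      IsLT k p m (F.map (e : MvPowerSeries (Fin m) k →+* MvPowerSeries (Fin m) k)) ∧
      special (F.map (e : MvPowerSeries (Fin m) k →+* MvPowerSeries (Fin m) k)) = special F ∧
      ∀ j ≤ m, (Iw p F j).map (e : MvPowerSeries (Fin m) k →+* MvPowerSeries (Fin m) k) =
        Istd k m j := by
  classical
  have hrange : Iw p F m = Ideal.span (Set.range fun j : Fin m => cw p F j.val) := by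
    unfold Iw
    congr 1
    ext x
    constructor
    · rintro ⟨i, hi, rfl⟩
      exact ⟨⟨i, hi⟩, rfl⟩
    · rintro ⟨i, rfl⟩
      exact ⟨i.val, i.isLt, rfl⟩
  obtain ⟨ψ, hψ, -, -, hψc⟩ := Pool.Agent.H44.CA.exists_coord
    (fun j : Fin m => cw p F j.val) (by rw [← hrange]; exact hF.gen)
  set e : MvPowerSeries (Fin m) k ≃ₐ[k] MvPowerSeries (Fin m) k := ψ.symm with he
  have hew : ∀ j : Fin m, e (cw p F j.val) = X j := by
    intro j
    rw [he, ← hψ j, AlgEquiv.symm_apply_apply]
  set F' := F.map (e : MvPowerSeries (Fin m) k →+* MvPowerSeries (Fin m) k) with hF'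
  have hms : mulSer F' p = PowerSeries.map
      (e : MvPowerSeries (Fin m) k →+* MvPowerSeries (Fin m) k) (mulSer F p) := mulSer_map F _ p
  have hcw : ∀ j, cw p F' j = e (cw p F j) := by
    intro j
    rw [cw, hms, PowerSeries.coeff_map]
    rfl
  have hsp : special F' = special F := special_map F e
  have hcomm : F'.IsComm := IsComm.map' hF.comm _
  have hlt : IsLT k p m F' := by
    refine ⟨hcomm, ?_, ?_, ?_⟩
    · intro j hj i hi
      have hIp : (Istd k m j).IsPrime := Pool.Agent.H61.CA.Istd_prime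
      have hdom : IsDomain (MvPowerSeries (Fin m) k ⧸ Istd k m j) := Ideal.Quotient.isDomain _
      have hchar : CharP (MvPowerSeries (Fin m) k ⧸ Istd k m j) p :=
        charP_of_injective_algebraMap
          (algebraMap k (MvPowerSeries (Fin m) k ⧸ Istd k m j)).injective p
      have h1 := low_coeff p (IsComm.map' hcomm (Ideal.Quotient.mk (Istd k m j))) j ?_ i hi
      · rw [mulSer_map, PowerSeries.coeff_map] at h1
        exact Ideal.Quotient.eq_zero_iff_mem.1 h1
      · intro l hl
        rw [cw, mulSer_map, PowerSeries.coeff_map, Ideal.Quotient.eq_zero_iff_mem]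
        change cw p F' l ∈ Istd k m j
        rw [hcw, hew ⟨l, hl.trans_le hj⟩]
        exact mem_Istd_of_lt _ hl
    · intro j
      change cw p F' j.val - X j ∈ Istd k m j.val
      rw [hcw, hew, sub_self]
      exact zero_mem _
    · rw [MvPowerSeries.isUnit_iff_constantCoeff]
      have h1 := hF.height.2
      rw [← hsp, special, mulSer_map, PowerSeries.coeff_map] at h1
      exact h1
  refine ⟨e, hlt, hsp, ?_⟩
  intro j hj
  unfold Istd Iw
  rw [Ideal.map_span]
  congr 1
  ext x
  constructor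
  · rintro ⟨y, ⟨i, hi, rfl⟩, rfl⟩
    exact ⟨⟨i, hi.trans_le hj⟩, hi, hew ⟨i, hi.trans_le hj⟩⟩
  · rintro ⟨i, hi, rfl⟩
    exact ⟨cw p F i.val, ⟨i.val, hi, rfl⟩, hew i⟩

theorem comp_symm (e : MvPowerSeries (Fin m) k ≃ₐ[k] MvPowerSeries (Fin m) k) :
    (e.symm : MvPowerSeries (Fin m) k →+* MvPowerSeries (Fin m) k).comp
      (e : MvPowerSeries (Fin m) k →+* MvPowerSeries (Fin m) k) = RingHom.id _ :=
  RingHom.ext fun x => e.symm_apply_apply x

theorem transport_comp {F : FormalGroup (MvPowerSeries (Fin m) k)}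
    (e : MvPowerSeries (Fin m) k ≃ₐ[k] MvPowerSeries (Fin m) k) (a : Lift k F) :
    (((a.transport e).g : MvPowerSeries (Fin m) k ≃ₐ[k] MvPowerSeries (Fin m) k) :
      MvPowerSeries (Fin m) k →+* MvPowerSeries (Fin m) k).comp
      (e : MvPowerSeries (Fin m) k →+* MvPowerSeries (Fin m) k) =
      (e : MvPowerSeries (Fin m) k →+* MvPowerSeries (Fin m) k).comp
        (a.g : MvPowerSeries (Fin m) k →+* MvPowerSeries (Fin m) k) := by
  refine RingHom.ext fun x => ?_
  change e (a.g (e.symm (e x))) = e (a.g x)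
  rw [AlgEquiv.symm_apply_apply]

theorem red_transport {F : FormalGroup (MvPowerSeries (Fin m) k)}
    (e : MvPowerSeries (Fin m) k ≃ₐ[k] MvPowerSeries (Fin m) k) (a : Lift k F) :
    red (a.transport e).f = red a.f := red_map e a.f

/-- the ideals `Iw p F j` are stable under all liftings -/
theorem Iw_stable (p : ℕ) [Fact p.Prime] [CharP k p] {F : FormalGroup (MvPowerSeries (Fin m) k)}
    (hF : IsUniv k p m F) (a : Lift k F) {j : ℕ} (hj : j ≤ m) :
    (Iw p F j).map (a.g : MvPowerSeries (Fin m) k →+* MvPowerSeries (Fin m) k) = Iw p F j := by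
  obtain ⟨e, hlt, -, hI⟩ := hF.exists_coord p
  have h1 := Istd_stable p hlt (a.transport e) j
  rw [← hI j hj, Ideal.map_map, transport_comp, ← Ideal.map_map] at h1
  have h2 := congrArg (Ideal.map (e.symm : MvPowerSeries (Fin m) k →+*
    MvPowerSeries (Fin m) k)) h1
  rwa [Ideal.map_map, comp_symm, Ideal.map_id, Ideal.map_map, comp_symm, Ideal.map_id] at h2

/-- liftings are unique -/
theorem univ_lift_unique (p : ℕ) [Fact p.Prime] [CharP k p]
    {F : FormalGroup (MvPowerSeries (Fin m) k)} (hF : IsUniv k p m F) {a b : Lift k F}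
    (h : red a.f = red b.f) : a = b := by
  obtain ⟨e, hlt, -, -⟩ := hF.exists_coord p
  have h1 : a.transport e = b.transport e :=
    lift_unique p hlt (by rw [red_transport, red_transport, h])
  apply Lift.ext'
  · have h2 := congrArg Lift.g h1
    apply AlgEquiv.ext
    intro x
    have h3 := AlgEquiv.congr_fun h2 (e x)
    change e (a.g (e.symm (e x))) = e (b.g (e.symm (e x))) at h3
    rw [AlgEquiv.symm_apply_apply] at h3
    exact e.injective h3
  · have h2 := congrArg Lift.f h1
    change PowerSeries.map (e : MvPowerSeries (Fin m) k →+* MvPowerSeries (Fin m) k) a.f =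
      PowerSeries.map (e : MvPowerSeries (Fin m) k →+* MvPowerSeries (Fin m) k) b.f at h2
    ext1 i
    have h3 := congrArg (PowerSeries.coeff i) h2
    rw [PowerSeries.coeff_map, PowerSeries.coeff_map] at h3
    exact e.injective h3

/-- liftings exist -/
theorem univ_lift_exists (p : ℕ) [Fact p.Prime] [CharP k p]
    {F : FormalGroup (MvPowerSeries (Fin m) k)} (hF : IsUniv k p m F) {θ : PowerSeries k}
    (hθ : IsHom (special F) (special F) θ) (hu : IsUnit (PowerSeries.coeff 1 θ)) :
    ∃ a : Lift k F, red a.f = θ := by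
  obtain ⟨e, hlt, hsp, -⟩ := hF.exists_coord p
  obtain ⟨a, ha⟩ := Pool.Agent.H49.LX.lift_exists p hlt (by rw [hsp]; exact hθ) hu
  have hFF : (F.map (e : MvPowerSeries (Fin m) k →+* MvPowerSeries (Fin m) k)).map
      (e.symm : MvPowerSeries (Fin m) k →+* MvPowerSeries (Fin m) k) = F := by
    rw [fmap_map, comp_symm]
    exact fmap_id F _ fun _ => rfl
  have h : ∃ b : Lift k ((F.map (e : MvPowerSeries (Fin m) k →+* MvPowerSeries (Fin m) k)).map
      (e.symm : MvPowerSeries (Fin m) k →+* MvPowerSeries (Fin m) k)), red b.f = θ :=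
    ⟨a.transport e.symm, by rw [red_transport, ha]⟩
  rw [hFF] at h
  exact h

/-- Closed fibre theorem. -/
theorem closed_fibre (p : ℕ) [Fact p.Prime] [CharP k p]
    {F : FormalGroup (MvPowerSeries (Fin m) k)} (hF : IsUniv k p m F)
    (hA : AutDef (special F)) :
    (∀ θ : PowerSeries k, IsHom (special F) (special F) θ → IsUnit (PowerSeries.coeff 1 θ) →
      ∃! a : Lift k F, red a.f = θ) ∧
    ∀ P : Ideal (MvPowerSeries (Fin m) k), P.IsPrime →
      ((∃ N : ℕ, ∀ a : Lift k F, (PowerSeries.X : PowerSeries k) ^ N ∣ red a.f - PowerSeries.X →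
          P.map (a.g : MvPowerSeries (Fin m) k →+* MvPowerSeries (Fin m) k) ≤ P) ↔
        ∃ j, j ≤ m ∧ P = Iw p F j) := by
  refine ⟨fun θ hθ hu => ?_, fun P hP => ⟨?_, ?_⟩⟩
  · obtain ⟨a, ha⟩ := univ_lift_exists p hF hθ hu
    exact ⟨a, ha, fun b hb => univ_lift_unique p hF (by
      change red b.f = θ at hb
      rw [hb, ha])⟩
  · rintro ⟨N, hN⟩
    refine chai_univ_ground p F hF hA N P hP fun θ hθ hu hd => ?_
    obtain ⟨a, ha⟩ := univ_lift_exists p hF hθ hu
    exact ⟨a, ha, hN a (by rw [ha]; exact hd)⟩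
  · rintro ⟨j, hj, rfl⟩
    exact ⟨0, fun a _ => (Iw_stable p hF a hj).le⟩

end Pool.Agent.H13.CA
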