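import Pool.Agent.H88.CA.Inv

/-!
# CHAPTER INV (architect helper88): standard ideals are stable, `k((u))^V = k`
-/

open MvPowerSeries

namespace Pool.Agent.H13.CA

theorem Istd_stable {k : Type*} [Field k] (p : ℕ) [Fact p.Prime] [CharP k p] {m : ℕ}
    {F : FormalGroup (MvPowerSeries (Fin m) k)} (hF : IsLT k p m F) (a : Lift k F) (j : ℕ) :
    (Istd k m j).map (a.g : MvPowerSeries (Fin m) k →+* MvPowerSeries (Fin m) k) =
      Istd k m j := Pool.Agent.H88.CA.Istd_stable p hF a j

/-- `k((u))^V = k`: an invariant `x / y` is constant.  (WLOG `f = x / y ∈ u k⟦u⟧`; `u` is a root of a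
polynomial of degree `ord f` over `k⟦f⟧`, so a finite-index subgroup of `V` acts trivially.) -/
theorem inv_const {k : Type*} [Field k] [IsAlgClosed k] (p : ℕ) [Fact p.Prime] [CharP k p]
    {s : ℕ} {F : FormalGroup (MvPowerSeries (Fin (s + 1)) k)}
    (hF : IsLT k p (s + 1) F)
    {π : MvPowerSeries (Fin (s + 1)) k →ₐ[k] PowerSeries k} (hπ : IsProj k s π)
    (V : Subgroup (Lift k F)) (hV : Ample V)
    (x y : MvPowerSeries (Fin (s + 1)) k) (hy : π y ≠ 0)
    (hxy : ∀ a ∈ V, π (a.g x) * π y = π x * π (a.g y)) :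
    ∃ c : k, π x = c • π y := Pool.Agent.H88.CA.inv_const p hF hπ V hV x y hy hxy

end Pool.Agent.H13.CA
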