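import Pool.Agent.H13.CA.Com

/-!
# The Noetherian step: from `core` and `curve` to `ChaiA k p (s + 1)`
-/

open MvPowerSeries

namespace Pool.Agent.H13.CA

theorem krull_step {R : Type*} [CommRing R] [IsNoetherianRing R] {P P' M : Ideal R}
    (hP : P.IsPrime) (hP' : P'.IsPrime) (x : R) (hM : M ∈ (P ⊔ Ideal.span {x}).minimalPrimes)
    (h1 : P < P') (h2 : P' < M) : False := by
  have hMp : M.IsPrime := hM.isPrime
  have hle := Ideal.map_height_le_one_of_mem_minimalPrimes hM
  set f := Ideal.Quotient.mk P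
  have hf : Function.Surjective f := Ideal.Quotient.mk_surjective
  have hPM : P ≤ M := le_sup_left.trans hM.le
  have a1 : (M.map f).IsPrime := Ideal.map_isPrime_of_surjective hf (by rwa [Ideal.mk_ker])
  have a2 : (P'.map f).IsPrime := Ideal.map_isPrime_of_surjective hf (by
    rw [Ideal.mk_ker]; exact h1.le)
  have c1 : (M.map f).comap f = M := by
    rw [Ideal.comap_map_of_surjective f hf, ← RingHom.ker_eq_comap_bot, Ideal.mk_ker,
      sup_eq_left.mpr hPM]
  have c2 : (P'.map f).comap f = P' := by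
    rw [Ideal.comap_map_of_surjective f hf, ← RingHom.ker_eq_comap_bot, Ideal.mk_ker,
      sup_eq_left.mpr h1.le]
  have h_lt : P'.map f < M.map f := (Ideal.map_mono h2.le).lt_of_not_ge fun e ↦ h2.not_ge <| by
    have := Ideal.comap_mono (f := f) e
    rwa [c1, c2] at this
  have : (M.map f).FiniteHeight := ⟨Or.inr (hle.trans_lt (WithTop.coe_lt_top 1)).ne⟩
  have h3 := (Ideal.height_strict_mono_of_isPrime_of_isPrime h_lt).trans_le hle
  rw [Order.lt_one_iff, Ideal.height_eq_zero_iff] at h3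
  have : IsDomain (R ⧸ P) := Ideal.Quotient.isDomain P
  rw [IsDomain.minimalPrimes_eq_singleton_bot, Set.mem_singleton_iff] at h3
  have h4 : P' ≤ P := by
    rw [← c2, h3, ← RingHom.ker_eq_comap_bot, Ideal.mk_ker]
  exact h1.not_ge h4

section
variable {k : Type*} [Field k]

theorem Istd_mono (m : ℕ) {i j : ℕ} (h : i ≤ j) : Istd k m i ≤ Istd k m j := by
  refine Ideal.span_mono ?_
  rintro x ⟨l, hl, rfl⟩
  exact ⟨l, hl.trans_le h, rfl⟩

theorem mem_Istd_of_lt {m j : ℕ} (i : Fin m) (h : i.val < j) :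
    (X i : MvPowerSeries (Fin m) k) ∈ Istd k m j :=
  Ideal.subset_span ⟨i, h, rfl⟩

theorem Istd_le_iff {m j : ℕ} {P : Ideal (MvPowerSeries (Fin m) k)} :
    Istd k m j ≤ P ↔ ∀ i : Fin m, i.val < j → X i ∈ P := by
  constructor
  · intro h i hi
    exact h (mem_Istd_of_lt i hi)
  · intro h
    refine Ideal.span_le.2 ?_
    rintro x ⟨i, hi, rfl⟩
    exact h i hi

theorem Istd_succ {m j : ℕ} (hj : j < m) :
    Istd k m (j + 1) = Istd k m j ⊔ Ideal.span {(X ⟨j, hj⟩ : MvPowerSeries (Fin m) k)} := by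
  apply le_antisymm
  · rw [Istd_le_iff]
    intro i hi
    rcases Nat.lt_succ_iff_lt_or_eq.1 hi with h | h
    · exact Ideal.mem_sup_left (mem_Istd_of_lt i h)
    · have : i = ⟨j, hj⟩ := Fin.ext h
      rw [this]
      exact Ideal.mem_sup_right (Ideal.mem_span_singleton_self _)
  · refine sup_le (Istd_mono m (Nat.le_succ j)) ?_
    rw [Ideal.span_singleton_le_iff_mem]
    exact mem_Istd_of_lt _ (Nat.lt_succ_self j)

theorem Istd_zero {m : ℕ} : Istd k m 0 = ⊥ := by
  rw [eq_bot_iff, Istd_le_iff]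
  intro i hi
  exact absurd hi (Nat.not_lt_zero _)

/-- the case `m = 0` -/
theorem chai_zero (p : ℕ) : ChaiA k p 0 := by
  intro F _ P hP U _ _
  refine ⟨0, le_refl _, ?_⟩
  rw [Istd_zero, eq_bot_iff]
  intro x hx
  by_contra hne
  have hx0 : x ≠ 0 := hne
  have hc : constantCoeff x ≠ 0 := by
    intro h0
    apply hx0
    ext n
    have : n = 0 := Subsingleton.elim _ _
    rw [this]
    simpa using h0
  have hu : IsUnit x := by
    rw [MvPowerSeries.isUnit_iff_constantCoeff]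
    exact isUnit_iff_ne_zero.2 hc
  exact hP.ne_top (Ideal.eq_top_of_isUnit_mem _ hx hu)

/-- every proper ideal is inside the maximal ideal `Istd k m m` -/
theorem le_Istd_top {m : ℕ} {P : Ideal (MvPowerSeries (Fin m) k)} (hmax : (Istd k m m).IsMaximal)
    (hP : P ≠ ⊤) : P ≤ Istd k m m := by
  obtain ⟨M, hM, hle⟩ := Ideal.exists_le_maximal P hP
  have e1 := (IsLocalRing.eq_maximalIdeal hM)
  have e2 := (IsLocalRing.eq_maximalIdeal hmax)
  rw [e2, ← e1]; exact hle

/-- the Noetherian step -/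
theorem step (p : ℕ) {s : ℕ}
    (hmax : (Istd k (s + 1) (s + 1)).IsMaximal)
    (hIstd : ∀ F : FormalGroup (MvPowerSeries (Fin (s + 1)) k), IsLT k p (s + 1) F →
      ∀ (a : Lift k F) (j : ℕ), (Istd k (s + 1) j).map
        (a.g : MvPowerSeries (Fin (s + 1)) k →+* MvPowerSeries (Fin (s + 1)) k) =
          Istd k (s + 1) j)
    (hcore : ∀ F : FormalGroup (MvPowerSeries (Fin (s + 1)) k), IsLT k p (s + 1) F →
      ∀ P : Ideal (MvPowerSeries (Fin (s + 1)) k), P.IsPrime → P ≤ Istd k (s + 1) s →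
      ∀ V : Subgroup (Lift k F), Ample V →
        (∀ a ∈ V, P.map (a.g : MvPowerSeries (Fin (s + 1)) k →+*
          MvPowerSeries (Fin (s + 1)) k) ≤ P) → ∃ j, j ≤ s + 1 ∧ P = Istd k (s + 1) j)
    (hcurve : ∀ F : FormalGroup (MvPowerSeries (Fin (s + 1)) k), IsLT k p (s + 1) F →
      ∀ P : Ideal (MvPowerSeries (Fin (s + 1)) k), P.IsPrime →
      (∀ P' : Ideal (MvPowerSeries (Fin (s + 1)) k), P'.IsPrime → P < P' →
        P' = Istd k (s + 1) (s + 1)) →
      ∀ V : Subgroup (Lift k F), Ample V →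
        (∀ a ∈ V, P.map (a.g : MvPowerSeries (Fin (s + 1)) k →+*
          MvPowerSeries (Fin (s + 1)) k) ≤ P) → ∃ j, j ≤ s + 1 ∧ P = Istd k (s + 1) j)
    (hminp : ∀ F : FormalGroup (MvPowerSeries (Fin (s + 1)) k),
      ∀ U : Subgroup (Lift k F), Ample U →
        ∀ I : Ideal (MvPowerSeries (Fin (s + 1)) k),
        (∀ a ∈ U, I.map (a.g : MvPowerSeries (Fin (s + 1)) k →+*
          MvPowerSeries (Fin (s + 1)) k) ≤ I) →
        ∃ U' : Subgroup (Lift k F), Ample U' ∧ ∀ a ∈ U', ∀ Q ∈ I.minimalPrimes,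
          Q.map (a.g : MvPowerSeries (Fin (s + 1)) k →+* MvPowerSeries (Fin (s + 1)) k) ≤ Q) :
    ChaiA k p (s + 1) := by
  intro F hF P
  induction P using (wellFounded_gt (α := Ideal (MvPowerSeries (Fin (s + 1)) k))).induction with
  | _ P ih =>
  intro hP U hU hst
  by_cases hle : P ≤ Istd k (s + 1) s
  · exact hcore F hF P hP hle U hU hst
  by_cases hm : P = Istd k (s + 1) (s + 1)
  · exact ⟨s + 1, le_refl _, hm⟩
  have hPm : P ≤ Istd k (s + 1) (s + 1) := le_Istd_top hmax hP.ne_top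
  -- the first variable outside `P`
  have hex : ∃ j : ℕ, ∃ hj : j < s + 1, (X ⟨j, hj⟩ : MvPowerSeries (Fin (s + 1)) k) ∉ P := by
    by_contra hcon
    push Not at hcon
    apply hm
    apply le_antisymm hPm
    rw [Istd_le_iff]
    intro i hi
    exact hcon i.val i.isLt
  classical
  set h := Nat.find hex with hh
  obtain ⟨hlt, hX⟩ : ∃ hj : h < s + 1, (X ⟨h, hj⟩ : MvPowerSeries (Fin (s + 1)) k) ∉ P :=
    Nat.find_spec hex
  have hmin : ∀ j < h, ∀ hj : j < s + 1,
      (X ⟨j, hj⟩ : MvPowerSeries (Fin (s + 1)) k) ∈ P := by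
    intro j hj hj'
    by_contra hcon
    exact Nat.find_min hex hj ⟨hj', hcon⟩
  have hIh : Istd k (s + 1) h ≤ P := by
    rw [Istd_le_iff]
    intro i hi
    exact hmin i.val hi i.isLt
  set I : Ideal (MvPowerSeries (Fin (s + 1)) k) := P ⊔ Ideal.span {X ⟨h, hlt⟩} with hI
  have hI' : I = P ⊔ Istd k (s + 1) (h + 1) := by
    rw [Istd_succ hlt, ← sup_assoc, sup_eq_left.2 hIh]
  have hIst : ∀ a ∈ U, I.map (a.g : MvPowerSeries (Fin (s + 1)) k →+*
      MvPowerSeries (Fin (s + 1)) k) ≤ I := by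
    intro a ha
    rw [hI', Ideal.map_sup, hIstd F hF a (h + 1)]
    exact sup_le_sup_right (hst a ha) _
  obtain ⟨U', hU', hQ⟩ := hminp F U hU I hIst
  have hall : ∀ Q ∈ I.minimalPrimes, Q = Istd k (s + 1) (s + 1) := by
    intro Q hQm
    have hPQ : P < Q := by
      refine lt_of_le_of_ne (le_sup_left.trans hQm.le) ?_
      intro he
      apply hX
      rw [he]
      exact hQm.le (Ideal.mem_sup_right (Ideal.mem_span_singleton_self _))
    obtain ⟨j, hj, he⟩ := ih Q hPQ hQm.isPrime U' hU' (fun a ha => hQ a ha Q hQm)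
    have : j = s + 1 := by
      by_contra hne
      apply hle
      refine hPQ.le.trans ?_
      rw [he]
      exact Istd_mono (s + 1) (by omega)
    rw [he, this]
  refine hcurve F hF P hP ?_ U hU hst
  intro P' hP' hlt'
  by_contra hne
  have hP'm : P' < Istd k (s + 1) (s + 1) :=
    lt_of_le_of_ne (le_Istd_top hmax hP'.ne_top) hne
  have hIm : I ≤ Istd k (s + 1) (s + 1) :=
    sup_le hPm (by
      rw [Ideal.span_singleton_le_iff_mem]
      exact mem_Istd_of_lt _ hlt)
  have : (Istd k (s + 1) (s + 1)).IsPrime := hmax.isPrime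
  obtain ⟨Q, hQ1, hQ2⟩ := Ideal.exists_minimalPrimes_le hIm
  have hQe := hall Q hQ1
  rw [hQe] at hQ1
  exact krull_step hP hP' _ hQ1 hlt' hP'm

end

end Pool.Agent.H13.CA
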