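import Pool.Agent.H13.CA.Core
import Pool.Agent.H13.CA.Step
import Pool.Agent.H13.CA.Fin
import Pool.Agent.H49.CA.Minp
import Pool.Agent.H61.CA.Std
import Pool.Agent.H66.CA.Exp

/-!
# Chai's Hope for all heights, closed fibre: the final theorem

Let `k` be an algebraically closed field of characteristic `p`, `n = m + 1`, `F` a universal
deformation of a formal group law `Γ` of height `n` over `k⟦u_1, .., u_m⟧`, `N` a natural number, `P`
a prime ideal such that every automorphism `θ ≡ x mod x ^ N` of `Γ` lifts to an isomorphism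
`f : F → g_* F`, `g` a `k`-automorphism of `k⟦u_1, .., u_m⟧` with `g P ⊆ P`.  Then `P` is one of the
ideals `(u_1, .., u_j)`, `0 ≤ j ≤ m`.
-/

open MvPowerSeries

namespace Pool.Agent.H13.CA

/-- for some `M ≥ 1` all `M`-th iterates of automorphisms are `≡ x mod x ^ N` -/
theorem exponent {k : Type*} [Field k] (p : ℕ) [Fact p.Prime] [CharP k p]
    {h : ℕ} (hh : 1 ≤ h) {Γ : FormalGroup k} (hΓ' : HasHeight p h Γ) (N : ℕ) :
    ∃ M, 1 ≤ M ∧ ∀ θ : PowerSeries k, IsHom Γ Γ θ → IsUnit (PowerSeries.coeff 1 θ) →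
      (PowerSeries.X : PowerSeries k) ^ N ∣ iter θ M - PowerSeries.X :=
  Pool.Agent.H66.CA.exponent p hh hΓ' N

theorem Istd_top_isMaximal (k : Type*) [Field k] (m : ℕ) : (Istd k m m).IsMaximal := by
  have e : Istd k m m = RingHom.ker (constantCoeff (σ := Fin m) (R := k)) := by
    ext x
    rw [RingHom.mem_ker]
    exact Pool.Agent.H61.CA.mem_Istd_top
  rw [e]
  exact RingHom.ker_isMaximal_of_surjective _ (fun a => ⟨C a, by simp⟩)

theorem chai_at (k : Type*) [Field k] [IsAlgClosed k] (p : ℕ) [Fact p.Prime] [CharP k p] (m : ℕ) :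
    ChaiA k p m := by
  induction m with
  | zero => exact chai_zero p
  | succ s ih =>
    refine step p (Istd_top_isMaximal k (s + 1)) ?_ ?_ ?_ ?_
    · intro F hF a j
      exact Istd_stable p hF a j
    · intro F hF P hP hle V hV hst
      exact core p hF ih P hP hle V hV hst
    · intro F hF P hP h1 V hV hst
      exact curve p hF P hP h1 V hV hst
    · intro F U hU I hI
      obtain ⟨U', _, h2, h3⟩ := Pool.Agent.H49.CA.ample_minp U hU I hI
      exact ⟨U', h2, h3⟩

/-- Chai's Hope, closed fibre, all heights. -/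
theorem chai (k : Type*) [Field k] [IsAlgClosed k] (p : ℕ) [Fact p.Prime] [CharP k p] (m : ℕ)
    (F : FormalGroup (MvPowerSeries (Fin m) k)) (hF : IsLT k p m F) (N : ℕ)
    (P : Ideal (MvPowerSeries (Fin m) k)) (hP : P.IsPrime)
    (hst : ∀ θ : PowerSeries k, IsHom (special F) (special F) θ →
      IsUnit (PowerSeries.coeff 1 θ) → (PowerSeries.X : PowerSeries k) ^ N ∣ θ - PowerSeries.X →
        ∃ a : Lift k F, red a.f = θ ∧
          P.map (a.g : MvPowerSeries (Fin m) k →+* MvPowerSeries (Fin m) k) ≤ P) :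
    ∃ j, j ≤ m ∧ P = Istd k m j :=
  chai_of hF (fun _ hΓ N => exponent p (Nat.succ_le_succ (Nat.zero_le m)) hΓ N)
    (chai_at k p m) N P hP hst

end Pool.Agent.H13.CA
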