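import Pool.Agent.H13.CA.Com
import Pool.Agent.H86.FG.Fg

/-!
# CHAPTER NF (architect helper86): normal forms of deformations

`Nrm p h Γ G`: the coefficients of `[p]_G` of index `p ^ h * i`, `i ≥ 1`, are those of `[p]_Γ`.
All statements are proved in `Pool/Agent/H86/FG/Fg.lean`.
-/

open MvPowerSeries

namespace Pool.Agent.H13.CA

/-- normal form relative to the special fibre `Γ` of height `h` -/
def Nrm (p h : ℕ) {k : Type*} [Field k] (Γ : FormalGroup k) {L : Type*} [Field L] [Algebra k L]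
    {s : ℕ} (G : FormalGroup (MvPowerSeries (Fin s) L)) : Prop := H86.FG.Nrm p h Γ G

variable {k L : Type*} [Field k] [Field L] [Algebra k L] (p : ℕ) [Fact p.Prime] [CharP k p]
  {s : ℕ}

theorem nf_exists {h : ℕ} {Γ : FormalGroup k} (hΓ : Γ.IsComm) (hΓ' : HasHeight p h Γ)
    {G : FormalGroup (MvPowerSeries (Fin s) L)} (hG : G.IsComm)
    (hs : special G = Γ.map (algebraMap k L)) :
    ∃ (G' : FormalGroup (MvPowerSeries (Fin s) L)) (B : PowerSeries (MvPowerSeries (Fin s) L)),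
      IsHom G G' B ∧ red B = PowerSeries.X ∧ G'.IsComm ∧
        special G' = Γ.map (algebraMap k L) ∧ Nrm p h Γ G' :=
  H86.FG.nf_exists hΓ hΓ' hG hs

theorem nf_unique {h : ℕ} {Γ : FormalGroup k} (hΓ : Γ.IsComm)
    (hΓ' : HasHeight p h Γ) {G G' : FormalGroup (MvPowerSeries (Fin s) L)}
    (hs : special G = Γ.map (algebraMap k L))
    (hs' : special G' = Γ.map (algebraMap k L)) (hN : Nrm p h Γ G) (hN' : Nrm p h Γ G')
    {B : PowerSeries (MvPowerSeries (Fin s) L)} (hB : IsHom G G' B)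
    (hr : red B = PowerSeries.X) : G = G' ∧ B = PowerSeries.X :=
  H86.FG.nf_unique hΓ hΓ' hs hs' hN hN' hB hr

/-- two isomorphisms to normal deformations with the same reduction are equal -/
theorem nf_unique' {h : ℕ} {Γ : FormalGroup k} (hΓ : Γ.IsComm) (hΓ' : HasHeight p h Γ)
    {G G₁ G₂ : FormalGroup (MvPowerSeries (Fin s) L)}
    (hs₁ : special G₁ = Γ.map (algebraMap k L)) (hs₂ : special G₂ = Γ.map (algebraMap k L))
    (hN₁ : Nrm p h Γ G₁) (hN₂ : Nrm p h Γ G₂)
    {B₁ B₂ : PowerSeries (MvPowerSeries (Fin s) L)} (hB₁ : IsHom G G₁ B₁) (hB₂ : IsHom G G₂ B₂)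
    (hu : IsUnit (PowerSeries.coeff 1 B₁)) (hr : red B₁ = red B₂) : G₁ = G₂ ∧ B₁ = B₂ :=
  H86.FG.nf_unique' hΓ hΓ' hs₁ hs₂ hN₁ hN₂ hB₁ hB₂ hu hr

/-- the normal form is fixed by twists compatible with the isomorphism to it -/
theorem nf_fixed {h : ℕ} {Γ : FormalGroup k} (hΓ : Γ.IsComm) (hΓ' : HasHeight p h Γ)
    {G G' : FormalGroup (MvPowerSeries (Fin s) L)} (hs' : special G' = Γ.map (algebraMap k L))
    (hN : Nrm p h Γ G') {B : PowerSeries (MvPowerSeries (Fin s) L)} (hB : IsHom G G' B)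
    (hu : IsUnit (PowerSeries.coeff 1 B))
    (α : MvPowerSeries (Fin s) L →ₐ[k] MvPowerSeries (Fin s) L)
    (hα : ∀ x, constantCoeff x = 0 → constantCoeff (α x) = 0)
    {f : PowerSeries (MvPowerSeries (Fin s) L)}
    (hf : IsHom G (G.map (α : MvPowerSeries (Fin s) L →+* MvPowerSeries (Fin s) L)) f)
    (hr : red (PowerSeries.subst f
      (PowerSeries.map (α : MvPowerSeries (Fin s) L →+* MvPowerSeries (Fin s) L) B)) = red B) :
    G'.map (α : MvPowerSeries (Fin s) L →+* MvPowerSeries (Fin s) L) = G' ∧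
      PowerSeries.subst f
        (PowerSeries.map (α : MvPowerSeries (Fin s) L →+* MvPowerSeries (Fin s) L) B) = B :=
  H86.FG.nf_fixed hΓ hΓ' hs' hN hB hu α hα hf hr

omit [Fact p.Prime] [CharP k p] in
theorem nf_map {h : ℕ} {Γ : FormalGroup k} {L' : Type*} [Field L'] [Algebra k L'] {s' : ℕ}
    {G : FormalGroup (MvPowerSeries (Fin s) L)}
    (γ : MvPowerSeries (Fin s) L →ₐ[k] MvPowerSeries (Fin s') L') (hN : Nrm p h Γ G) :
    Nrm p h Γ (G.map (γ : MvPowerSeries (Fin s) L →+* MvPowerSeries (Fin s') L')) :=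
  H86.FG.nf_map γ hN

omit [Fact p.Prime] [CharP k p] in
theorem nf_reflect {h : ℕ} {Γ : FormalGroup k} {L' : Type*} [Field L'] [Algebra k L'] {s' : ℕ}
    {G : FormalGroup (MvPowerSeries (Fin s) L)}
    (γ : MvPowerSeries (Fin s) L →ₐ[k] MvPowerSeries (Fin s') L') (hγ : Function.Injective γ)
    (hN : Nrm p h Γ (G.map (γ : MvPowerSeries (Fin s) L →+* MvPowerSeries (Fin s') L'))) :
    Nrm p h Γ G :=
  H86.FG.nf_reflect γ hγ hN

omit [CharP k p] in
/-- UN: two homomorphisms with the same reduction are equal. -/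
theorem hom_unique {h : ℕ} {G H : FormalGroup (MvPowerSeries (Fin s) L)}
    (hH : H.IsComm) [CharP L p] (hs : HasHeight p h (special G))
    {B B' : PowerSeries (MvPowerSeries (Fin s) L)} (hB : IsHom G H B) (hB' : IsHom G H B')
    (hr : red B = red B') : B = B' :=
  H86.FG.hom_unique hH hs hB hB' hr

/-- GEN: a lifting of the identity is the identity, so liftings are unique. -/
theorem lift_unique {m : ℕ} {F : FormalGroup (MvPowerSeries (Fin m) k)} (hF : IsLT k p m F)
    {a b : Lift k F} (h : red a.f = red b.f) : a = b :=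
  H86.FG.lift_unique hF h

end Pool.Agent.H13.CA
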