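import Pool.Agent.H13.CA.Gal
import Pool.Agent.H13.CA.Iff

/-!
# The closed fibre theorem for radical ideals
-/

open MvPowerSeries

namespace Pool.Agent.H13.CA

theorem mem_map_e {W A B : Type*} [CommRing W] [CommRing A] [CommRing B] [Algebra W A]
    [Algebra W B] (e : A ≃ₐ[W] B) (P : Ideal A) (x : A) :
    e x ∈ P.map (e : A →+* B) ↔ x ∈ P := by
  constructor
  · intro h
    have h1 := Ideal.mem_map_of_mem (e.symm : B →+* A) h
    rw [Ideal.map_map] at h1
    have e2 : (e.symm : B →+* A).comp (e : A →+* B) = RingHom.id _ :=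
      RingHom.ext fun y => e.symm_apply_apply y
    rw [e2, Ideal.map_id] at h1
    have h2 : (e.symm : B →+* A) (e x) = x := e.symm_apply_apply x
    rwa [h2] at h1
  · exact fun h => Ideal.mem_map_of_mem (e : A →+* B) h

theorem isRadical_map {W A B : Type*} [CommRing W] [CommRing A] [CommRing B] [Algebra W A]
    [Algebra W B] (e : A ≃ₐ[W] B) {P : Ideal A} (hP : P.IsRadical) :
    (P.map (e : A →+* B)).IsRadical := by
  rintro y ⟨n, hn⟩
  obtain ⟨x, rfl⟩ := e.surjective y
  rw [← map_pow, mem_map_e] at hn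
  rw [mem_map_e]
  exact hP ⟨n, hn⟩

theorem map_ne_top {W A B : Type*} [CommRing W] [CommRing A] [CommRing B] [Algebra W A]
    [Algebra W B] (e : A ≃ₐ[W] B) {P : Ideal A} (hP : P ≠ ⊤) : P.map (e : A →+* B) ≠ ⊤ := by
  intro h
  apply hP
  rw [Ideal.eq_top_iff_one] at h ⊢
  rw [← mem_map_e e, map_one]
  exact h

section

variable {k k' : Type*} [Field k] [Field k'] [Algebra k k'] {m : ℕ}

/-- Chai's Hope, closed fibre, over a general ground field, radical ideals -/
theorem chai_ground_rad [IsAlgClosed k'] (p : ℕ) [Fact p.Prime] [CharP k p]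
    (F : FormalGroup (MvPowerSeries (Fin m) k)) (hF : IsLT k p m F)
    (hend : ∀ θ' : PowerSeries k', IsHom ((special F).map (algebraMap k k'))
      ((special F).map (algebraMap k k')) θ' → IsUnit (PowerSeries.coeff 1 θ') →
        ∃ θ : PowerSeries k, IsHom (special F) (special F) θ ∧
          PowerSeries.map (algebraMap k k') θ = θ') (N : ℕ)
    (P : Ideal (MvPowerSeries (Fin m) k)) (hP : P.IsRadical) (hPt : P ≠ ⊤)
    (hst : ∀ θ : PowerSeries k, IsHom (special F) (special F) θ →
      IsUnit (PowerSeries.coeff 1 θ) → (PowerSeries.X : PowerSeries k) ^ N ∣ θ - PowerSeries.X →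
        ∃ a : Lift k F, red a.f = θ ∧
          P.map (a.g : MvPowerSeries (Fin m) k →+* MvPowerSeries (Fin m) k) ≤ P) :
    ∃ j, j ≤ m ∧ P = Istd k m j := by
  have hchar : CharP k' p := charP_of_injective_algebraMap (algebraMap k k').injective p
  set F' := F.map (bci k k' (Fin m)) with hF'
  have hLT : IsLT k' p m F' := isLT_bc hF
  have hsp : special F' = (special F).map (algebraMap k k') := special_bc F
  set I : Ideal (MvPowerSeries (Fin m) k') := bc k' P with hI
  have hItop : I ≠ ⊤ := by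
    intro h0
    apply hPt
    rw [Ideal.eq_top_iff_one]
    apply (map_mem_bc (k' := k')).1
    rw [← hI, h0]
    trivial
  have hU : Ample (stabL I : Subgroup (Lift k' F')) := by
    obtain ⟨M, hM, h⟩ := exponent p (Nat.succ_le_succ (Nat.zero_le m)) (height_special hF) N
    refine ⟨M, hM, ?_⟩
    intro θ' hθ' hu'
    rw [hsp] at hθ'
    obtain ⟨θ, hθ, rfl⟩ := hend θ' hθ' hu'
    have hu : IsUnit (PowerSeries.coeff 1 θ) := by
      rw [PowerSeries.coeff_map] at hu'
      rw [isUnit_iff_ne_zero] at hu' ⊢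
      intro h0
      rw [h0, map_zero] at hu'
      exact hu' rfl
    obtain ⟨a, ha, hPa⟩ := hst (iter θ M) (isHom_iter hθ M) (unit_iter hθ.1 hu M) (h θ hθ hu)
    obtain ⟨a', ha1, ha2⟩ := exists_bcLift (k' := k') a
    refine ⟨a', ?_, ?_⟩
    · rw [mem_stabL]
      apply map_eq_of_le a'.g.toRingEquiv I
      refine bc_stable hPa (c := (a'.g : MvPowerSeries (Fin m) k' →+* MvPowerSeries (Fin m) k'))
        ha1 ?_ ?_
      · intro b
        exact a'.g.commutes b
      · intro N y hy
        exact aut_oI N y hy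
    · rw [ha2, ha, map_iter hθ.1]
  obtain ⟨U', _, hU', hst'⟩ := Pool.Agent.H49.CA.ample_minp (stabL I) hU I
    (fun a ha => (mem_stabL.1 ha).le)
  have hQ : ∀ Q ∈ I.minimalPrimes, ∃ j, j ≤ m ∧ Q = Istd k' m j := fun Q hQ =>
    chai_at k' p m F' hLT Q hQ.isPrime U' hU' (fun a ha => hst' a ha Q hQ)
  have hex : ∃ j, j ≤ m ∧ Istd k' m j ∈ I.minimalPrimes := by
    obtain ⟨Q, hQ'⟩ := Ideal.nonempty_minimalPrimes hItop
    obtain ⟨j, hj, rfl⟩ := hQ Q hQ'
    exact ⟨j, hj, hQ'⟩
  have hdec := Classical.decPred fun j => j ≤ m ∧ Istd k' m j ∈ I.minimalPrimes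
  obtain ⟨hj, hjm⟩ := Nat.find_spec hex
  have hle : Istd k' m (Nat.find hex) ≤ I.radical := by
    rw [← Ideal.sInf_minimalPrimes]
    refine le_sInf fun Q hQ' => ?_
    obtain ⟨i, hi, rfl⟩ := hQ Q hQ'
    exact Pool.Agent.H61.CA.Istd_mono (Nat.find_min' hex ⟨hi, hQ'⟩)
  refine ⟨Nat.find hex, hj, ?_⟩
  ext x
  constructor
  · intro hx
    have h1 : bci k k' (Fin m) x ∈ Istd k' m (Nat.find hex) := hjm.le (map_mem_bc.2 hx)
    exact Pool.Agent.H61.CA.comap_Istd.1 h1
  · intro hx
    have h1 : bci k k' (Fin m) x ∈ Istd k' m (Nat.find hex) :=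
      Pool.Agent.H61.CA.comap_Istd.2 hx
    obtain ⟨n, hn⟩ := hle h1
    rw [← map_pow] at hn
    exact hP ⟨n, map_mem_bc.1 hn⟩

end

section

variable {k : Type*} [Field k] {m : ℕ}

/-- reduction of universal deformations to the form `IsLT`, radical ideals -/
theorem univ_reduce_rad (p : ℕ) [Fact p.Prime] [CharP k p]
    (F : FormalGroup (MvPowerSeries (Fin m) k)) (hF : IsUniv k p m F) (N : ℕ)
    (hmain : ∀ F' : FormalGroup (MvPowerSeries (Fin m) k), IsLT k p m F' →
      special F' = special F → ∀ P : Ideal (MvPowerSeries (Fin m) k), P.IsRadical → P ≠ ⊤ →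
      (∀ θ : PowerSeries k, IsHom (special F) (special F) θ →
        IsUnit (PowerSeries.coeff 1 θ) → (PowerSeries.X : PowerSeries k) ^ N ∣ θ - PowerSeries.X →
          ∃ a : Lift k F', red a.f = θ ∧
            P.map (a.g : MvPowerSeries (Fin m) k →+* MvPowerSeries (Fin m) k) ≤ P) →
      ∃ j, j ≤ m ∧ P = Istd k m j)
    (P : Ideal (MvPowerSeries (Fin m) k)) (hP : P.IsRadical) (hPt : P ≠ ⊤)
    (hst : ∀ θ : PowerSeries k, IsHom (special F) (special F) θ →
      IsUnit (PowerSeries.coeff 1 θ) → (PowerSeries.X : PowerSeries k) ^ N ∣ θ - PowerSeries.X →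
        ∃ a : Lift k F, red a.f = θ ∧
          P.map (a.g : MvPowerSeries (Fin m) k →+* MvPowerSeries (Fin m) k) ≤ P) :
    ∃ j, j ≤ m ∧ P = Iw p F j := by
  classical
  have hrange : Iw p F m = Ideal.span (Set.range fun j : Fin m => cw p F j.val) := by
    unfold Iw
    congr 1
    ext x
    constructor
    · rintro ⟨i, hi, rfl⟩
      exact ⟨⟨i, hi⟩, rfl⟩
    · rintro ⟨i, rfl⟩
      exact ⟨i.val, i.isLt, rfl⟩
  obtain ⟨ψ, hψ, -, -, hψc⟩ := Pool.Agent.H44.CA.exists_coord
    (fun j : Fin m => cw p F j.val) (by rw [← hrange]; exact hF.gen)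
  set e : MvPowerSeries (Fin m) k ≃ₐ[k] MvPowerSeries (Fin m) k := ψ.symm with he
  have hew : ∀ j : Fin m, e (cw p F j.val) = X j := by
    intro j
    rw [he, ← hψ j, AlgEquiv.symm_apply_apply]
  set F' := F.map (e : MvPowerSeries (Fin m) k →+* MvPowerSeries (Fin m) k) with hF'
  have hms : mulSer F' p = PowerSeries.map
      (e : MvPowerSeries (Fin m) k →+* MvPowerSeries (Fin m) k) (mulSer F p) := mulSer_map F _ p
  have hcw : ∀ j, cw p F' j = e (cw p F j) := by
    intro j
    rw [cw, hms, PowerSeries.coeff_map]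
    rfl
  have hsp : special F' = special F := special_map F e
  have hcomm : F'.IsComm := IsComm.map' hF.comm _
  have hlt : IsLT k p m F' := by
    refine ⟨hcomm, ?_, ?_, ?_⟩
    · intro j hj i hi
      have hIp : (Istd k m j).IsPrime := Pool.Agent.H61.CA.Istd_prime
      have hdom : IsDomain (MvPowerSeries (Fin m) k ⧸ Istd k m j) := Ideal.Quotient.isDomain _
      have hchar : CharP (MvPowerSeries (Fin m) k ⧸ Istd k m j) p :=
        charP_of_injective_algebraMap
          (algebraMap k (MvPowerSeries (Fin m) k ⧸ Istd k m j)).injective p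
      have h1 := low_coeff p (IsComm.map' hcomm (Ideal.Quotient.mk (Istd k m j))) j ?_ i hi
      · rw [mulSer_map, PowerSeries.coeff_map] at h1
        exact Ideal.Quotient.eq_zero_iff_mem.1 h1
      · intro l hl
        rw [cw, mulSer_map, PowerSeries.coeff_map, Ideal.Quotient.eq_zero_iff_mem]
        change cw p F' l ∈ Istd k m j
        rw [hcw, hew ⟨l, hl.trans_le hj⟩]
        exact mem_Istd_of_lt _ hl
    · intro j
      change cw p F' j.val - X j ∈ Istd k m j.val
      rw [hcw, hew, sub_self]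
      exact zero_mem _
    · rw [MvPowerSeries.isUnit_iff_constantCoeff]
      have h1 := hF.height.2
      rw [← hsp, special, mulSer_map, PowerSeries.coeff_map] at h1
      exact h1
  have hP' := isRadical_map e hP
  have hPt' := map_ne_top e hPt
  obtain ⟨j, hj, hjP⟩ := hmain F' hlt hsp
    (P.map (e : MvPowerSeries (Fin m) k →+* MvPowerSeries (Fin m) k)) hP' hPt' (by
      intro θ hθ hu hN
      obtain ⟨a, ha, haP⟩ := hst θ hθ hu hN
      refine ⟨a.transport e, ?_, ?_⟩
      · rw [← ha]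
        exact red_map e a.f
      · rw [Ideal.map_map]
        have e1 : (((a.transport e).g : MvPowerSeries (Fin m) k ≃ₐ[k] MvPowerSeries (Fin m) k) :
            MvPowerSeries (Fin m) k →+* MvPowerSeries (Fin m) k).comp
            (e : MvPowerSeries (Fin m) k →+* MvPowerSeries (Fin m) k) =
            (e : MvPowerSeries (Fin m) k →+* MvPowerSeries (Fin m) k).comp
              (a.g : MvPowerSeries (Fin m) k →+* MvPowerSeries (Fin m) k) := by
          refine RingHom.ext fun x => ?_
          change e (a.g (e.symm (e x))) = e (a.g x)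
          rw [AlgEquiv.symm_apply_apply]
        rw [e1, ← Ideal.map_map]
        exact Ideal.map_mono haP)
  refine ⟨j, hj, ?_⟩
  have h1 : (P.map (e : MvPowerSeries (Fin m) k →+* MvPowerSeries (Fin m) k)).map
      (ψ : MvPowerSeries (Fin m) k →+* MvPowerSeries (Fin m) k) = P := by
    rw [Ideal.map_map]
    have e2 : (ψ : MvPowerSeries (Fin m) k →+* MvPowerSeries (Fin m) k).comp
        (e : MvPowerSeries (Fin m) k →+* MvPowerSeries (Fin m) k) = RingHom.id _ := by
      refine RingHom.ext fun x => ?_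
      change ψ (ψ.symm x) = x
      rw [AlgEquiv.apply_symm_apply]
    rw [e2, Ideal.map_id]
  rw [← h1, hjP]
  unfold Istd Iw
  rw [Ideal.map_span]
  congr 1
  ext x
  constructor
  · rintro ⟨y, ⟨i, hi, rfl⟩, rfl⟩
    exact ⟨i.val, hi, hψ i⟩
  · rintro ⟨i, hi, rfl⟩
    exact ⟨X ⟨i, hi.trans_le hj⟩, ⟨⟨i, hi.trans_le hj⟩, hi, rfl⟩, hψ ⟨i, hi.trans_le hj⟩⟩

theorem chai_univ_ground_rad (p : ℕ) [Fact p.Prime] [CharP k p]
    (F : FormalGroup (MvPowerSeries (Fin m) k)) (hF : IsUniv k p m F)
    (hA : AutDef (special F)) (N : ℕ)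
    (P : Ideal (MvPowerSeries (Fin m) k)) (hP : P.IsRadical) (hPt : P ≠ ⊤)
    (hst : ∀ θ : PowerSeries k, IsHom (special F) (special F) θ →
      IsUnit (PowerSeries.coeff 1 θ) → (PowerSeries.X : PowerSeries k) ^ N ∣ θ - PowerSeries.X →
        ∃ a : Lift k F, red a.f = θ ∧
          P.map (a.g : MvPowerSeries (Fin m) k →+* MvPowerSeries (Fin m) k) ≤ P) :
    ∃ j, j ≤ m ∧ P = Iw p F j := by
  refine univ_reduce_rad p F hF N ?_ P hP hPt hst
  intro F' hF' hsp P hP hPt hst
  exact chai_ground_rad (k' := AlgebraicClosure k) p F' hF' (by rw [hsp]; exact hA) N P hP hPt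
    (by rw [hsp]; exact hst)

end

end Pool.Agent.H13.CA
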