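import Pool.Agent.H40.CH3.Mn0

/-!
# Stable radical ideals without `p`-torsion in the quotient are zero
-/

open PowerSeries

namespace Pool.Agent.H13.CA

open Pool.Agent.H40.CH3

variable {W : Type*} [CommRing W] [IsDomain W] {k : Type*} [Field k] {π : W →+* k} {p m : ℕ}
  [Fact p.Prime]

/-- the divided derivative -/
private noncomputable def dd (i : Fin m) (j : ℕ) (f : MvPowerSeries (Fin m) W) :
    MvPowerSeries (Fin m) W :=
  fun β => MvPowerSeries.coeff (β + Finsupp.single i j) f * ((β i + j).choose j : W)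

omit [IsDomain W] in
private theorem coeff_dd (i : Fin m) (j : ℕ) (f : MvPowerSeries (Fin m) W) (β : Fin m →₀ ℕ) :
    MvPowerSeries.coeff β (dd i j f) =
      MvPowerSeries.coeff (β + Finsupp.single i j) f * ((β i + j).choose j : W) := rfl

omit [IsDomain W] in
private theorem coeff_iter (i : Fin m) (f : MvPowerSeries (Fin m) W) (j : ℕ) :
    ∀ β : Fin m →₀ ℕ, MvPowerSeries.coeff β ((MvPowerSeries.pderiv W i)^[j] f) =
      MvPowerSeries.coeff (β + Finsupp.single i j) f * ((j.factorial * (β i + j).choose j : ℕ) : W) := by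
  induction j with
  | zero =>
    intro β
    simp
  | succ j ih =>
    intro β
    have h2 : j.factorial * (β i + 1 + j).choose j * (β i + 1) =
        (j + 1).factorial * (β i + (j + 1)).choose (j + 1) := by
      rw [← Nat.ascFactorial_eq_factorial_mul_choose (β i) (j + 1),
        ← Nat.ascFactorial_eq_factorial_mul_choose (β i + 1) j, Nat.ascFactorial_succ,
        ← Nat.succ_ascFactorial, mul_comm]
    have h1 : (β + Finsupp.single i 1 : Fin m →₀ ℕ) i = β i + 1 := by simp
    rw [Function.iterate_succ_apply', MvPowerSeries.coeff_pderiv, ih, add_assoc,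
      ← Finsupp.single_add, add_comm 1 j, mul_assoc, h1, ← h2]
    congr 1
    push_cast
    rfl

omit [IsDomain W] in
private theorem iter_eq (i : Fin m) (f : MvPowerSeries (Fin m) W) (j : ℕ) :
    (MvPowerSeries.pderiv W i)^[j] f = (j.factorial : MvPowerSeries (Fin m) W) * dd i j f := by
  ext β
  rw [coeff_iter, ← map_natCast (MvPowerSeries.C (σ := Fin m) (R := W)),
    MvPowerSeries.coeff_C_mul, coeff_dd]
  push_cast
  ring

omit [Fact p.Prime] in
private theorem nat_unit (hp : p.Prime) (hW : IsWitt p (m + 1) π) {u : ℕ} (hu : ¬ p ∣ u) :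
    IsUnit (u : W) := by
  refine hW.unit _ fun h0 => ?_
  have hc : IsCoprime (u : ℤ) (p : ℤ) :=
    Nat.isCoprime_iff_coprime.2 ((Nat.Prime.coprime_iff_not_dvd hp).2 hu).symm
  obtain ⟨s, t, hst⟩ := hc
  have h1 : π (p : W) = 0 := (hW.ker _).2 (dvd_refl _)
  have h2 : (s : W) * (u : W) + (t : W) * (p : W) = 1 := by exact_mod_cast congrArg (Int.cast : ℤ → W) hst
  have h3 := congrArg π h2
  rw [map_add, map_mul, map_mul, h0, h1, mul_zero, mul_zero, add_zero, map_one] at h3
  exact zero_ne_one h3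

private theorem nat_cancel (hW : IsWitt p (m + 1) π) (J : Ideal (MvPowerSeries (Fin m) W))
    (hJ : ∀ x, (p : MvPowerSeries (Fin m) W) * x ∈ J → x ∈ J) {N : ℕ} (hN : N ≠ 0)
    {x : MvPowerSeries (Fin m) W} (h : (N : MvPowerSeries (Fin m) W) * x ∈ J) : x ∈ J := by
  have hpp : p.Prime := Fact.out
  obtain ⟨e, u, hu, rfl⟩ := Nat.exists_eq_pow_mul_and_not_dvd hN p hpp.ne_one
  rw [Nat.cast_mul, Nat.cast_pow, mul_assoc] at h
  have h1 : ∀ e : ℕ, ∀ y : MvPowerSeries (Fin m) W,
      (p : MvPowerSeries (Fin m) W) ^ e * y ∈ J → y ∈ J := by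
    intro e
    induction e with
    | zero =>
      intro y hy
      rwa [pow_zero, one_mul] at hy
    | succ e ih =>
      intro y hy
      rw [pow_succ', mul_assoc] at hy
      exact ih y (hJ _ hy)
  have h2 : IsUnit (u : MvPowerSeries (Fin m) W) := by
    have h3 := (nat_unit hpp hW hu).map (MvPowerSeries.C (σ := Fin m) (R := W))
    rwa [map_natCast] at h3
  exact (Ideal.unit_mul_mem_iff_mem J h2).1 (h1 e _ h)

private theorem iter_mem (P : Ideal (MvPowerSeries (Fin m) W))
    (hd : ∀ x ∈ P, ∀ i, MvPowerSeries.pderiv W i x ∈ P) (i : Fin m)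
    {x : MvPowerSeries (Fin m) W} (hx : x ∈ P) (j : ℕ) : (MvPowerSeries.pderiv W i)^[j] x ∈ P := by
  induction j with
  | zero => exact hx
  | succ j ih =>
    rw [Function.iterate_succ_apply']
    exact hd _ ih i

private theorem no_unit (hW : IsWitt p (m + 1) π) (P : Ideal (MvPowerSeries (Fin m) W))
    (hPt : P ≠ ⊤) (hp : ∀ x, (p : MvPowerSeries (Fin m) W) * x ∈ P → x ∈ P)
    (hd : ∀ x ∈ P, ∀ i, MvPowerSeries.pderiv W i x ∈ P) (N : ℕ) :
    ∀ α : Fin m →₀ ℕ, α.support.card = N → ∀ h ∈ P, ¬ IsUnit (MvPowerSeries.coeff α h) := by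
  induction N with
  | zero =>
    intro α hα h hh hu
    have hα0 : α = 0 := Finsupp.support_eq_empty.1 (Finset.card_eq_zero.1 hα)
    subst hα0
    rw [MvPowerSeries.coeff_zero_eq_constantCoeff_apply] at hu
    exact hPt (Ideal.eq_top_of_isUnit_mem _ hh
      (MvPowerSeries.isUnit_iff_constantCoeff.2 hu))
  | succ N ih =>
    intro α hα h hh hu
    have hne : α.support.Nonempty := by
      rw [← Finset.card_pos]
      omega
    obtain ⟨i, hi⟩ := hne
    have h1 : ((α i).factorial : MvPowerSeries (Fin m) W) * dd i (α i) h ∈ P := by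
      rw [← iter_eq]
      exact iter_mem P hd i hh _
    have h2 : dd i (α i) h ∈ P := nat_cancel hW P hp (Nat.factorial_ne_zero _) h1
    refine ih (α.erase i) ?_ _ h2 ?_
    · rw [Finsupp.support_erase, Finset.card_erase_of_mem hi, hα]
      rfl
    · rw [coeff_dd, Finsupp.erase_add_single, Finsupp.erase_same, zero_add, Nat.choose_self,
        Nat.cast_one, mul_one]
      exact hu

/-- an ideal closed under derivations, without `p`-torsion in the quotient, vanishes -/
theorem endP_rad (hW : IsWitt p (m + 1) π) (P : Ideal (MvPowerSeries (Fin m) W)) (hPt : P ≠ ⊤)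
    (hp : ∀ x, (p : MvPowerSeries (Fin m) W) * x ∈ P → x ∈ P)
    (hd : ∀ x ∈ P, ∀ i, MvPowerSeries.pderiv W i x ∈ P) : P = ⊥ := by
  classical
  rw [eq_bot_iff]
  intro h hh
  by_contra h0
  have h0' : h ≠ 0 := h0
  have hex : ∃ J : ℕ, ∃ α, ¬ (p : W) ^ J ∣ MvPowerSeries.coeff α h := by
    by_contra hn
    apply h0'
    ext α
    rw [map_zero]
    refine hW.sep _ fun j => ?_
    by_contra hj
    exact hn ⟨j, α, hj⟩
  obtain ⟨α, hα⟩ := Nat.find_spec hex
  have hJ0 : Nat.find hex ≠ 0 := by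
    intro h1
    rw [h1, pow_zero] at hα
    exact hα (one_dvd _)
  obtain ⟨j, hj⟩ := Nat.exists_eq_succ_of_ne_zero hJ0
  rw [hj] at hα
  have hall : ∀ β, (p : W) ^ j ∣ MvPowerSeries.coeff β h := by
    intro β
    by_contra hn
    exact Nat.find_min hex (show j < Nat.find hex by omega) ⟨β, hn⟩
  choose c hc using hall
  let g : MvPowerSeries (Fin m) W := fun β => c β
  have hcg : ∀ β, MvPowerSeries.coeff β g = c β := fun β => rfl
  have hg : h = ((p ^ j : ℕ) : MvPowerSeries (Fin m) W) * g := by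
    ext β
    rw [← map_natCast (MvPowerSeries.C (σ := Fin m) (R := W)), MvPowerSeries.coeff_C_mul, hcg, hc β]
    push_cast
    rfl
  have hpp : p.Prime := Fact.out
  have hgP : g ∈ P := by
    rw [hg] at hh
    exact nat_cancel hW P hp (pow_ne_zero _ hpp.ne_zero) hh
  refine no_unit hW P hPt hp hd _ α rfl g hgP (hW.unit _ fun h1 => ?_)
  rw [hcg, hW.ker] at h1
  apply hα
  rw [hc α, Nat.succ_eq_add_one, pow_succ]
  exact mul_dvd_mul_left _ h1

/-- stable radical ideals without `p`-torsion in the quotient are zero -/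
theorem chai_zero_rad [IsNoetherianRing W] (hW : IsWitt p (m + 1) π)
    (hζ : ∃ ζ : k, IsPrimitiveRoot ζ (p ^ (m + 1) - 1))
    {F : FormalGroup (MvPowerSeries (Fin m) W)} (hF : IsHaz p m F) (N : ℕ)
    (P : Ideal (MvPowerSeries (Fin m) W)) (hPr : P.IsRadical)
    (hPt : P ≠ ⊤) (hp : ∀ x, (p : MvPowerSeries (Fin m) W) * x ∈ P → x ∈ P)
    (hst : ∀ θ : PowerSeries k, IsHom (spc π F) (spc π F) θ → IsUnit (coeff 1 θ) →
      (X : k⟦X⟧) ^ N ∣ θ - X → ∃ a : Lift W F, PowerSeries.map (resd π m) a.f = θ ∧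
        P.map (a.g : MvPowerSeries (Fin m) W →+* MvPowerSeries (Fin m) W) ≤ P) :
    P = ⊥ := by
  refine endP_rad hW P hPt hp fun h hh i => ?_
  by_contra hcon
  haveI := localW hW
  have h1 : (p : MvPowerSeries (Fin m) W) * MvPowerSeries.pderiv W i h ∉ P :=
    fun h => hcon (hp _ h)
  rw [← hPr.radical, Ideal.radical_eq_sInf, Ideal.mem_sInf] at h1
  push Not at h1
  obtain ⟨P', ⟨hPP', hP'⟩, h2⟩ := h1
  obtain ⟨Q, hQ, hPQ, hpQ, haQ, hmax⟩ := jac P' hP' (p : MvPowerSeries (Fin m) W)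
    (MvPowerSeries.pderiv W i h) (fun h3 => h2 (P'.mul_mem_right _ h3))
    (fun h3 => h2 (P'.mul_mem_left _ h3))
  refine haQ (deriv_mem hW hζ (by have := i.2; omega) hF N P hst Q hQ (hPP'.trans hPQ) hpQ ?_
    h hh i)
  intro Q' hQ' hlt
  rw [hmax Q' hQ' hlt]
  ext y
  rw [IsLocalRing.mem_maximalIdeal, mem_nonunits_iff]
  constructor
  · intro hy
    by_contra h2
    exact hy (isUnit_of_not_mem_mI hW h2)
  · intro hy hu
    exact mI_ne_top (Ideal.eq_top_of_isUnit_mem _ hy hu)

end Pool.Agent.H13.CA
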