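import Pool.Agent.H13.CA.UG
import Pool.Agent.H13.CA.RA
import Pool.Agent.H13.CA.RB

/-!
# Chai's Hope for radical ideals
-/

open PowerSeries

namespace Pool.Agent.H13.CA

open Pool.Agent.H40.CH3

section mixed

variable {W k : Type*} [CommRing W] [IsDomain W] [Field k] {π : W →+* k} {p m : ℕ}
  [Fact p.Prime]

/-- stable radical ideals containing `p` -/
theorem stable_p_mem_rad [CharP k p] (hW : IsWitt p (m + 1) π)
    {F : FormalGroup (MvPowerSeries (Fin m) W)} (hF : IsUnivW π p m F)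
    (hA : AutDef (spc π F)) (N : ℕ) (P : Ideal (MvPowerSeries (Fin m) W)) (hP : P.IsRadical)
    (hPt : P ≠ ⊤)
    (hp : (p : MvPowerSeries (Fin m) W) ∈ P)
    (hst : ∀ θ : PowerSeries k, IsHom (spc π F) (spc π F) θ → IsUnit (PowerSeries.coeff 1 θ) →
      (PowerSeries.X : PowerSeries k) ^ N ∣ θ - PowerSeries.X →
        ∃ a : Lift W F, PowerSeries.map (resd π m) a.f = θ ∧
        P.map (a.g : MvPowerSeries (Fin m) W →+* MvPowerSeries (Fin m) W) ≤ P) :
    ∃ j, j ≤ m ∧ P = IwW p F j := by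
  have hs := rd_surj (π := π) hW
  have hker : RingHom.ker (rd π m) ≤ P := by
    intro x hx
    obtain ⟨c, rfl⟩ := (rd_ker hW x).mp hx
    exact P.mul_mem_right c hp
  have hcomap : (P.map (rd π m)).comap (rd π m) = P := by
    rw [Ideal.comap_map_of_surjective _ hs]
    refine le_antisymm (sup_le le_rfl ?_) le_sup_left
    intro x hx
    exact hker (by simpa [RingHom.mem_ker] using hx)
  have hPm : (P.map (rd π m)).IsRadical := by
    rintro y ⟨n, hn⟩
    obtain ⟨x, rfl⟩ := hs y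
    rw [← map_pow, ← Ideal.mem_comap, hcomap] at hn
    exact Ideal.mem_map_of_mem _ (hP ⟨n, hn⟩)
  have hPmt : P.map (rd π m) ≠ ⊤ := by
    intro h
    apply hPt
    rw [← hcomap, h, Ideal.comap_top]
  have hU := isUniv_mod hW hF
  obtain ⟨j, hj, hPj⟩ := chai_univ_ground_rad p (F.map (rd π m)) hU
    (by rw [special_rd]; exact hA) N (P.map (rd π m)) hPm hPmt (by
      intro θ h1 h2 h3
      rw [special_rd] at h1
      obtain ⟨a, ha1, ha2⟩ := hst θ h1 h2 h3
      obtain ⟨b, hb1, hb2⟩ := exists_rdL hW a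
      refine ⟨b, ?_, ?_⟩
      · rw [red, hb1, ← ha1, map_map']
        congr 1
      · rw [Ideal.map_le_iff_le_comap, Ideal.map_le_iff_le_comap]
        intro x hx
        rw [Ideal.mem_comap, Ideal.mem_comap]
        show b.g (rd π m x) ∈ _
        rw [hb2]
        exact Ideal.mem_map_of_mem _ (ha2 (Ideal.mem_map_of_mem _ hx)))
  refine ⟨j, hj, ?_⟩
  rw [← hcomap, hPj, comap_Iw hW]

/-- stable radical ideals without `p`-torsion in the quotient vanish -/
theorem stable_zero_rad [IsNoetherianRing W] [IsAdicComplete (RingHom.ker π) W] [CharP k p]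
    (hW : IsWitt p (m + 1) π) (hζ : ∃ ζ : k, IsPrimitiveRoot ζ (p ^ (m + 1) - 1))
    {F FH : FormalGroup (MvPowerSeries (Fin m) W)}
    (hF : IsUnivW π p m F) (hH : IsHaz p m FH) {γ : k⟦X⟧}
    (hγ : IsHom (spc π F) (spc π FH) γ) (hγu : IsUnit (coeff 1 γ)) (N : ℕ)
    (P : Ideal (MvPowerSeries (Fin m) W)) (hP : P.IsRadical) (hPt : P ≠ ⊤)
    (hp : ∀ x, (p : MvPowerSeries (Fin m) W) * x ∈ P → x ∈ P)
    (hst : ∀ a : Lift W F, (X : k⟦X⟧) ^ N ∣ PowerSeries.map (resd π m) a.f - X →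
      P.map (a.g : MvPowerSeries (Fin m) W →+* MvPowerSeries (Fin m) W) ≤ P) :
    P = ⊥ := by
  obtain ⟨e, v, hv, hvu, hvr⟩ := exists_comparison hW hF hH hγ hγu
  obtain ⟨γ', hγ', hγ'u, h1, h2⟩ := hγ.inv' hγu
  have hmem := mem_map_e e P
  have key := chai_zero_rad hW hζ hH N
    (P.map (e : MvPowerSeries (Fin m) W →+* MvPowerSeries (Fin m) W)) (isRadical_map e hP)
    (map_ne_top e hPt) (by
      intro y hy
      obtain ⟨x, rfl⟩ := e.surjective y
      rw [hmem]
      apply hp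
      rw [← hmem, map_mul, map_natCast]
      exact hy) (by
    intro θ hθ hθu hθN
    have hθ0 : IsHom (spc π F) (spc π F) (PowerSeries.subst (PowerSeries.subst γ θ) γ') :=
      (hγ.comp hθ).comp hγ'
    have hθ0u : IsUnit (coeff 1 (PowerSeries.subst (PowerSeries.subst γ θ) γ')) := by
      rw [c1_subst (cc_subst hγ.1 hθ.1) hγ'.1, c1_subst hγ.1 hθ.1]
      exact hγ'u.mul (hθu.mul hγu)
    have hθ0N := conj_dvd hγ.1 hγ'.1 h1 hθ.1 hθN
    obtain ⟨a, ha⟩ := lift_existsW hW hF hθ0 hθ0u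
    have hPa := hst a (by rw [ha]; exact hθ0N)
    obtain ⟨b, hb1, hb2⟩ := exists_transfer e hv hvu a
    refine ⟨b, ?_, ?_⟩
    · have h3 := congrArg (PowerSeries.map (resd π m)) hb2
      rw [map_subst' (hs_zero hv.1), map_subst' (hs_zero (map_hs a.hom.1 _)), hvr, map_map',
        map_map', resd_comp hW, resd_comp hW, hvr, ha] at h3
      have h4 : (PowerSeries.subst (PowerSeries.subst (PowerSeries.subst γ θ) γ') γ : k⟦X⟧) =
          PowerSeries.subst γ θ := by
        rw [← subst_subst' hγ'.1 (cc_subst hγ.1 hθ.1), h2,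
          PowerSeries.subst_X (hs_zero (cc_subst hγ.1 hθ.1))]
      rw [h4] at h3
      have h5 := congrArg (PowerSeries.subst γ') h3
      have hb0 : constantCoeff (PowerSeries.map (resd π m) b.f) = 0 := map_hs b.hom.1 _
      rw [subst_subst' hγ.1 hγ'.1, subst_subst' hγ.1 hγ'.1, h2, PowerSeries.X_subst,
        PowerSeries.X_subst] at h5
      exact h5
    · rw [Ideal.map_le_iff_le_comap, Ideal.map_le_iff_le_comap]
      intro x hx
      rw [Ideal.mem_comap, Ideal.mem_comap]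
      change b.g (e x) ∈ _
      rw [hb1, hmem]
      exact hPa (Ideal.mem_map_of_mem _ hx))
  ext x
  rw [Submodule.mem_bot, ← hmem, key, Submodule.mem_bot, EmbeddingLike.map_eq_zero_iff]


/-- the `p`-saturation of an ideal -/
def psat {R : Type*} [CommRing R] (p : ℕ) (I : Ideal R) : Ideal R where
  carrier := {x | ∃ c : ℕ, (p : R) ^ c * x ∈ I}
  add_mem' := by
    rintro x y ⟨c, hc⟩ ⟨d, hd⟩
    refine ⟨c + d, ?_⟩
    have h1 : (p : R) ^ (c + d) * (x + y) = (p : R) ^ d * ((p : R) ^ c * x) +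
        (p : R) ^ c * ((p : R) ^ d * y) := by ring
    rw [h1]
    exact I.add_mem (I.mul_mem_left _ hc) (I.mul_mem_left _ hd)
  zero_mem' := ⟨0, by rw [mul_zero]; exact zero_mem _⟩
  smul_mem' := by
    rintro r x ⟨c, hc⟩
    refine ⟨c, ?_⟩
    have h1 : (p : R) ^ c * (r • x) = r * ((p : R) ^ c * x) := by
      rw [smul_eq_mul]
      ring
    rw [h1]
    exact I.mul_mem_left _ hc

theorem mem_psat {R : Type*} [CommRing R] {p : ℕ} {I : Ideal R} {x : R} :
    x ∈ psat p I ↔ ∃ c : ℕ, (p : R) ^ c * x ∈ I := Iff.rfl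

theorem le_psat {R : Type*} [CommRing R] (p : ℕ) (I : Ideal R) : I ≤ psat p I := by
  intro x hx
  exact ⟨0, by rw [pow_zero, one_mul]; exact hx⟩

theorem psat_rad {R : Type*} [CommRing R] {p : ℕ} {I : Ideal R} (hI : I.IsRadical) :
    (psat p I).IsRadical := by
  rintro x ⟨n, c, hc⟩
  refine ⟨c, hI ⟨n + 1, ?_⟩⟩
  have h1 : ((p : R) ^ c * x) ^ (n + 1) =
      ((p : R) ^ (c * n) * x) * ((p : R) ^ c * x ^ n) := by ring
  rw [h1]
  exact I.mul_mem_left _ hc

theorem psat_cancel {R : Type*} [CommRing R] {p : ℕ} {I : Ideal R} {x : R}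
    (h : (p : R) * x ∈ psat p I) : x ∈ psat p I := by
  obtain ⟨c, hc⟩ := h
  refine ⟨c + 1, ?_⟩
  rw [pow_succ, mul_assoc]
  exact hc

theorem psat_stable {R : Type*} [CommRing R] {p : ℕ} {I : Ideal R} {g : R →+* R}
    (h : I.map g ≤ I) : (psat p I).map g ≤ psat p I := by
  rw [Ideal.map_le_iff_le_comap]
  rintro x ⟨c, hc⟩
  refine ⟨c, ?_⟩
  have h1 := h (Ideal.mem_map_of_mem g hc)
  rwa [map_mul, map_pow, map_natCast] at h1

/-- Chai's Hope for radical ideals. -/
theorem mixed_fibre_rad [IsNoetherianRing W] [IsAdicComplete (RingHom.ker π) W] [CharP k p]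
    (hW : IsWitt p (m + 1) π) {F : FormalGroup (MvPowerSeries (Fin m) W)}
    (hF : IsUnivW π p m F) (hS : Split p (m + 1) (spc π F))
    (P : Ideal (MvPowerSeries (Fin m) W)) (hP : P.IsRadical) (hPt : P ≠ ⊤) (N : ℕ)
    (hN : ∀ a : Lift W F, (X : k⟦X⟧) ^ N ∣ PowerSeries.map (resd π m) a.f - X →
      P.map (a.g : MvPowerSeries (Fin m) W →+* MvPowerSeries (Fin m) W) ≤ P) :
    P = ⊥ ∨ ∃ j, j ≤ m ∧ P = IwW p F j := by
  obtain ⟨⟨ε⟩, Γ', β, hΓ', hβ, hβu⟩ := hS
  have hζ := prim_of_galois p (Nat.succ_le_succ (Nat.zero_le m)) ε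
  by_cases hp : (p : MvPowerSeries (Fin m) W) ∈ P
  · right
    obtain ⟨ζ, hζ'⟩ := hζ
    refine stable_p_mem_rad hW hF
      (autDef_iso hβ hβu (autDef_of_prim p (Nat.succ_le_succ (Nat.zero_le m)) hζ' hΓ'))
      N P hP hPt hp fun θ hθ hu hd => ?_
    obtain ⟨a, ha⟩ := lift_existsW hW hF hθ hu
    exact ⟨a, ha, hN a (by rw [ha]; exact hd)⟩
  · left
    obtain ⟨FH, hH⟩ := haz_exists (m := m) hW
    have hcH : (spc π FH).IsComm := IsComm.map' hH.comm _
    have hcF : (spc π F).IsComm := IsComm.map' hF.comm _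
    obtain ⟨u, hu, hu1⟩ := Pool.Agent.H74.LA.lz p (Nat.succ_le_succ (Nat.zero_le m))
      (hβ.comm_target hβu hcF) hcH hΓ' (mulSer_spc hW hH)
    have hγ := hβ.comp hu
    have h1 := stable_zero_rad hW hζ hF hH hγ (by
      rw [c1_subst hβ.1 hu.1, hu1, one_mul]
      exact hβu) N (psat p P) (psat_rad hP) (by
        intro h
        rw [Ideal.eq_top_iff_one] at h
        obtain ⟨c, hc⟩ := h
        rw [mul_one] at hc
        exact hp (hP ⟨c, hc⟩)) (fun x hx => psat_cancel hx)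
        (fun a ha => psat_stable (hN a ha))
    rw [eq_bot_iff, ← h1]
    exact le_psat p P

end mixed

end Pool.Agent.H13.CA
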