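import Pool.Agent.H13.CA.Iff

/-!
# Transfer of liftings along an isomorphism
-/

open PowerSeries

namespace Pool.Agent.H13.CA

variable {W A B : Type*} [CommRing W] [CommRing A] [CommRing B] [Algebra W A] [Algebra W B]

/-- transfer of liftings along `e : A ≃ B`, `v : F.map e → G` -/
theorem exists_transfer {F : FormalGroup A} {G : FormalGroup B} (e : A ≃ₐ[W] B) {v : B⟦X⟧}
    (hv : IsHom (F.map (e : A →+* B)) G v) (hu : IsUnit (coeff 1 v)) (a : Lift W F) :
    ∃ b : Lift W G, (∀ x, b.g (e x) = e (a.g x)) ∧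
      PowerSeries.subst v b.f =
        PowerSeries.subst (PowerSeries.map (e : A →+* B) a.f)
          (PowerSeries.map (b.g : B →+* B) v) := by
  obtain ⟨v', hv', h1, h2⟩ := hv.inv hu
  set a' : Lift W (F.map (e : A →+* B)) := a.transport e with ha'
  have hg : ∀ x, a'.g (e x) = e (a.g x) := by
    intro x
    change e (a.g (e.symm (e x))) = e (a.g x)
    rw [AlgEquiv.symm_apply_apply]
  have hcomp : IsHom G (G.map (a'.g : B →+* B))
      (PowerSeries.subst (PowerSeries.subst v' a'.f) (PowerSeries.map (a'.g : B →+* B) v)) :=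
    (hv'.comp a'.hom).comp (hv.map (a'.g : B →+* B))
  have hu' : IsUnit (coeff 1 (PowerSeries.subst (PowerSeries.subst v' a'.f)
      (PowerSeries.map (a'.g : B →+* B) v))) := by
    rw [c1_subst (hv'.comp a'.hom).1 (map_hs hv.1 _), c1_subst hv'.1 a'.hom.1, coeff_map]
    refine (hu.map _).mul (a'.isUnit.mul ?_)
    have h3 := congrArg (coeff 1) h1
    rw [c1_subst hv.1 hv'.1, coeff_one_X] at h3
    exact IsUnit.of_mul_eq_one _ h3
  obtain ⟨b, hb1, hb2⟩ := Lift.exists_of (k := W) a'.g _ hcomp hu'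
  refine ⟨b, ?_, ?_⟩
  · intro x
    rw [hb1, hg]
  · rw [hb2, hb1]
    rw [subst_subst' (hv'.comp a'.hom).1 hv.1, subst_subst' hv'.1 hv.1, h1,
      PowerSeries.X_subst]
    rfl

end Pool.Agent.H13.CA
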