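import Pool.Agent.H13.CA.UF

/-!
# Universal deformations in mixed characteristic: existence
-/

open PowerSeries

namespace Pool.Agent.H13.CA

open Pool.Agent.H40.CH3

/-- the ideals of a group law in Hazewinkel type coordinates -/
theorem Iw_of_isLT {k : Type*} [Field k] {p m : ℕ} {F : FormalGroup (MvPowerSeries (Fin m) k)}
    (hF : IsLT k p m F) (j : ℕ) (hj : j ≤ m) : Iw p F j = Istd k m j := by
  induction j with
  | zero =>
    rw [Pool.Agent.H61.CA.Istd_zero, Iw, Ideal.span_eq_bot]
    rintro x ⟨i, hi, _⟩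
    omega
  | succ j ih =>
    have ih' := ih (by omega)
    have h0 := hF.mid ⟨j, by omega⟩
    apply le_antisymm
    · refine Ideal.span_le.2 ?_
      rintro x ⟨i, hi, rfl⟩
      rcases Nat.lt_succ_iff_lt_or_eq.1 hi with h | rfl
      · have h1 : cw p F i ∈ Iw p F j := Ideal.subset_span ⟨i, h, rfl⟩
        rw [ih'] at h1
        exact Pool.Agent.H61.CA.Istd_mono (Nat.le_succ j) h1
      · have h1 : (MvPowerSeries.X ⟨i, by omega⟩ : MvPowerSeries (Fin m) k) ∈
            Istd k m (i + 1) := Ideal.subset_span ⟨⟨i, by omega⟩, Nat.lt_succ_self i, rfl⟩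
        have h2 := add_mem (Pool.Agent.H61.CA.Istd_mono (Nat.le_succ i) h0) h1
        rw [sub_add_cancel] at h2
        exact h2
    · refine Ideal.span_le.2 ?_
      rintro x ⟨i, hi, rfl⟩
      rcases Nat.lt_succ_iff_lt_or_eq.1 hi with h | h
      · have h1 : (MvPowerSeries.X i : MvPowerSeries (Fin m) k) ∈ Istd k m j :=
          Ideal.subset_span ⟨i, h, rfl⟩
        rw [← ih'] at h1
        have h2 : Iw p F j ≤ Iw p F (j + 1) :=
          Ideal.span_mono (by rintro y ⟨l, hl, rfl⟩; exact ⟨l, by omega, rfl⟩)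
        exact h2 h1
      · have h2 : Iw p F j ≤ Iw p F (j + 1) :=
          Ideal.span_mono (by rintro y ⟨l, hl, rfl⟩; exact ⟨l, by omega, rfl⟩)
        have h3 : cw p F j ∈ Iw p F (j + 1) := Ideal.subset_span ⟨j, Nat.lt_succ_self j, rfl⟩
        rw [← ih'] at h0
        have h4 := sub_mem h3 (h2 h0)
        have h5 : i = ⟨j, by omega⟩ := Fin.ext h
        rw [h5]
        have h6 : cw p F j - (PowerSeries.coeff (p ^ ((⟨j, by omega⟩ : Fin m).val + 1))
            (mulSer F p) - MvPowerSeries.X ⟨j, by omega⟩) =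
              (MvPowerSeries.X ⟨j, by omega⟩ : MvPowerSeries (Fin m) k) := by
          change cw p F j - (cw p F j - _) = _
          ring
        rw [h6] at h4
        exact h4

section mixed

variable {W k : Type*} [CommRing W] [IsDomain W] [Field k] {π : W →+* k} {p m : ℕ}
  [Fact p.Prime]

/-- the Hazewinkel group law is a universal deformation -/
theorem isUnivW_of_isHaz (hW : IsWitt p (m + 1) π) {F : FormalGroup (MvPowerSeries (Fin m) W)}
    (hF : IsHaz p m F) : IsUnivW π p m F := by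
  refine ⟨hF.comm, ?_, ?_⟩
  · rw [HasHeight, mulSer_spc hW hF]
    refine ⟨fun i hi => ?_, ?_⟩
    · rw [coeff_X_pow, if_neg (by omega)]
    · rw [coeff_X_pow, if_pos rfl]
      exact isUnit_one
  · have h1 := comap_Iw hW F m
    rw [Iw_of_isLT (isLT_mod hW hF) m le_rfl] at h1
    unfold IwW at h1
    rw [← h1, span_eq_ker hW]
    ext x
    rw [Ideal.mem_comap, RingHom.mem_ker, Pool.Agent.H61.CA.mem_Istd_top, const_rd]

theorem univW_exists (hW : IsWitt p (m + 1) π) :
    ∃ F : FormalGroup (MvPowerSeries (Fin m) W), IsUnivW π p m F ∧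
      mulSer (spc π F) p = (X : k⟦X⟧) ^ p ^ (m + 1) := by
  obtain ⟨F, hF⟩ := haz_exists (m := m) hW
  exact ⟨F, isUnivW_of_isHaz hW hF, mulSer_spc hW hF⟩

end mixed

end Pool.Agent.H13.CA
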