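import Pool.Agent.H13.CA.UH
import Pool.Agent.H40.CH3.Wf

/-!
# Universal deformations in mixed characteristic: the theorem
-/

open PowerSeries

namespace Pool.Agent.H13.CA

open Pool.Agent.H40.CH3

/-- the target of an isomorphism is commutative if the source is -/
theorem IsHom.comm_target {R : Type*} [CommRing R] {F G : FormalGroup R} {f : R⟦X⟧}
    (h : IsHom F G f) (hu : IsUnit (coeff 1 f)) (hF : F.IsComm) : G.IsComm := by
  obtain ⟨G', hG', hc⟩ := exists_conj F h.1 hu
  have h1 := hG'.target_unique h hu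
  rw [← h1]
  exact hc hF

/-- conjugation by `β` and then by its inverse -/
theorem conj_conj {R : Type*} [CommRing R] {β β' θ : R⟦X⟧} (hβ : constantCoeff β = 0)
    (hβ' : constantCoeff β' = 0) (hθ : constantCoeff θ = 0)
    (h1 : PowerSeries.subst β β' = (X : R⟦X⟧)) :
    PowerSeries.subst (PowerSeries.subst β
      (PowerSeries.subst (PowerSeries.subst β' θ) β)) β' = θ := by
  have h2 : (PowerSeries.subst β (PowerSeries.subst (PowerSeries.subst β' θ) β) : R⟦X⟧) =
      PowerSeries.subst θ β := by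
    rw [subst_subst' (cc_subst hβ' hθ) hβ, subst_subst' hβ' hβ, h1, PowerSeries.X_subst]
  rw [h2, ← subst_subst' hβ hθ, h1, PowerSeries.subst_X (hs_zero hθ)]

/-- `AutDef` is invariant under isomorphisms over `k` -/
theorem autDef_iso {k : Type*} [Field k] {Γ Γ' : FormalGroup k} {β : k⟦X⟧}
    (hβ : IsHom Γ Γ' β) (hu : IsUnit (coeff 1 β)) (h : AutDef Γ') : AutDef Γ := by
  intro θ' hθ' hθu
  obtain ⟨β', hβ', hβ'u, h1, h2⟩ := hβ.inv' hu
  set φ := algebraMap k (AlgebraicClosure k) with hφ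
  have hb := hβ.map φ
  have hb' := hβ'.map φ
  have hc := (hb'.comp hθ').comp hb
  have hcu : IsUnit (coeff 1 (PowerSeries.subst (PowerSeries.subst (PowerSeries.map φ β') θ')
      (PowerSeries.map φ β))) := by
    rw [c1_subst (cc_subst hb'.1 hθ'.1) hb.1, c1_subst hb'.1 hθ'.1, coeff_map, coeff_map]
    exact (hu.map φ).mul (hθu.mul (hβ'u.map φ))
  obtain ⟨ψ, hψ, hψ'⟩ := h _ hc hcu
  refine ⟨PowerSeries.subst (PowerSeries.subst β ψ) β', (hβ.comp hψ).comp hβ', ?_⟩
  rw [map_subst' (hs_zero (cc_subst hβ.1 hψ.1)), map_subst' (hs_zero hβ.1), hψ']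
  apply conj_conj hb.1 hb'.1 hθ'.1
  rw [← map_subst' (hs_zero hβ.1), h1, map_X']

section mixed

variable {W k : Type*} [CommRing W] [IsDomain W] [Field k] {π : W →+* k} {p m : ℕ}
  [Fact p.Prime]

/-- liftings are unique -/
theorem lift_uniqueW [IsNoetherianRing W] [IsAdicComplete (RingHom.ker π) W] [CharP k p]
    (hW : IsWitt p (m + 1) π) {F : FormalGroup (MvPowerSeries (Fin m) W)}
    (hF : IsUnivW π p m F) {a b : Lift W F}
    (h : PowerSeries.map (resd π m) a.f = PowerSeries.map (resd π m) b.f) : a = b := by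
  obtain ⟨e, hlt⟩ := hF.exists_coord hW
  apply transport_inj e
  apply Pool.Agent.H86.LT.lift_unique_mix hW.surj p (IsComm.map' hF.comm _) hlt
  rw [resd_transport hW, resd_transport hW, h]

/-- stable primes not containing `p` vanish -/
theorem stable_zero [IsNoetherianRing W] [IsAdicComplete (RingHom.ker π) W] [CharP k p]
    (hW : IsWitt p (m + 1) π) (hζ : ∃ ζ : k, IsPrimitiveRoot ζ (p ^ (m + 1) - 1))
    {F FH : FormalGroup (MvPowerSeries (Fin m) W)}
    (hF : IsUnivW π p m F) (hH : IsHaz p m FH) {γ : k⟦X⟧}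
    (hγ : IsHom (spc π F) (spc π FH) γ) (hγu : IsUnit (coeff 1 γ)) (N : ℕ)
    (P : Ideal (MvPowerSeries (Fin m) W)) (hP : P.IsPrime)
    (hp : (p : MvPowerSeries (Fin m) W) ∉ P)
    (hst : ∀ a : Lift W F, (X : k⟦X⟧) ^ N ∣ PowerSeries.map (resd π m) a.f - X →
      P.map (a.g : MvPowerSeries (Fin m) W →+* MvPowerSeries (Fin m) W) ≤ P) :
    P = ⊥ := by
  obtain ⟨e, v, hv, hvu, hvr⟩ := exists_comparison hW hF hH hγ hγu
  obtain ⟨γ', hγ', hγ'u, h1, h2⟩ := hγ.inv' hγu
  have hbij : Function.Bijective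
      (e : MvPowerSeries (Fin m) W →+* MvPowerSeries (Fin m) W) := e.bijective
  have hPe : P = (P.map (e : MvPowerSeries (Fin m) W →+* MvPowerSeries (Fin m) W)).comap
      (e : MvPowerSeries (Fin m) W →+* MvPowerSeries (Fin m) W) := by
    rw [Ideal.comap_map_of_bijective _ hbij]
  have hmem : ∀ x, e x ∈ P.map (e : MvPowerSeries (Fin m) W →+* MvPowerSeries (Fin m) W) ↔
      x ∈ P := by
    intro x
    conv_rhs => rw [hPe]
    rfl
  have hker : RingHom.ker (e : MvPowerSeries (Fin m) W →+* MvPowerSeries (Fin m) W) ≤ P := by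
    intro x hx
    rw [RingHom.mem_ker] at hx
    have h3 : x = 0 := e.injective (hx.trans (map_zero e).symm)
    rw [h3]
    exact zero_mem _
  have hP' : (P.map (e : MvPowerSeries (Fin m) W →+* MvPowerSeries (Fin m) W)).IsPrime :=
    Ideal.map_isPrime_of_surjective e.surjective hker
  have key := Pool.Agent.H40.CH3.chai_zero hW hζ hH N
    (P.map (e : MvPowerSeries (Fin m) W →+* MvPowerSeries (Fin m) W)) hP' (by
      intro h
      apply hp
      rw [← hmem, map_natCast]
      exact h) (by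
    intro θ hθ hθu hθN
    have hθ0 : IsHom (spc π F) (spc π F) (PowerSeries.subst (PowerSeries.subst γ θ) γ') :=
      (hγ.comp hθ).comp hγ'
    have hθ0u : IsUnit (coeff 1 (PowerSeries.subst (PowerSeries.subst γ θ) γ')) := by
      rw [c1_subst (cc_subst hγ.1 hθ.1) hγ'.1, c1_subst hγ.1 hθ.1]
      exact hγ'u.mul (hθu.mul hγu)
    have hθ0N := conj_dvd hγ.1 hγ'.1 h1 hθ.1 hθN
    obtain ⟨a, ha⟩ := lift_existsW hW hF hθ0 hθ0u
    have hPa := hst a (by rw [ha]; exact hθ0N)
    obtain ⟨b, hb1, hb2⟩ := exists_transfer e hv hvu a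
    refine ⟨b, ?_, ?_⟩
    · have h3 := congrArg (PowerSeries.map (resd π m)) hb2
      rw [map_subst' (hs_zero hv.1), map_subst' (hs_zero (map_hs a.hom.1 _)), hvr, map_map',
        map_map', resd_comp hW, resd_comp hW, hvr, ha] at h3
      have h4 : (PowerSeries.subst (PowerSeries.subst (PowerSeries.subst γ θ) γ') γ : k⟦X⟧) =
          PowerSeries.subst γ θ := by
        rw [← subst_subst' hγ'.1 (cc_subst hγ.1 hθ.1), h2,
          PowerSeries.subst_X (hs_zero (cc_subst hγ.1 hθ.1))]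
      rw [h4] at h3
      have h5 := congrArg (PowerSeries.subst γ') h3
      have hb0 : constantCoeff (PowerSeries.map (resd π m) b.f) = 0 := map_hs b.hom.1 _
      rw [subst_subst' hγ.1 hγ'.1, subst_subst' hγ.1 hγ'.1, h2, PowerSeries.X_subst,
        PowerSeries.X_subst] at h5
      exact h5
    · rw [Ideal.map_le_iff_le_comap, Ideal.map_le_iff_le_comap]
      intro x hx
      rw [Ideal.mem_comap, Ideal.mem_comap]
      change b.g (e x) ∈ _
      rw [hb1, hmem]
      exact hPa (Ideal.mem_map_of_mem _ hx))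
  ext x
  rw [Submodule.mem_bot, ← hmem, key, Submodule.mem_bot, EmbeddingLike.map_eq_zero_iff]

/-- The field `k` contains the field with `p ^ h` elements, and the formal group law `Γ` is isomorphic
over `k` to a formal group law with `[p] (x) = x ^ (p ^ h)`. -/
def Split (p h : ℕ) [Fact p.Prime] {k : Type*} [Field k] (Γ : FormalGroup k) : Prop :=
  Nonempty (GaloisField p h →+* k) ∧
    ∃ (Γ' : FormalGroup k) (β : k⟦X⟧), mulSer Γ' p = (X : k⟦X⟧) ^ p ^ h ∧ IsHom Γ Γ' β ∧
      IsUnit (coeff 1 β)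

theorem mixed_fibre [IsNoetherianRing W] [IsAdicComplete (RingHom.ker π) W] [CharP k p]
    (hW : IsWitt p (m + 1) π) {F : FormalGroup (MvPowerSeries (Fin m) W)}
    (hF : IsUnivW π p m F) (hS : Split p (m + 1) (spc π F)) :
    (∀ θ : k⟦X⟧, IsHom (spc π F) (spc π F) θ → IsUnit (coeff 1 θ) →
      ∃! a : Lift W F, PowerSeries.map (resd π m) a.f = θ) ∧
    ∀ P : Ideal (MvPowerSeries (Fin m) W), P.IsPrime →
      ((∃ N : ℕ, ∀ a : Lift W F, (X : k⟦X⟧) ^ N ∣ PowerSeries.map (resd π m) a.f - X →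
          P.map (a.g : MvPowerSeries (Fin m) W →+* MvPowerSeries (Fin m) W) ≤ P) ↔
        P = ⊥ ∨ ∃ j, j ≤ m ∧ P = IwW p F j) := by
  obtain ⟨⟨ε⟩, Γ', β, hΓ', hβ, hβu⟩ := hS
  have hζ := prim_of_galois p (Nat.succ_le_succ (Nat.zero_le m)) ε
  refine ⟨fun θ hθ hu => ?_, fun P hP => ⟨?_, ?_⟩⟩
  · obtain ⟨a, ha⟩ := lift_existsW hW hF hθ hu
    exact ⟨a, ha, fun b hb => lift_uniqueW hW hF (by
      change PowerSeries.map (resd π m) b.f = θ at hb
      rw [hb, ha])⟩
  · rintro ⟨N, hN⟩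
    by_cases hp : (p : MvPowerSeries (Fin m) W) ∈ P
    · right
      obtain ⟨ζ, hζ'⟩ := hζ
      refine stable_p_mem hW hF
        (autDef_iso hβ hβu (autDef_of_prim p (Nat.succ_le_succ (Nat.zero_le m)) hζ' hΓ'))
        N P hP hp fun θ hθ hu hd => ?_
      obtain ⟨a, ha⟩ := lift_existsW hW hF hθ hu
      exact ⟨a, ha, hN a (by rw [ha]; exact hd)⟩
    · left
      obtain ⟨FH, hH⟩ := haz_exists (m := m) hW
      have hcH : (spc π FH).IsComm := IsComm.map' hH.comm _
      have hcF : (spc π F).IsComm := IsComm.map' hF.comm _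
      obtain ⟨u, hu, hu1⟩ := Pool.Agent.H74.LA.lz p (Nat.succ_le_succ (Nat.zero_le m))
        (hβ.comm_target hβu hcF) hcH hΓ' (mulSer_spc hW hH)
      have hγ := hβ.comp hu
      exact stable_zero hW hζ hF hH hγ (by
        rw [c1_subst hβ.1 hu.1, hu1, one_mul]
        exact hβu) N P hP hp hN
  · rintro (rfl | ⟨j, hj, rfl⟩)
    · refine ⟨0, fun a _ => ?_⟩
      rw [Ideal.map_bot]
    · exact ⟨0, fun a _ => IwW_stable hW hF a hj⟩

end mixed

end Pool.Agent.H13.CA
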