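import Pool.Agent.H13.CA.UE
import Pool.Agent.H74.LA.Form

/-!
# Chai's Hope for all primes and all heights: the uniform statement
-/

open PowerSeries

namespace Pool.Agent.H13.CA

open Pool.Agent.H40.CH3

/-- A pair `(g, f)`: an automorphism `g` of the `W`-algebra `A` and an isomorphism `f : F → g_* F` of
formal group laws. -/
def IsLift {W A : Type*} [CommRing W] [CommRing A] [Algebra W A] (F : FormalGroup A)
    (a : (A ≃ₐ[W] A) × PowerSeries A) : Prop :=
  IsHom F (F.map (a.1 : A →+* A)) a.2 ∧ IsUnit (coeff 1 a.2)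

theorem Lift.isLift {W A : Type*} [CommRing W] [CommRing A] [Algebra W A] {F : FormalGroup A}
    (a : Lift W F) : IsLift (W := W) F (a.g, a.f) :=
  ⟨a.hom, a.isUnit⟩

theorem IsLift.exists_lift {W A : Type*} [CommRing W] [CommRing A] [Algebra W A]
    {F : FormalGroup A} {a : (A ≃ₐ[W] A) × PowerSeries A} (h : IsLift F a) :
    ∃ b : Lift W F, b.g = a.1 ∧ b.f = a.2 :=
  Lift.exists_of (k := W) a.1 a.2 h.1 h.2

/-- The assertion of Chai's Hope for a formal group law `F` over `R = W⟦X_1, .., X_m⟧`, `π : W → k` the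
residue map, and a set `L` of ideals of `R`: every automorphism of the special fibre has exactly one
lift `(g, f)`, and a prime ideal of `R` is stable under the lifts of all automorphisms `≡ x mod x ^ N`,
for some `N`, if and only if it belongs to `L`. -/
def ChaiHope {W k : Type*} [CommRing W] [Field k] (π : W →+* k) {m : ℕ}
    (F : FormalGroup (MvPowerSeries (Fin m) W)) (L : Set (Ideal (MvPowerSeries (Fin m) W))) :
    Prop :=
  (∀ θ : k⟦X⟧, IsHom (spc π F) (spc π F) θ → IsUnit (coeff 1 θ) →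
    ∃! a : (MvPowerSeries (Fin m) W ≃ₐ[W] MvPowerSeries (Fin m) W) ×
      PowerSeries (MvPowerSeries (Fin m) W),
        IsLift F a ∧ PowerSeries.map (resd π m) a.2 = θ) ∧
  ∀ P : Ideal (MvPowerSeries (Fin m) W), P.IsPrime →
    ((∃ N : ℕ, ∀ a : (MvPowerSeries (Fin m) W ≃ₐ[W] MvPowerSeries (Fin m) W) ×
        PowerSeries (MvPowerSeries (Fin m) W),
          IsLift F a → (X : k⟦X⟧) ^ N ∣ PowerSeries.map (resd π m) a.2 - X →
            P.map (a.1 : MvPowerSeries (Fin m) W →+* MvPowerSeries (Fin m) W) ≤ P) ↔ P ∈ L)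

theorem chaiHope_of {W k : Type*} [CommRing W] [Field k] {π : W →+* k} {m : ℕ}
    {F : FormalGroup (MvPowerSeries (Fin m) W)} {L : Set (Ideal (MvPowerSeries (Fin m) W))}
    (h1 : ∀ θ : k⟦X⟧, IsHom (spc π F) (spc π F) θ → IsUnit (coeff 1 θ) →
      ∃! a : Lift W F, PowerSeries.map (resd π m) a.f = θ)
    (h2 : ∀ P : Ideal (MvPowerSeries (Fin m) W), P.IsPrime →
      ((∃ N : ℕ, ∀ a : Lift W F, (X : k⟦X⟧) ^ N ∣ PowerSeries.map (resd π m) a.f - X →
          P.map (a.g : MvPowerSeries (Fin m) W →+* MvPowerSeries (Fin m) W) ≤ P) ↔ P ∈ L)) :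
    ChaiHope π F L := by
  refine ⟨fun θ hθ hu => ?_, fun P hP => ?_⟩
  · obtain ⟨a, ha, hu⟩ := h1 θ hθ hu
    refine ⟨(a.g, a.f), ⟨a.isLift, ha⟩, ?_⟩
    rintro ⟨g, f⟩ ⟨hb, hbr⟩
    obtain ⟨b, hb1, hb2⟩ := hb.exists_lift
    change b.g = g at hb1
    change b.f = f at hb2
    subst hb1
    subst hb2
    rw [hu b hbr]
  · rw [← h2 P hP]
    refine exists_congr fun N => ⟨fun h a ha => h (a.g, a.f) a.isLift ha, ?_⟩
    rintro h ⟨g, f⟩ hb hN
    obtain ⟨b, hb1, hb2⟩ := hb.exists_lift
    change b.g = g at hb1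
    change b.f = f at hb2
    subst hb1
    subst hb2
    exact h b hN

section closed

variable {k : Type*} [Field k] {m : ℕ}

theorem spc_id (F : FormalGroup (MvPowerSeries (Fin m) k)) :
    spc (RingHom.id k) F = special F := by
  unfold spc special resd
  rw [RingHom.id_comp]

theorem IwW_id (p : ℕ) [CharP k p] (F : FormalGroup (MvPowerSeries (Fin m) k)) (j : ℕ) :
    IwW p F j = Iw p F j := by
  have hp : (p : MvPowerSeries (Fin m) k) = 0 := by
    rw [← map_natCast (MvPowerSeries.C (σ := Fin m) (R := k)), CharP.cast_eq_zero, map_zero]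
  unfold IwW Iw
  rw [Ideal.span_union, hp, Ideal.span_singleton_eq_bot.2 rfl, bot_sup_eq]

theorem isUniv_of_isUnivW {p : ℕ} [CharP k p] {F : FormalGroup (MvPowerSeries (Fin m) k)}
    (hF : IsUnivW (RingHom.id k) p m F) : IsUniv k p m F := by
  refine ⟨hF.comm, ?_, ?_⟩
  · rw [← spc_id]
    exact hF.height
  · have hp : (p : MvPowerSeries (Fin m) k) = 0 := by
      rw [← map_natCast (MvPowerSeries.C (σ := Fin m) (R := k)), CharP.cast_eq_zero, map_zero]
    have h1 := hF.gen
    rw [Ideal.span_union, Ideal.span_union, hp, Ideal.span_singleton_eq_bot.2 rfl, bot_sup_eq,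
      bot_sup_eq] at h1
    exact h1

/-- closed fibre, uniform statement -/
theorem chaiHope_closed (p : ℕ) [Fact p.Prime] [CharP k p]
    {F : FormalGroup (MvPowerSeries (Fin m) k)} (hF : IsUnivW (RingHom.id k) p m F)
    (hA : AutDef (spc (RingHom.id k) F)) :
    ChaiHope (RingHom.id k) F {P | ∃ j, j ≤ m ∧ P = IwW p F j} := by
  have h := closed_fibre p (isUniv_of_isUnivW hF) (by rw [← spc_id]; exact hA)
  have hr : resd (RingHom.id k) m = MvPowerSeries.constantCoeff (σ := Fin m) (R := k) :=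
    RingHom.id_comp _
  refine chaiHope_of ?_ ?_
  · rw [spc_id, hr]
    exact h.1
  · intro P hP
    rw [hr]
    refine (h.2 P hP).trans ?_
    change _ ↔ ∃ j, j ≤ m ∧ P = IwW p F j
    refine exists_congr fun j => and_congr_right fun _ => ?_
    rw [IwW_id]

end closed

/-- mixed characteristic, uniform statement -/
theorem chaiHope_mixed {W k : Type*} [CommRing W] [IsDomain W] [Field k] {π : W →+* k} {p m : ℕ}
    [Fact p.Prime] [IsNoetherianRing W] [IsAdicComplete (RingHom.ker π) W] [CharP k p]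
    (hW : IsWitt p (m + 1) π) {F : FormalGroup (MvPowerSeries (Fin m) W)}
    (hF : IsUnivW π p m F) (hS : Split p (m + 1) (spc π F)) :
    ChaiHope π F {P | P = ⊥ ∨ ∃ j, j ≤ m ∧ P = IwW p F j} := by
  have h := mixed_fibre hW hF hS
  exact chaiHope_of h.1 h.2

/-- the Witt vectors of a perfect field -/
theorem chaiHope_witt (p : ℕ) [Fact p.Prime] {m : ℕ} {k : Type*} [Field k] [CharP k p]
    [PerfectRing k p] {F : FormalGroup (MvPowerSeries (Fin m) (WittVector p k))}
    (hF : IsUnivW WittVector.constantCoeff p m F)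
    (hS : Split p (m + 1) (spc WittVector.constantCoeff F)) :
    ChaiHope WittVector.constantCoeff F {P | P = ⊥ ∨ ∃ j, j ≤ m ∧ P = IwW p F j} := by
  have hac : IsAdicComplete (RingHom.ker (WittVector.constantCoeff : WittVector p k →+* k))
      (WittVector p k) := by
    rw [WittVector.ker_constantCoeff]
    infer_instance
  exact chaiHope_mixed (isWitt_wittVector p (m + 1) k) hF hS

/-- Lazard: over an algebraically closed field every commutative formal group law of height `h` is
isomorphic to one with `[p] = x ^ (p ^ h)` -/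
theorem split_of_isAlgClosed (p : ℕ) [Fact p.Prime] {h : ℕ} (hh : 1 ≤ h) {k : Type*} [Field k]
    [IsAlgClosed k] [CharP k p] {Γ : FormalGroup k} (hc : Γ.IsComm) (hΓ : HasHeight p h Γ) :
    Split p h Γ := by
  obtain ⟨Γ', β, _, h2, h3, h4⟩ := Pool.Agent.H74.LA.laz_form (L := k) (k := k) p hh hc hΓ
  refine ⟨?_, Γ', β, h2, ?_, h4⟩
  · have : Algebra (ZMod p) k := ZMod.algebra k p
    have : FiniteDimensional (ZMod p) (GaloisField p h) := inferInstance
    have e : GaloisField p h →ₐ[ZMod p] k := IsAlgClosed.lift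
    exact ⟨(e : GaloisField p h →+* k)⟩
  · have h5 : Γ'.map (algebraMap k k) = Γ' := fmap_id Γ' _ fun _ => rfl
    rw [h5] at h3
    exact h3

end Pool.Agent.H13.CA
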