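import Pool.Agent.H13.CA.UX
import Pool.Agent.H86.LT.Unm
import Pool.Agent.H40.CH3.Hx3
import Pool.Agent.H74.LA.Lz

/-!
# Universal deformations in mixed characteristic: comparison with the Hazewinkel group
-/

open PowerSeries

namespace Pool.Agent.H13.CA

open Pool.Agent.H40.CH3

theorem ps_congr' {R : Type*} [CommRing R] (g : R⟦X⟧) {N : ℕ} {a b : R⟦X⟧}
    (ha : constantCoeff a = 0) (hb : constantCoeff b = 0) (h : (X : R⟦X⟧) ^ N ∣ a - b) :
    (X : R⟦X⟧) ^ N ∣ PowerSeries.subst a g - PowerSeries.subst b g := by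
  have hpow : ∀ d : ℕ, (X : R⟦X⟧) ^ N ∣ a ^ d - b ^ d := fun d => h.trans (sub_dvd_pow_sub_pow a b d)
  rw [PowerSeries.X_pow_dvd_iff]
  intro m hm
  rw [map_sub, sub_eq_zero, PowerSeries.coeff_subst' (hs_zero ha),
    PowerSeries.coeff_subst' (hs_zero hb)]
  refine finsum_congr fun d => ?_
  congr 1
  have h1 := PowerSeries.X_pow_dvd_iff.1 (hpow d) m hm
  rw [map_sub, sub_eq_zero] at h1
  exact h1

/-- conjugation preserves `≡ X mod X ^ N` -/
theorem conj_dvd {R : Type*} [CommRing R] {γ δ θ : R⟦X⟧} {N : ℕ} (hγ : constantCoeff γ = 0)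
    (hδ : constantCoeff δ = 0) (h1 : PowerSeries.subst γ δ = (X : R⟦X⟧))
    (hθ0 : constantCoeff θ = 0) (hθ : (X : R⟦X⟧) ^ N ∣ θ - X) :
    (X : R⟦X⟧) ^ N ∣ PowerSeries.subst (PowerSeries.subst γ θ) δ - X := by
  have h2 : (X : R⟦X⟧) ^ N ∣ PowerSeries.subst γ θ - γ := by
    obtain ⟨r, hr⟩ := hθ
    have h3 : θ = X + X ^ N * r := by rw [← hr]; ring
    have h4 : PowerSeries.subst γ θ - γ = γ ^ N * PowerSeries.subst γ r := by
      rw [h3, PowerSeries.subst_add (hs_zero hγ), PowerSeries.subst_X (hs_zero hγ),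
        PowerSeries.subst_mul (hs_zero hγ), PowerSeries.subst_pow (hs_zero hγ),
        PowerSeries.subst_X (hs_zero hγ)]
      ring
    rw [h4]
    exact Dvd.dvd.mul_right (pow_dvd_pow_of_dvd (PowerSeries.X_dvd_iff.2 hγ) N) _
  have h5 := ps_congr' δ (cc_subst hγ hθ0) hγ h2
  rwa [h1] at h5

section mixed

variable {W k : Type*} [CommRing W] [IsDomain W] [Field k] {π : W →+* k} {p m : ℕ}
  [Fact p.Prime]

/-- a lift of a series with zero constant coefficient -/
theorem exists_liftS (hW : IsWitt p (m + 1) π) {γ : k⟦X⟧} (h0 : constantCoeff γ = 0) :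
    ∃ γ' : PowerSeries (MvPowerSeries (Fin m) W), constantCoeff γ' = 0 ∧
      PowerSeries.map (resd π m) γ' = γ := by
  choose s hs using hW.surj
  refine ⟨PowerSeries.mk fun i => if i = 0 then 0 else MvPowerSeries.C (s (coeff i γ)), ?_, ?_⟩
  · rw [← coeff_zero_eq_constantCoeff_apply, coeff_mk, if_pos rfl]
  · ext i
    rw [coeff_map, coeff_mk]
    by_cases hi : i = 0
    · subst hi
      rw [if_pos rfl, map_zero, coeff_zero_eq_constantCoeff_apply, h0]
    · rw [if_neg hi]
      change π (MvPowerSeries.constantCoeff (MvPowerSeries.C (s (coeff i γ)))) = _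
      rw [MvPowerSeries.constantCoeff_C, hs]

theorem isUnit_of_resd' (hW : IsWitt p (m + 1) π) {x : MvPowerSeries (Fin m) W}
    (hx : resd π m x ≠ 0) : IsUnit x := by
  rw [MvPowerSeries.isUnit_iff_constantCoeff]
  exact hW.unit _ hx

/-- the ideal `(p, X_1, .., X_m)` is the kernel of the residue map -/
theorem span_eq_ker (hW : IsWitt p (m + 1) π) :
    Ideal.span ({(p : MvPowerSeries (Fin m) W)} ∪ Set.range MvPowerSeries.X) =
      RingHom.ker (resd π m) := by
  have h1 := Pool.Agent.H86.LT.mP_eq (m := m) (RingHom.ker π)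
  rw [ker_eq hW, Ideal.map_span, Set.image_singleton, map_natCast, ← Ideal.span_union] at h1
  have h2 : (Set.range fun i : Fin m => (MvPowerSeries.X i : MvPowerSeries (Fin m) W)) =
      Set.range MvPowerSeries.X := rfl
  rw [h2] at h1
  rw [← h1]
  ext x
  rw [Pool.Agent.H86.LT.mem_mP, ← ker_eq hW, RingHom.mem_ker, RingHom.mem_ker]
  rfl

/-- the ideal generated by `p` and the coefficients of index less than `N` of `[p]_F` -/
noncomputable def Jp {R : Type*} [CommRing R] (p : ℕ) (F : FormalGroup R) (N : ℕ) : Ideal R :=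
  Ideal.span {(p : R)} ⊔ Ideal.span {x | ∃ i, i < N ∧ x = coeff i (mulSer F p)}

theorem Jp_iso {R : Type*} [CommRing R] {F G : FormalGroup R} {f : R⟦X⟧} (h : IsHom F G f)
    (hu : IsUnit (coeff 1 f)) (p N : ℕ) : Jp p F N = Jp p G N := by
  unfold Jp
  rw [span_coeff_mulSer h hu p N]

theorem Jp_le (hW : IsWitt p (m + 1) π) {F : FormalGroup (MvPowerSeries (Fin m) W)}
    (hh : HasHeight p (m + 1) (spc π F)) : Jp p F (p ^ (m + 1)) ≤ RingHom.ker (resd π m) := by
  refine sup_le ?_ ?_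
  · rw [Ideal.span_singleton_le_iff_mem, ← span_eq_ker hW]
    exact Ideal.subset_span (Or.inl rfl)
  · refine Ideal.span_le.2 ?_
    rintro x ⟨i, hi, rfl⟩
    have h1 := hh.1 i hi
    unfold spc at h1
    rw [mulSer_map, coeff_map] at h1
    exact h1

theorem le_Jp (hW : IsWitt p (m + 1) π) {F : FormalGroup (MvPowerSeries (Fin m) W)}
    (hF : IsUnivW π p m F) : RingHom.ker (resd π m) ≤ Jp p F (p ^ (m + 1)) := by
  rw [← span_eq_ker hW, ← hF.gen, Ideal.span_union]
  refine sup_le_sup_left (Ideal.span_mono ?_) _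
  rintro x ⟨i, hi, rfl⟩
  exact ⟨p ^ (i + 1), Nat.pow_lt_pow_right (Fact.out : p.Prime).one_lt (by omega), rfl⟩

theorem Jp_map {R S : Type*} [CommRing R] [CommRing S] (F : FormalGroup R) (φ : R →+* S)
    (p N : ℕ) : Jp p (F.map φ) N = (Jp p F N).map φ := by
  unfold Jp
  rw [Ideal.map_sup, Ideal.map_span, Ideal.map_span, Set.image_singleton, map_natCast]
  congr 2
  ext x
  constructor
  · rintro ⟨i, hi, rfl⟩
    exact ⟨_, ⟨i, hi, rfl⟩, by rw [mulSer_map, coeff_map]⟩
  · rintro ⟨y, ⟨i, hi, rfl⟩, rfl⟩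
    exact ⟨i, hi, by rw [mulSer_map, coeff_map]⟩

/-- comparison with the Hazewinkel group: there are an automorphism `e` of `W⟦X_1, .., X_m⟧` and an
isomorphism `F.map e → F_H` reducing to a given isomorphism of the special fibres. -/
theorem exists_comparison [IsNoetherianRing W] [IsAdicComplete (RingHom.ker π) W] [CharP k p]
    (hW : IsWitt p (m + 1) π) {F FH : FormalGroup (MvPowerSeries (Fin m) W)}
    (hF : IsUnivW π p m F) (hH : IsHaz p m FH) {γ : k⟦X⟧}
    (hγ : IsHom (spc π F) (spc π FH) γ) (hγu : IsUnit (coeff 1 γ)) :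
    ∃ (e : MvPowerSeries (Fin m) W ≃ₐ[W] MvPowerSeries (Fin m) W)
      (v : PowerSeries (MvPowerSeries (Fin m) W)),
      IsHom (F.map (e : MvPowerSeries (Fin m) W →+* MvPowerSeries (Fin m) W)) FH v ∧
      IsUnit (coeff 1 v) ∧ PowerSeries.map (resd π m) v = γ := by
  obtain ⟨γ₁, hγ0, hγ1⟩ := exists_liftS hW hγ.1
  have hu1 : IsUnit (coeff 1 γ₁) := by
    apply isUnit_of_resd' hW
    rw [← coeff_map, hγ1]
    exact hγu.ne_zero
  obtain ⟨G, hG, hGc⟩ := exists_conj F hγ0 hu1
  have hGcomm := hGc hF.comm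
  have hsG : spc π G = spc π FH := by
    have h1 := hG.map (resd π m)
    rw [hγ1] at h1
    exact h1.target_unique hγ hγu
  have hltH := isLT_mod hW hH
  obtain ⟨φ, u, hφr, hu, hur⟩ := Pool.Agent.H86.LT.versal_mix hW.surj p hH.comm hltH hGcomm hsG
  have huu : IsUnit (coeff 1 u) := by
    apply isUnit_of_resd' hW
    rw [← coeff_map, hur, coeff_one_X]
    exact one_ne_zero
  -- `φ` is an automorphism
  have hq : mulSer (spc π FH) p = (X : k⟦X⟧) ^ p ^ (m + 1) := mulSer_spc hW hH
  have hhH : HasHeight p (m + 1) (spc π FH) := by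
    rw [HasHeight, hq]
    refine ⟨fun i hi => ?_, ?_⟩
    · rw [coeff_X_pow, if_neg (by omega)]
    · rw [coeff_X_pow, if_pos rfl]
      exact isUnit_one
  have hgen : (RingHom.ker π).map (MvPowerSeries.C (σ := Fin m) (R := W)) ⊔
      Ideal.span (Set.range fun j : Fin m => φ (MvPowerSeries.X j)) =
        Pool.Agent.H86.LT.mP m (RingHom.ker π) := by
    have hmP : Pool.Agent.H86.LT.mP m (RingHom.ker π) = RingHom.ker (resd π m) := by
      ext x
      rw [Pool.Agent.H86.LT.mem_mP, RingHom.mem_ker, RingHom.mem_ker]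
      rfl
    rw [hmP, ker_eq hW, Ideal.map_span, Set.image_singleton, map_natCast]
    have himg : (RingHom.ker (resd π m)).map
        (φ : MvPowerSeries (Fin m) W →+* MvPowerSeries (Fin m) W) =
          Ideal.span {(p : MvPowerSeries (Fin m) W)} ⊔
            Ideal.span (Set.range fun j : Fin m => φ (MvPowerSeries.X j)) := by
      rw [← span_eq_ker hW, Ideal.map_span, Set.image_union, Set.image_singleton,
        ← Ideal.span_union]
      congr 2
      · rw [map_natCast]
      · rw [← Set.range_comp]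
        rfl
    rw [← himg]
    apply le_antisymm
    · rw [Ideal.map_le_iff_le_comap]
      intro x hx
      rw [Ideal.mem_comap, RingHom.mem_ker]
      change resd π m (φ x) = 0
      rw [hφr]
      exact hx
    · calc RingHom.ker (resd π m) ≤ Jp p F (p ^ (m + 1)) := le_Jp hW hF
        _ = Jp p G (p ^ (m + 1)) := Jp_iso hG hu1 p _
        _ = Jp p (FH.map (φ : MvPowerSeries (Fin m) W →+* MvPowerSeries (Fin m) W))
              (p ^ (m + 1)) := (Jp_iso hu huu p _).symm
        _ = (Jp p FH (p ^ (m + 1))).map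
              (φ : MvPowerSeries (Fin m) W →+* MvPowerSeries (Fin m) W) := Jp_map _ _ _ _
        _ ≤ _ := Ideal.map_mono (Jp_le hW hhH)
  obtain ⟨ψ, hψ⟩ := Pool.Agent.H86.LT.coord_mix (fun j : Fin m => φ (MvPowerSeries.X j)) hgen
  have hac : IsAdicComplete (Pool.Agent.H86.LT.mP m (RingHom.ker π))
      (MvPowerSeries (Fin m) W) := Pool.Agent.H86.LT.ac_mP _
  have hψφ : (ψ : MvPowerSeries (Fin m) W →+* MvPowerSeries (Fin m) W) =
      (φ : MvPowerSeries (Fin m) W →+* MvPowerSeries (Fin m) W) := by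
    refine Pool.Agent.H84.CA.mv_hom_ext (Pool.Agent.H86.LT.mP m (RingHom.ker π)) _ _ ?_ ?_ ?_
    · intro a
      exact (ψ.commutes a).trans (φ.commutes a).symm
    · intro i
      exact hψ i
    · intro i
      change ψ (MvPowerSeries.X i) ∈ _
      rw [hψ, Pool.Agent.H86.LT.mem_mP, RingHom.mem_ker]
      have := hφr (MvPowerSeries.X i)
      change π (MvPowerSeries.constantCoeff (φ (MvPowerSeries.X i))) =
        π (MvPowerSeries.constantCoeff (MvPowerSeries.X i)) at this
      rw [this, MvPowerSeries.constantCoeff_X, map_zero]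
  rw [← hψφ] at hu
  obtain ⟨u', hu', hu'u, h1, h2⟩ := hu.inv' huu
  -- `w : F → FH.map ψ`
  have hw : IsHom F (FH.map (ψ : MvPowerSeries (Fin m) W →+* MvPowerSeries (Fin m) W))
      (PowerSeries.subst γ₁ u') := hG.comp hu'
  have hFH : (FH.map (ψ : MvPowerSeries (Fin m) W →+* MvPowerSeries (Fin m) W)).map
      (ψ.symm : MvPowerSeries (Fin m) W →+* MvPowerSeries (Fin m) W) = FH := by
    rw [fmap_map, comp_symm']
    exact fmap_id FH _ fun _ => rfl
  refine ⟨ψ.symm, PowerSeries.map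
    (ψ.symm : MvPowerSeries (Fin m) W →+* MvPowerSeries (Fin m) W)
      (PowerSeries.subst γ₁ u'), ?_, ?_, ?_⟩
  · have h3 := hw.map (ψ.symm : MvPowerSeries (Fin m) W →+* MvPowerSeries (Fin m) W)
    rwa [hFH] at h3
  · rw [coeff_map, c1_subst hγ0 hu'.1]
    exact (hu'u.mul hu1).map _
  · rw [map_map', resd_comp hW, map_subst' (hs_zero hγ0), hγ1]
    have h4 : PowerSeries.map (resd π m) u' = X := by
      have h5 := congrArg (PowerSeries.map (resd π m)) h1
      rw [map_subst' (hs_zero hu.1), hur, map_X', PowerSeries.X_subst] at h5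
      exact h5
    rw [h4, PowerSeries.subst_X (hs_zero hγ.1)]

end mixed

end Pool.Agent.H13.CA
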