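import Pool.Agent.H13.CA.Tra
import Pool.Agent.H40.CH3.Wf
import Pool.Agent.H86.LT.Crd
import Pool.Agent.H86.LT.Lfm

/-!
# Universal deformations in mixed characteristic
-/

open MvPowerSeries

namespace Pool.Agent.H13.CA

open Pool.Agent.H40.CH3

/-- `F` over `W⟦X_1, .., X_m⟧` is a universal deformation of its special fibre, a formal group law of
height `m + 1`: `p` and the coefficients `w_j` of `x ^ (p ^ j)`, `1 ≤ j ≤ m`, in `[p]_F` generate the
ideal `(p, X_1, .., X_m)`. -/
structure IsUnivW {W k : Type*} [CommRing W] [Field k] (π : W →+* k) (p m : ℕ)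
    (F : FormalGroup (MvPowerSeries (Fin m) W)) : Prop where
  comm : F.IsComm
  height : HasHeight p (m + 1) (spc π F)
  gen : Ideal.span ({(p : MvPowerSeries (Fin m) W)} ∪ {x | ∃ i, i < m ∧ x = cw p F i}) =
    Ideal.span ({(p : MvPowerSeries (Fin m) W)} ∪ Set.range X)

/-- the ideal generated by `p` and the coefficients of `x ^ p, .., x ^ (p ^ j)` in `[p]_F` -/
noncomputable def IwW {R : Type*} [CommRing R] (p : ℕ) (F : FormalGroup R) (j : ℕ) : Ideal R :=
  Ideal.span ({(p : R)} ∪ {x | ∃ i, i < j ∧ x = cw p F i})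

theorem isLT_of_cw {k : Type*} [Field k] {m : ℕ} (p : ℕ) [Fact p.Prime] [CharP k p]
    {F : FormalGroup (MvPowerSeries (Fin m) k)} (hc : F.IsComm)
    (hh : HasHeight p (m + 1) (special F)) (hw : ∀ j : Fin m, cw p F j.val = X j) :
    IsLT k p m F := by
  refine ⟨hc, ?_, ?_, ?_⟩
  · intro j hj i hi
    have hIp : (Istd k m j).IsPrime := Pool.Agent.H61.CA.Istd_prime
    have hdom : IsDomain (MvPowerSeries (Fin m) k ⧸ Istd k m j) := Ideal.Quotient.isDomain _
    have hchar : CharP (MvPowerSeries (Fin m) k ⧸ Istd k m j) p :=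
      charP_of_injective_algebraMap
        (algebraMap k (MvPowerSeries (Fin m) k ⧸ Istd k m j)).injective p
    have h1 := low_coeff p (IsComm.map' hc (Ideal.Quotient.mk (Istd k m j))) j ?_ i hi
    · rw [mulSer_map, PowerSeries.coeff_map] at h1
      exact Ideal.Quotient.eq_zero_iff_mem.1 h1
    · intro l hl
      rw [cw, mulSer_map, PowerSeries.coeff_map, Ideal.Quotient.eq_zero_iff_mem]
      change cw p F l ∈ Istd k m j
      rw [hw ⟨l, hl.trans_le hj⟩]
      exact mem_Istd_of_lt _ hl
  · intro j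
    change cw p F j.val - X j ∈ Istd k m j.val
    rw [hw, sub_self]
    exact zero_mem _
  · rw [MvPowerSeries.isUnit_iff_constantCoeff]
    have h1 := hh.2
    rw [special, mulSer_map, PowerSeries.coeff_map] at h1
    exact h1

section mixed

variable {W k : Type*} [CommRing W] [IsDomain W] [Field k] {π : W →+* k} {p m : ℕ}
  [Fact p.Prime]

theorem ker_eq (hW : IsWitt p (m + 1) π) : RingHom.ker π = Ideal.span {(p : W)} := by
  ext x
  rw [RingHom.mem_ker, Ideal.mem_span_singleton]
  exact hW.ker x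

theorem cw_map {R S : Type*} [CommRing R] [CommRing S] (p : ℕ) (F : FormalGroup R) (φ : R →+* S)
    (j : ℕ) : cw p (F.map φ) j = φ (cw p F j) := by
  rw [cw, mulSer_map, PowerSeries.coeff_map]
  rfl

theorem resd_comp (hW : IsWitt p (m + 1) π)
    (e : MvPowerSeries (Fin m) W ≃ₐ[W] MvPowerSeries (Fin m) W) :
    (resd π m).comp (e : MvPowerSeries (Fin m) W →+* MvPowerSeries (Fin m) W) = resd π m :=
  RingHom.ext fun x => resd_aut hW e x

theorem spc_mapW (hW : IsWitt p (m + 1) π) (F : FormalGroup (MvPowerSeries (Fin m) W))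
    (e : MvPowerSeries (Fin m) W ≃ₐ[W] MvPowerSeries (Fin m) W) :
    spc π (F.map (e : MvPowerSeries (Fin m) W →+* MvPowerSeries (Fin m) W)) = spc π F := by
  unfold spc
  rw [fmap_map, resd_comp hW]

/-- good coordinates -/
theorem IsUnivW.exists_coord [IsNoetherianRing W] [IsAdicComplete (RingHom.ker π) W] [CharP k p]
    (hW : IsWitt p (m + 1) π) {F : FormalGroup (MvPowerSeries (Fin m) W)}
    (hF : IsUnivW π p m F) :
    ∃ e : MvPowerSeries (Fin m) W ≃ₐ[W] MvPowerSeries (Fin m) W,
      IsLT k p m ((F.map (e : MvPowerSeries (Fin m) W →+* MvPowerSeries (Fin m) W)).map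
        (MvPowerSeries.map (σ := Fin m) π)) := by
  classical
  have hP : (RingHom.ker π).map (C (σ := Fin m) (R := W)) =
      Ideal.span {(p : MvPowerSeries (Fin m) W)} := by
    rw [ker_eq hW, Ideal.map_span, Set.image_singleton, map_natCast]
  have hgen : (RingHom.ker π).map (C (σ := Fin m) (R := W)) ⊔
      Ideal.span (Set.range fun j : Fin m => cw p F j.val) =
        Pool.Agent.H86.LT.mP m (RingHom.ker π) := by
    rw [Pool.Agent.H86.LT.mP_eq, hP, ← Ideal.span_union, ← Ideal.span_union]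
    have h1 : (Set.range fun j : Fin m => cw p F j.val) = {x | ∃ i, i < m ∧ x = cw p F i} := by
      ext x
      constructor
      · rintro ⟨i, rfl⟩
        exact ⟨i.val, i.isLt, rfl⟩
      · rintro ⟨i, hi, rfl⟩
        exact ⟨⟨i, hi⟩, rfl⟩
    rw [h1]
    exact hF.gen
  obtain ⟨ψ, hψ⟩ := Pool.Agent.H86.LT.coord_mix (fun j : Fin m => cw p F j.val) hgen
  refine ⟨ψ.symm, ?_⟩
  refine isLT_of_cw p (IsComm.map' (IsComm.map' hF.comm _) _) ?_ ?_
  · rw [special_rd, spc_mapW hW]
    exact hF.height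
  · intro j
    rw [cw_map, cw_map]
    have h1 : (ψ.symm : MvPowerSeries (Fin m) W →+* MvPowerSeries (Fin m) W) (cw p F j.val) =
        X j := by
      change ψ.symm (cw p F j.val) = X j
      rw [← hψ j, AlgEquiv.symm_apply_apply]
    rw [h1, MvPowerSeries.map_X]

end mixed

end Pool.Agent.H13.CA
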