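import Pool.Agent.H13.CA.UW

/-!
# Universal deformations in mixed characteristic: reduction modulo `p`
-/

open MvPowerSeries

namespace Pool.Agent.H13.CA

open Pool.Agent.H40.CH3

section mixed

variable {W k : Type*} [CommRing W] [IsDomain W] [Field k] {π : W →+* k} {p m : ℕ}
  [Fact p.Prime]

theorem rd_p (hW : IsWitt p (m + 1) π) : rd π m (p : MvPowerSeries (Fin m) W) = 0 :=
  (rd_ker hW _).2 dvd_rfl

theorem map_IwW (hW : IsWitt p (m + 1) π) (F : FormalGroup (MvPowerSeries (Fin m) W)) (j : ℕ) :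
    (IwW p F j).map (rd π m) = Iw p (F.map (rd π m)) j := by
  unfold IwW Iw
  rw [Ideal.map_span, Set.image_union, Set.image_singleton, rd_p hW]
  apply le_antisymm
  · refine Ideal.span_le.2 ?_
    rintro x (hx | ⟨y, ⟨i, hi, rfl⟩, rfl⟩)
    · rw [Set.mem_singleton_iff] at hx
      rw [hx]
      exact zero_mem _
    · exact Ideal.subset_span ⟨i, hi, by rw [cw_map]⟩
  · refine Ideal.span_le.2 ?_
    rintro x ⟨i, hi, rfl⟩
    exact Ideal.subset_span (Or.inr ⟨_, ⟨i, hi, rfl⟩, by rw [cw_map]⟩)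

theorem comap_Iw (hW : IsWitt p (m + 1) π) (F : FormalGroup (MvPowerSeries (Fin m) W)) (j : ℕ) :
    (Iw p (F.map (rd π m)) j).comap (rd π m) = IwW p F j := by
  rw [← map_IwW hW, Ideal.comap_map_of_surjective _ (rd_surj hW)]
  refine le_antisymm (sup_le le_rfl ?_) le_sup_left
  intro x hx
  have hx' : rd π m x = 0 := by simpa [RingHom.mem_ker] using hx
  obtain ⟨c, rfl⟩ := (rd_ker hW x).mp hx'
  exact Ideal.mul_mem_right c _ (Ideal.subset_span (Or.inl rfl))

theorem isUniv_mod (hW : IsWitt p (m + 1) π) {F : FormalGroup (MvPowerSeries (Fin m) W)}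
    (hF : IsUnivW π p m F) : IsUniv k p m (F.map (rd π m)) := by
  refine ⟨IsComm.map' hF.comm _, ?_, ?_⟩
  · rw [special_rd]
    exact hF.height
  · have h1 := map_IwW hW F m
    rw [← h1]
    unfold IwW
    rw [hF.gen, Ideal.map_span, Set.image_union, Set.image_singleton, rd_p hW]
    apply le_antisymm
    · refine Ideal.span_le.2 ?_
      rintro x (hx | ⟨y, ⟨i, rfl⟩, rfl⟩)
      · rw [Set.mem_singleton_iff] at hx
        rw [hx]
        exact zero_mem _
      · exact Ideal.subset_span ⟨i, by rw [MvPowerSeries.map_X]⟩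
    · refine Ideal.span_le.2 ?_
      rintro x ⟨i, rfl⟩
      exact Ideal.subset_span (Or.inr ⟨_, ⟨i, rfl⟩, by rw [MvPowerSeries.map_X]⟩)

/-- the ideals `IwW p F j` are stable under all liftings -/
theorem IwW_stable [CharP k p] (hW : IsWitt p (m + 1) π)
    {F : FormalGroup (MvPowerSeries (Fin m) W)} (hF : IsUnivW π p m F) (a : Lift W F) {j : ℕ}
    (hj : j ≤ m) : (IwW p F j).map
      (a.g : MvPowerSeries (Fin m) W →+* MvPowerSeries (Fin m) W) ≤ IwW p F j := by
  obtain ⟨b, _, hb⟩ := exists_rdL hW a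
  rw [Ideal.map_le_iff_le_comap]
  intro x hx
  rw [Ideal.mem_comap]
  rw [← comap_Iw hW, Ideal.mem_comap] at hx ⊢
  change rd π m (a.g x) ∈ _
  rw [← hb, ← Iw_stable p (isUniv_mod hW hF) b hj]
  exact Ideal.mem_map_of_mem _ hx

/-- stable primes containing `p` -/
theorem stable_p_mem [CharP k p] (hW : IsWitt p (m + 1) π)
    {F : FormalGroup (MvPowerSeries (Fin m) W)} (hF : IsUnivW π p m F)
    (hA : AutDef (spc π F)) (N : ℕ) (P : Ideal (MvPowerSeries (Fin m) W)) (hP : P.IsPrime)
    (hp : (p : MvPowerSeries (Fin m) W) ∈ P)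
    (hst : ∀ θ : PowerSeries k, IsHom (spc π F) (spc π F) θ → IsUnit (PowerSeries.coeff 1 θ) →
      (PowerSeries.X : PowerSeries k) ^ N ∣ θ - PowerSeries.X →
        ∃ a : Lift W F, PowerSeries.map (resd π m) a.f = θ ∧
        P.map (a.g : MvPowerSeries (Fin m) W →+* MvPowerSeries (Fin m) W) ≤ P) :
    ∃ j, j ≤ m ∧ P = IwW p F j := by
  have hs := rd_surj (π := π) hW
  have hker : RingHom.ker (rd π m) ≤ P := by
    intro x hx
    obtain ⟨c, rfl⟩ := (rd_ker hW x).mp hx
    exact P.mul_mem_right c hp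
  have hPm : (P.map (rd π m)).IsPrime := Ideal.map_isPrime_of_surjective hs hker
  have hcomap : (P.map (rd π m)).comap (rd π m) = P := by
    rw [Ideal.comap_map_of_surjective _ hs]
    refine le_antisymm (sup_le le_rfl ?_) le_sup_left
    intro x hx
    exact hker (by simpa [RingHom.mem_ker] using hx)
  have hU := isUniv_mod hW hF
  obtain ⟨j, hj, hPj⟩ := chai_univ_ground p (F.map (rd π m)) hU
    (by rw [special_rd]; exact hA) N (P.map (rd π m)) hPm (by
      intro θ h1 h2 h3
      rw [special_rd] at h1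
      obtain ⟨a, ha1, ha2⟩ := hst θ h1 h2 h3
      obtain ⟨b, hb1, hb2⟩ := exists_rdL hW a
      refine ⟨b, ?_, ?_⟩
      · rw [red, hb1, ← ha1, map_map']
        congr 1
      · rw [Ideal.map_le_iff_le_comap, Ideal.map_le_iff_le_comap]
        intro x hx
        rw [Ideal.mem_comap, Ideal.mem_comap]
        show b.g (rd π m x) ∈ _
        rw [hb2]
        exact Ideal.mem_map_of_mem _ (ha2 (Ideal.mem_map_of_mem _ hx)))
  refine ⟨j, hj, ?_⟩
  rw [← hcomap, hPj, comap_Iw hW]

theorem resd_transport (hW : IsWitt p (m + 1) π) {F : FormalGroup (MvPowerSeries (Fin m) W)}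
    (e : MvPowerSeries (Fin m) W ≃ₐ[W] MvPowerSeries (Fin m) W) (a : Lift W F) :
    PowerSeries.map (resd π m) (a.transport e).f = PowerSeries.map (resd π m) a.f := by
  change PowerSeries.map (resd π m) (PowerSeries.map
    (e : MvPowerSeries (Fin m) W →+* MvPowerSeries (Fin m) W) a.f) = _
  rw [map_map', resd_comp hW]

theorem comp_symm' (e : MvPowerSeries (Fin m) W ≃ₐ[W] MvPowerSeries (Fin m) W) :
    (e.symm : MvPowerSeries (Fin m) W →+* MvPowerSeries (Fin m) W).comp
      (e : MvPowerSeries (Fin m) W →+* MvPowerSeries (Fin m) W) = RingHom.id _ :=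
  RingHom.ext fun x => e.symm_apply_apply x

/-- liftings exist -/
theorem lift_existsW [IsNoetherianRing W] [IsAdicComplete (RingHom.ker π) W] [CharP k p]
    (hW : IsWitt p (m + 1) π) {F : FormalGroup (MvPowerSeries (Fin m) W)}
    (hF : IsUnivW π p m F) {θ : PowerSeries k} (hθ : IsHom (spc π F) (spc π F) θ)
    (hu : IsUnit (PowerSeries.coeff 1 θ)) :
    ∃ a : Lift W F, PowerSeries.map (resd π m) a.f = θ := by
  obtain ⟨e, hlt⟩ := hF.exists_coord hW
  obtain ⟨a, ha⟩ := Pool.Agent.H86.LT.lift_exists_mix hW.surj p (IsComm.map' hF.comm _) hlt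
    (θ := θ) (by rw [spc_mapW hW]; exact hθ) hu
  have hFF : (F.map (e : MvPowerSeries (Fin m) W →+* MvPowerSeries (Fin m) W)).map
      (e.symm : MvPowerSeries (Fin m) W →+* MvPowerSeries (Fin m) W) = F := by
    rw [fmap_map, comp_symm']
    exact fmap_id F _ fun _ => rfl
  have h : ∃ b : Lift W ((F.map (e : MvPowerSeries (Fin m) W →+* MvPowerSeries (Fin m) W)).map
      (e.symm : MvPowerSeries (Fin m) W →+* MvPowerSeries (Fin m) W)),
      PowerSeries.map (resd π m) b.f = θ :=
    ⟨a.transport e.symm, by rw [resd_transport hW, ha]⟩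
  rw [hFF] at h
  exact h

theorem transport_inj {A B : Type*} [CommRing A] [CommRing B] [Algebra W A] [Algebra W B]
    {F : FormalGroup A} (e : A ≃ₐ[W] B) {a b : Lift W F} (h : a.transport e = b.transport e) :
    a = b := by
  apply Lift.ext'
  · have h2 := congrArg Lift.g h
    apply AlgEquiv.ext
    intro x
    have h3 := AlgEquiv.congr_fun h2 (e x)
    change e (a.g (e.symm (e x))) = e (b.g (e.symm (e x))) at h3
    rw [AlgEquiv.symm_apply_apply] at h3
    exact e.injective h3
  · have h2 := congrArg Lift.f h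
    change PowerSeries.map (e : A →+* B) a.f = PowerSeries.map (e : A →+* B) b.f at h2
    ext1 i
    have h3 := congrArg (PowerSeries.coeff i) h2
    rw [PowerSeries.coeff_map, PowerSeries.coeff_map] at h3
    exact e.injective h3

end mixed

end Pool.Agent.H13.CA
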