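import Pool.Agent.H13.CA.Gnd
import Pool.Agent.H44.CA.Coord
import Pool.Agent.H22.CG.Fld
import Pool.Agent.H86.FG.Mul

/-!
# Coordinate-free form of the closed fibre theorem

`F` over `R = k⟦X_1, .., X_m⟧` is a universal deformation of its special fibre, of height `m + 1`, iff
the coefficients `w_j` of `x ^ (p ^ j)`, `1 ≤ j ≤ m`, in `[p]_F` generate the maximal ideal.
-/

open MvPowerSeries

namespace Pool.Agent.H13.CA

/-- the coefficient of `x ^ (p ^ (j + 1))` in `[p]_F` -/
noncomputable def cw {R : Type*} [CommRing R] (p : ℕ) (F : FormalGroup R) (j : ℕ) : R :=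
  PowerSeries.coeff (p ^ (j + 1)) (mulSer F p)

/-- the ideal generated by the coefficients of `x ^ p, .., x ^ (p ^ j)` in `[p]_F` -/
noncomputable def Iw {R : Type*} [CommRing R] (p : ℕ) (F : FormalGroup R) (j : ℕ) : Ideal R :=
  Ideal.span {x | ∃ i, i < j ∧ x = cw p F i}

/-- if the coefficients of `x ^ p, .., x ^ (p ^ j)` vanish then all coefficients of index less than
`p ^ (j + 1)` vanish (over a domain of characteristic `p`) -/
theorem low_coeff {A : Type*} [CommRing A] [IsDomain A] (p : ℕ) [Fact p.Prime] [CharP A p]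
    {F : FormalGroup A} (hF : F.IsComm) (j : ℕ) (h : ∀ i, i < j → cw p F i = 0) :
    ∀ i, i < p ^ (j + 1) → PowerSeries.coeff i (mulSer F p) = 0 := by
  have hp : p.Prime := Fact.out
  have hhom : IsHom F F (mulSer F p) := Pool.Agent.H86.FG.mulSer_isHom hF p
  induction j with
  | zero =>
    intro i hi
    by_cases hpi : p ∣ i
    · have : i = 0 := by
        rw [zero_add, pow_one] at hi
        exact Nat.eq_zero_of_dvd_of_lt hpi hi
      rw [this, PowerSeries.coeff_zero_eq_constantCoeff_apply, cc_mulSer]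
    · exact Pool.Agent.H86.FG.coeff_mulSer_coprime hF hpi
  | succ j ih =>
    have ih' := ih (fun i hi => h i (hi.trans (Nat.lt_succ_self j)))
    obtain ⟨f₁, h0, h1, h2⟩ := Pool.Agent.H22.CG.hom_expand_pow p hhom (j + 1) ih'
    have hq : p ^ (j + 1) ≠ 0 := pow_ne_zero _ hp.ne_zero
    have hc : ∀ n, PowerSeries.coeff n (mulSer F p) =
        if p ^ (j + 1) ∣ n then PowerSeries.coeff (n / p ^ (j + 1)) f₁ else 0 := by
      intro n
      rw [h2]
      exact Pool.Agent.H86.NF.coeff_comp_X_pow hq f₁ n
    have h3 : PowerSeries.coeff 1 f₁ = 0 := by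
      have h5 := h j (Nat.lt_succ_self j)
      rw [cw, hc, if_pos (dvd_refl _), Nat.div_self (Nat.pos_of_ne_zero hq)] at h5
      exact h5
    have h4 := Pool.Agent.H86.FG.coeff_coprime h1 h3
    intro i hi
    rw [hc]
    by_cases hd : p ^ (j + 1) ∣ i
    · obtain ⟨n, rfl⟩ := hd
      rw [if_pos (dvd_mul_right _ _), Nat.mul_div_cancel_left _ (Nat.pos_of_ne_zero hq)]
      by_cases hn : p ∣ n
      · have : n = 0 := by
          have h5 : n < p := by
            rw [pow_succ p (j + 1)] at hi
            exact lt_of_mul_lt_mul_left hi (Nat.zero_le _)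
          exact Nat.eq_zero_of_dvd_of_lt hn h5
        rw [this, PowerSeries.coeff_zero_eq_constantCoeff_apply, h0]
      · exact h4 n hn
    · rw [if_neg hd]

/-- transport of a lifting along an isomorphism of the base rings -/
noncomputable def Lift.transport {k A B : Type*} [CommRing k] [CommRing A] [CommRing B]
    [Algebra k A] [Algebra k B] {F : FormalGroup A} (e : A ≃ₐ[k] B) (a : Lift k F) :
    Lift k (F.map (e : A →+* B)) where
  g := e.symm.trans (a.g.trans e)
  f := PowerSeries.map (e : A →+* B) a.f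
  f' := PowerSeries.map (e : A →+* B) a.f'
  hom := by
    have h := a.hom.map (e : A →+* B)
    have e1 : (F.map (a.g : A →+* A)).map (e : A →+* B) =
        (F.map (e : A →+* B)).map ((e.symm.trans (a.g.trans e) : B ≃ₐ[k] B) : B →+* B) := by
      rw [fmap_map, fmap_map]
      congr 1
      ext x
      simp
    rwa [e1] at h
  zero' := map_hs a.zero' _
  left := by
    rw [← map_subst' (hs_zero a.hom.1), a.left, map_X']
  right := by
    rw [← map_subst' (hs_zero a.zero'), a.right, map_X']

section
variable {k : Type*} [Field k] {m : ℕ}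

/-- `F` over `k⟦X_1, .., X_m⟧` is a universal deformation of its special fibre, which has height
`m + 1`: the coefficients `w_j` of `x ^ (p ^ j)`, `1 ≤ j ≤ m`, in `[p]_F` generate the maximal ideal. -/
structure IsUniv (k : Type*) [Field k] (p m : ℕ) (F : FormalGroup (MvPowerSeries (Fin m) k)) :
    Prop where
  comm : F.IsComm
  height : HasHeight p (m + 1) (special F)
  gen : Iw p F m = Ideal.span (Set.range X)

/-- reduction of universal deformations to the form `IsLT` -/
theorem univ_reduce (p : ℕ) [Fact p.Prime] [CharP k p]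
    (F : FormalGroup (MvPowerSeries (Fin m) k)) (hF : IsUniv k p m F) (N : ℕ)
    (hmain : ∀ F' : FormalGroup (MvPowerSeries (Fin m) k), IsLT k p m F' →
      special F' = special F → ∀ P : Ideal (MvPowerSeries (Fin m) k), P.IsPrime →
      (∀ θ : PowerSeries k, IsHom (special F) (special F) θ →
        IsUnit (PowerSeries.coeff 1 θ) → (PowerSeries.X : PowerSeries k) ^ N ∣ θ - PowerSeries.X →
          ∃ a : Lift k F', red a.f = θ ∧
            P.map (a.g : MvPowerSeries (Fin m) k →+* MvPowerSeries (Fin m) k) ≤ P) →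
      ∃ j, j ≤ m ∧ P = Istd k m j)
    (P : Ideal (MvPowerSeries (Fin m) k)) (hP : P.IsPrime)
    (hst : ∀ θ : PowerSeries k, IsHom (special F) (special F) θ →
      IsUnit (PowerSeries.coeff 1 θ) → (PowerSeries.X : PowerSeries k) ^ N ∣ θ - PowerSeries.X →
        ∃ a : Lift k F, red a.f = θ ∧
          P.map (a.g : MvPowerSeries (Fin m) k →+* MvPowerSeries (Fin m) k) ≤ P) :
    ∃ j, j ≤ m ∧ P = Iw p F j := by
  classical
  have hrange : Iw p F m = Ideal.span (Set.range fun j : Fin m => cw p F j.val) := by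
    unfold Iw
    congr 1
    ext x
    constructor
    · rintro ⟨i, hi, rfl⟩
      exact ⟨⟨i, hi⟩, rfl⟩
    · rintro ⟨i, rfl⟩
      exact ⟨i.val, i.isLt, rfl⟩
  obtain ⟨ψ, hψ, -, -, hψc⟩ := Pool.Agent.H44.CA.exists_coord
    (fun j : Fin m => cw p F j.val) (by rw [← hrange]; exact hF.gen)
  set e : MvPowerSeries (Fin m) k ≃ₐ[k] MvPowerSeries (Fin m) k := ψ.symm with he
  have hew : ∀ j : Fin m, e (cw p F j.val) = X j := by
    intro j
    rw [he, ← hψ j, AlgEquiv.symm_apply_apply]
  set F' := F.map (e : MvPowerSeries (Fin m) k →+* MvPowerSeries (Fin m) k) with hF'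
  have hms : mulSer F' p = PowerSeries.map
      (e : MvPowerSeries (Fin m) k →+* MvPowerSeries (Fin m) k) (mulSer F p) := mulSer_map F _ p
  have hcw : ∀ j, cw p F' j = e (cw p F j) := by
    intro j
    rw [cw, hms, PowerSeries.coeff_map]
    rfl
  have hsp : special F' = special F := special_map F e
  have hcomm : F'.IsComm := IsComm.map' hF.comm _
  have hlt : IsLT k p m F' := by
    refine ⟨hcomm, ?_, ?_, ?_⟩
    · intro j hj i hi
      have hIp : (Istd k m j).IsPrime := Pool.Agent.H61.CA.Istd_prime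
      have hdom : IsDomain (MvPowerSeries (Fin m) k ⧸ Istd k m j) := Ideal.Quotient.isDomain _
      have hchar : CharP (MvPowerSeries (Fin m) k ⧸ Istd k m j) p :=
        charP_of_injective_algebraMap
          (algebraMap k (MvPowerSeries (Fin m) k ⧸ Istd k m j)).injective p
      have h1 := low_coeff p (IsComm.map' hcomm (Ideal.Quotient.mk (Istd k m j))) j ?_ i hi
      · rw [mulSer_map, PowerSeries.coeff_map] at h1
        exact Ideal.Quotient.eq_zero_iff_mem.1 h1
      · intro l hl
        rw [cw, mulSer_map, PowerSeries.coeff_map, Ideal.Quotient.eq_zero_iff_mem]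
        change cw p F' l ∈ Istd k m j
        rw [hcw, hew ⟨l, hl.trans_le hj⟩]
        exact mem_Istd_of_lt _ hl
    · intro j
      change cw p F' j.val - X j ∈ Istd k m j.val
      rw [hcw, hew, sub_self]
      exact zero_mem _
    · rw [MvPowerSeries.isUnit_iff_constantCoeff]
      have h1 := hF.height.2
      rw [← hsp, special, mulSer_map, PowerSeries.coeff_map] at h1
      exact h1
  have hP' : (P.map (e : MvPowerSeries (Fin m) k →+* MvPowerSeries (Fin m) k)).IsPrime :=
    Ideal.map_isPrime_of_equiv e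
  obtain ⟨j, hj, hjP⟩ := hmain F' hlt hsp
    (P.map (e : MvPowerSeries (Fin m) k →+* MvPowerSeries (Fin m) k)) hP' (by
      intro θ hθ hu hN
      obtain ⟨a, ha, haP⟩ := hst θ hθ hu hN
      refine ⟨a.transport e, ?_, ?_⟩
      · rw [← ha]
        exact red_map e a.f
      · rw [Ideal.map_map]
        have e1 : (((a.transport e).g : MvPowerSeries (Fin m) k ≃ₐ[k] MvPowerSeries (Fin m) k) :
            MvPowerSeries (Fin m) k →+* MvPowerSeries (Fin m) k).comp
            (e : MvPowerSeries (Fin m) k →+* MvPowerSeries (Fin m) k) =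
            (e : MvPowerSeries (Fin m) k →+* MvPowerSeries (Fin m) k).comp
              (a.g : MvPowerSeries (Fin m) k →+* MvPowerSeries (Fin m) k) := by
          refine RingHom.ext fun x => ?_
          change e (a.g (e.symm (e x))) = e (a.g x)
          rw [AlgEquiv.symm_apply_apply]
        rw [e1, ← Ideal.map_map]
        exact Ideal.map_mono haP)
  refine ⟨j, hj, ?_⟩
  have h1 : (P.map (e : MvPowerSeries (Fin m) k →+* MvPowerSeries (Fin m) k)).map
      (ψ : MvPowerSeries (Fin m) k →+* MvPowerSeries (Fin m) k) = P := by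
    rw [Ideal.map_map]
    have e2 : (ψ : MvPowerSeries (Fin m) k →+* MvPowerSeries (Fin m) k).comp
        (e : MvPowerSeries (Fin m) k →+* MvPowerSeries (Fin m) k) = RingHom.id _ := by
      refine RingHom.ext fun x => ?_
      change ψ (ψ.symm x) = x
      rw [AlgEquiv.apply_symm_apply]
    rw [e2, Ideal.map_id]
  rw [← h1, hjP]
  unfold Istd Iw
  rw [Ideal.map_span]
  congr 1
  ext x
  constructor
  · rintro ⟨y, ⟨i, hi, rfl⟩, rfl⟩
    exact ⟨i.val, hi, hψ i⟩
  · rintro ⟨i, hi, rfl⟩
    exact ⟨X ⟨i, hi.trans_le hj⟩, ⟨⟨i, hi.trans_le hj⟩, hi, rfl⟩, hψ ⟨i, hi.trans_le hj⟩⟩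

theorem chai_univ [IsAlgClosed k] (p : ℕ) [Fact p.Prime] [CharP k p]
    (F : FormalGroup (MvPowerSeries (Fin m) k)) (hF : IsUniv k p m F) (N : ℕ)
    (P : Ideal (MvPowerSeries (Fin m) k)) (hP : P.IsPrime)
    (hst : ∀ θ : PowerSeries k, IsHom (special F) (special F) θ →
      IsUnit (PowerSeries.coeff 1 θ) → (PowerSeries.X : PowerSeries k) ^ N ∣ θ - PowerSeries.X →
        ∃ a : Lift k F, red a.f = θ ∧
          P.map (a.g : MvPowerSeries (Fin m) k →+* MvPowerSeries (Fin m) k) ≤ P) :
    ∃ j, j ≤ m ∧ P = Iw p F j := by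
  refine univ_reduce p F hF N ?_ P hP hst
  intro F' hF' hsp P hP hst
  exact chai k p m F' hF' N P hP (by rw [hsp]; exact hst)

/-- all automorphisms of `Γ` over an algebraic closure are defined over `k` -/
def AutDef (Γ : FormalGroup k) : Prop :=
  ∀ θ' : PowerSeries (AlgebraicClosure k), IsHom (Γ.map (algebraMap k (AlgebraicClosure k)))
    (Γ.map (algebraMap k (AlgebraicClosure k))) θ' → IsUnit (PowerSeries.coeff 1 θ') →
      ∃ θ : PowerSeries k, IsHom Γ Γ θ ∧
        PowerSeries.map (algebraMap k (AlgebraicClosure k)) θ = θ'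

/-- Chai's Hope, closed fibre: `k` a field of characteristic `p`, `F` a universal deformation of a
formal group law of height `m + 1` all of whose automorphisms over an algebraic closure are defined
over `k`, `P` a prime ideal of `k⟦X_1, .., X_m⟧` stable under the lifts of all automorphisms
`≡ x mod x ^ N`.  Then `P` is one of the ideals `Iw p F j`, `0 ≤ j ≤ m`. -/
theorem chai_univ_ground (p : ℕ) [Fact p.Prime] [CharP k p]
    (F : FormalGroup (MvPowerSeries (Fin m) k)) (hF : IsUniv k p m F)
    (hA : AutDef (special F)) (N : ℕ)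
    (P : Ideal (MvPowerSeries (Fin m) k)) (hP : P.IsPrime)
    (hst : ∀ θ : PowerSeries k, IsHom (special F) (special F) θ →
      IsUnit (PowerSeries.coeff 1 θ) → (PowerSeries.X : PowerSeries k) ^ N ∣ θ - PowerSeries.X →
        ∃ a : Lift k F, red a.f = θ ∧
          P.map (a.g : MvPowerSeries (Fin m) k →+* MvPowerSeries (Fin m) k) ≤ P) :
    ∃ j, j ≤ m ∧ P = Iw p F j := by
  refine univ_reduce p F hF N ?_ P hP hst
  intro F' hF' hsp P hP hst
  exact chai_ground (k' := AlgebraicClosure k) p F' hF' (by rw [hsp]; exact hA) N P hP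
    (by rw [hsp]; exact hst)

end

end Pool.Agent.H13.CA
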